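import Pool.Agent.Helper48.NS.Val

/-! The mean exponent under resampling given the line: the loss is at most `d / 2` times the leak. (DEGREE) -/

set_option autoImplicit false

namespace Pool.Agent.Helper48.NS

open Finset Pool.Agent.Helper69.RK Pool.Agent.Helper3.LF Pool.Agent.Helper31.EC Pool.Agent.Helper40.EL
open Pool.Agent.Helper89.LX (sum_push pb_push)

noncomputable section

/-- on the classes of `A` the function `Fv` is a polynomial of degree `d` in `t` up to the factor `κ` -/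
def LP (F : FSp) {X : Type} (A : Setoid F.Ω) (t : F.Ω → ℝ) (Fv : F.Ω → X → ℝ) (κ W : ℝ) (d : ℕ) : Prop :=
  ∀ ω c, F.μ ω ≠ 0 → ∃ g : Polynomial ℝ, g.natDegree ≤ d ∧ ∀ ω', F.μ ω' ≠ 0 → A ω ω' → F.Z ω ω' →
    |t ω' - t ω| ≤ W ∧ Fv ω' c ≤ κ * |g.eval (t ω')| ∧ |g.eval (t ω')| ≤ κ * Fv ω' c

/-- the partition by the cells of the time -/
def tker {F : FSp} (t : F.Ω → ℝ) (δ : ℝ) : Setoid F.Ω := Setoid.ker (fun ω => ⌊t ω / δ⌋)

namespace CL

variable {F : FSp} {X : Type} (x : CL F X)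

/-- entropy of the time given the label and the line -/
theorem ent_t (A : Setoid F.Ω) (t : F.Ω → ℝ) (δ : ℝ) : F.e (tker t δ) (A ⊓ F.Z) - x.l.leak (fc A) ≤
    CH x.l.T.μ (fun w => ⌊t (x.l.p.π w) / δ⌋) (Quotient.mk (x.l.V ⊓ Setoid.comap x.l.p.π A ⊓ x.l.T.Z)) := by
  have h1 : CH x.l.T.μ (fun w => ⌊t (x.l.p.π w) / δ⌋) (Quotient.mk (x.l.V ⊓ Setoid.comap x.l.p.π A ⊓ x.l.T.Z)) =
      x.l.T.e (Setoid.comap x.l.p.π (tker t δ)) (x.l.V ⊓ Setoid.comap x.l.p.π A ⊓ x.l.T.Z) := by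
    symm
    apply x.l.T.e_congr
    · intro ω ω' _ _
      exact Iff.rfl
    · intro ω ω' _ _
      exact Quotient.eq.symm
  have h2 : x.l.T.e (Setoid.comap x.l.p.π (tker t δ)) (x.l.V ⊓ Setoid.comap x.l.p.π A ⊓ x.l.T.Z) =
      h (x.l.p.map (fc (tker t δ))) (x.l.v ⊔ x.l.p.map (fc A)) := by
    rw [x.l.p.map_fc, x.l.p.map_fc]
    have : x.l.v ⊔ fc (Setoid.comap x.l.p.π A) = fc (x.l.V ⊓ Setoid.comap x.l.p.π A) := rfl
    rw [this, h_fc]
  have h3 := I_eq' x.l.v (x.l.p.map (fc (tker t δ))) (x.l.p.map (fc A))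
  have h4 : I x.l.v (x.l.p.map (fc (tker t δ))) (x.l.p.map (fc A)) ≤ x.l.leak (fc A) :=
    I_mono_right ((x.l.p.map_le_top _).trans le_sup_left)
  rw [x.l.p.h_map, h_fc] at h3
  rw [h1, h2]
  linarith

theorem T_ne : Nonempty x.l.T.Ω := by
  by_contra h
  rw [not_nonempty_iff] at h
  have h1 : mass x.l.T.μ = 1 := x.l.T.ms
  unfold mass at h1
  rw [Finset.univ_eq_empty, Finset.sum_empty] at h1
  exact zero_ne_one h1

/-- resampling given the line -/
theorem step_A (A : Setoid F.Ω) (t : F.Ω → ℝ) (Fv : F.Ω → X → ℝ) (κ W δ D : ℝ) (d : ℕ) (hd : 0 < d) (hD : 0 ≤ D)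
    (hκ : 1 ≤ κ) (hδ : 0 < δ) (hW : δ ≤ W) (hcap : (2 : ℝ) ^ (2 * D * F.n / d) ≤ W / δ)
    (hLP : LP F A t Fv κ W d) :
    x.E (fun ω c => ex F.n D (Fv ω c)) -
      (d / (2 * F.n)) * (Real.logb 2 (F.n * D + 1) + Real.logb 2 (12 * (d + 1) * (W / δ)) -
        F.e (tker t δ) (A ⊓ F.Z) + x.l.leak (fc A)) - (Real.logb 2 ((d + 1) * κ ^ 2) / 2 + 2) / F.n ≤
    (x.rs (fc A)).E (fun ω c => ex F.n D (Fv ω c)) := by
  classical
  have hn := F.pos
  set n := F.n with hnn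
  have hd' : (0 : ℝ) < d := Nat.cast_pos.2 hd
  have hκ0 : 0 < κ := by linarith
  obtain ⟨w₀⟩ := x.T_ne
  set Bq : Setoid x.l.T.Ω := x.l.V ⊓ Setoid.comap x.l.p.π A ⊓ x.l.T.Z with hBq
  -- representatives
  have hρ : ∀ b : Quotient Bq, ∃ w0 : x.l.T.Ω, ∀ w, x.l.T.μ w ≠ 0 → Quotient.mk Bq w = b →
      x.l.T.μ w0 ≠ 0 ∧ Quotient.mk Bq w0 = b := by
    intro b
    by_cases h : ∃ w, x.l.T.μ w ≠ 0 ∧ Quotient.mk Bq w = b
    · obtain ⟨w, h1, h2⟩ := h
      exact ⟨w, fun _ _ _ => ⟨h1, h2⟩⟩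
    · exact ⟨w₀, fun w h1 h2 => absurd ⟨w, h1, h2⟩ h⟩
  choose ρ hρ using hρ
  -- polynomials
  have hg : ∀ w0 : x.l.T.Ω, ∃ g : Polynomial ℝ, x.l.T.μ w0 ≠ 0 → (g.natDegree ≤ d ∧
      ∀ ω', F.μ ω' ≠ 0 → A (x.l.p.π w0) ω' → F.Z (x.l.p.π w0) ω' → |t ω' - t (x.l.p.π w0)| ≤ W ∧
        Fv ω' (x.c w0) ≤ κ * |g.eval (t ω')| ∧ |g.eval (t ω')| ≤ κ * Fv ω' (x.c w0)) := by
    intro w0
    by_cases h0 : x.l.T.μ w0 = 0
    · exact ⟨0, fun h => absurd h0 h⟩
    · obtain ⟨g, h1, h2⟩ := hLP (x.l.p.π w0) (x.c w0) (x.l.p.supp _ h0)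
      exact ⟨g, fun _ => ⟨h1, h2⟩⟩
  choose g hg using hg
  -- maximum over the window of the representative
  have hmax : ∀ w : x.l.T.Ω, ∃ s, |s - t (x.l.p.π w)| ≤ W ∧ ∀ s', |s' - t (x.l.p.π w)| ≤ W →
      |(g w).eval s'| ≤ |(g w).eval s| := by
    intro w
    have hne : (Set.Icc (t (x.l.p.π w) - W) (t (x.l.p.π w) + W)).Nonempty :=
      ⟨t (x.l.p.π w), by constructor <;> linarith⟩
    obtain ⟨s, hs, hs2⟩ := isCompact_Icc.exists_isMaxOn hne
      ((g w).continuous.abs.continuousOn (s := Set.Icc (t (x.l.p.π w) - W) (t (x.l.p.π w) + W)))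
    refine ⟨s, ?_, fun s' hs' => ?_⟩
    · rw [abs_le]
      constructor <;> linarith [hs.1, hs.2]
    · rw [abs_le] at hs'
      exact hs2 ⟨by linarith [hs'.1], by linarith [hs'.2]⟩
  choose σ hσ1 hσ2 using hmax
  set r : x.l.T.Ω → x.l.T.Ω := fun w => ρ (Quotient.mk Bq w) with hr
  have hr1 : ∀ w, x.l.T.μ w ≠ 0 → x.l.T.μ (r w) ≠ 0 ∧ x.l.V (r w) w ∧ A (x.l.p.π (r w)) (x.l.p.π w) ∧
      F.Z (x.l.p.π (r w)) (x.l.p.π w) ∧ x.c (r w) = x.c w := by
    intro w hw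
    obtain ⟨h1, h2⟩ := hρ (Quotient.mk Bq w) w hw rfl
    have h3 : Bq (r w) w := Quotient.exact h2
    refine ⟨h1, h3.1.1, h3.1.2, (x.l.p.hZ _ _ h1 hw).mp h3.2, x.meas _ _ h1 hw h3.1.1 h3.2⟩
  set M : x.l.T.Ω → ℝ := fun w => |(g (r w)).eval (σ (r w))| with hM
  set c0 : ℝ := Real.logb 2 ((d + 1) * κ ^ 2) / 2 + 1 with hc0
  set J : x.l.T.Ω → ℕ := fun w =>
    ⌊n * (ex n D (Fv (x.l.p.π w) (x.c w)) - ex n D (κ * M w)) - c0⌋₊ with hJ
  have hdk : 1 ≤ ((d : ℝ) + 1) * κ ^ 2 := by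
    have : 1 ≤ κ ^ 2 := one_le_pow₀ hκ
    nlinarith
  have hc0' : 1 ≤ c0 := by
    have := Real.logb_nonneg (b := 2) (by norm_num) hdk
    rw [hc0]
    linarith
  set η : ℝ := (2 : ℝ) ^ (-(2 / (d : ℝ))) with hη
  have hη0 : 0 < η := by positivity
  have hη1 : η ≤ 1 := by
    apply Real.rpow_le_one_of_one_le_of_nonpos (by norm_num)
    have : 0 < 2 / (d : ℝ) := by positivity
    linarith
  have hηl : Real.logb 2 (1 / η) = 2 / d := by
    rw [one_div, Real.logb_inv, hη, Real.logb_rpow (by norm_num) (by norm_num), neg_neg]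
  have hWp : 0 < W := lt_of_lt_of_le hδ hW
  -- the level inequality
  have key := lev_mass x.l.T.μ (Quotient.mk Bq) (fun w => t (x.l.p.π w)) d ⌊n * D⌋₊ (fun w => g (r w))
    (fun w => σ (r w)) M J (2 * W) δ η x.l.T.nn x.l.T.ms hδ (by linarith) hη0 hη1
    (by
      have e1 : η ^ ⌊n * D⌋₊ = (2 : ℝ) ^ (-(2 / (d : ℝ)) * ⌊n * D⌋₊) := by
        rw [hη, ← Real.rpow_natCast, ← Real.rpow_mul (by norm_num)]
      have e2 : (⌊n * D⌋₊ : ℝ) ≤ n * D := Nat.floor_le (by positivity)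
      have e3 : (2 : ℝ) ^ (-(2 * D * n / d)) ≤ η ^ ⌊n * D⌋₊ := by
        rw [e1]
        apply Real.rpow_le_rpow_of_exponent_le (by norm_num)
        have e4 : 2 / (d : ℝ) * ⌊n * D⌋₊ ≤ 2 / (d : ℝ) * (n * D) := mul_le_mul_of_nonneg_left e2 (by positivity)
        have e5 : 2 / (d : ℝ) * (n * D) = 2 * D * n / d := by ring
        linarith
      refine le_trans ?_ e3
      rw [Real.rpow_neg (by norm_num)]
      have e6 : δ / (2 * W) ≤ (W / δ)⁻¹ := by
        rw [inv_div]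
        exact div_le_div_of_nonneg_left hδ.le hWp (by linarith)
      exact e6.trans (inv_anti₀ (by positivity) hcap))
    (by
      intro ω ω' _ _ h
      simp only [hr, hM, h]
      exact ⟨trivial, trivial, trivial⟩)
    (by
      intro w hw
      exact (hg (r w) (hr1 w hw).1).1)
    (by
      intro w hw
      obtain ⟨h1, h2, h3, h4, h5⟩ := hr1 w hw
      have h6 := ((hg (r w) h1).2 _ (x.l.p.supp _ hw) h3 h4).1
      have h7 := hσ1 (r w)
      rw [abs_le] at h6 h7 ⊢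
      constructor <;> linarith [h6.1, h6.2, h7.1, h7.2])
    (fun w _ => le_rfl)
    (by
      intro w _
      apply Nat.floor_le_floor
      have h1 := ex_le (D := D) (F := Fv (x.l.p.π w) (x.c w)) hn
      have h2 := ex_nonneg (F := κ * M w) hn hD
      have h3 : n * (ex n D (Fv (x.l.p.π w) (x.c w)) - ex n D (κ * M w)) ≤ n * D :=
        mul_le_mul_of_nonneg_left (by linarith) hn.le
      linarith)
    (by
      intro w hw hJw
      obtain ⟨h1, h2, h3, h4, h5⟩ := hr1 w hw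
      obtain ⟨-, h6, h7⟩ := (hg (r w) h1).2 _ (x.l.p.supp _ hw) h3 h4
      rw [h5] at h6 h7
      have e1 : (J w : ℝ) ≤ n * (ex n D (Fv (x.l.p.π w) (x.c w)) - ex n D (κ * M w)) - c0 := by
        have e0 := Nat.floor_pos.1 (Nat.pos_of_ne_zero hJw)
        exact Nat.floor_le (by linarith)
      have e2 : ex n D (κ * M w) + ((J w : ℝ) + c0) / n ≤ ex n D (Fv (x.l.p.π w) (x.c w)) := by
        rw [← le_sub_iff_add_le', div_le_iff₀ hn]
        linarith
      obtain ⟨e3, e4⟩ := ex_gap hn (by positivity) e2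
      have e5 : 2 * n * (((J w : ℝ) + c0) / n) = 2 * (J w : ℝ) + 2 * c0 := by
        field_simp
      rw [e5] at e3
      have e6 : (2 : ℝ) ^ (-(2 * (J w : ℝ) + 2 * c0)) = (η ^ J w) ^ d * (1 / (4 * ((d + 1) * κ ^ 2))) := by
        have a1 : (η ^ J w) ^ d = (2 : ℝ) ^ (-(2 * (J w : ℝ))) := by
          rw [hη, ← pow_mul, ← Real.rpow_natCast, ← Real.rpow_mul (by norm_num)]
          congr 1
          push_cast
          field_simp
        have a2 : (2 : ℝ) ^ (-(2 * c0)) = 1 / (4 * ((d + 1) * κ ^ 2)) := by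
          have a3 : -(2 * c0) = -(Real.logb 2 ((d + 1) * κ ^ 2)) + (-2) := by rw [hc0]; ring
          rw [a3, Real.rpow_add (by norm_num), Real.rpow_neg (by norm_num),
            Real.rpow_logb (by norm_num) (by norm_num) (by linarith)]
          have a4 : (2 : ℝ) ^ (-2 : ℝ) = 1 / 4 := by
            rw [Real.rpow_neg (by norm_num)]
            norm_num
          rw [a4]
          field_simp
        rw [neg_add, Real.rpow_add (by norm_num), a1, a2]
      have hMp : 0 < M w := by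
        by_contra hc
        have : κ * M w ≤ 0 := mul_nonpos_of_nonneg_of_nonpos hκ0.le (not_lt.1 hc)
        linarith
      rw [e6] at e3
      have e7 : 0 < (η ^ J w) ^ d * M w := by positivity
      calc ((d : ℝ) + 1) * |(g (r w)).eval (t (x.l.p.π w))|
          ≤ (d + 1) * (κ * Fv (x.l.p.π w) (x.c w)) := mul_le_mul_of_nonneg_left h7 (by positivity)
        _ ≤ (d + 1) * (κ * ((η ^ J w) ^ d * (1 / (4 * ((d + 1) * κ ^ 2))) * (κ * M w))) :=
            mul_le_mul_of_nonneg_left (mul_le_mul_of_nonneg_left e3 hκ0.le) (by positivity)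
        _ = (η ^ J w) ^ d * M w / 4 := by
            field_simp
        _ < (η ^ J w) ^ d * M w := by linarith)
  rw [hηl] at key
  -- entropy
  have hent := x.ent_t A t δ
  -- lower bound for the resampled label
  have hlow := x.rs_ge (fc A) (fun ω c => ex n D (Fv ω c)) (fun w => ex n D (κ * M w)) (by
    intro w hw
    obtain ⟨h1, h2, h3, h4⟩ := x.rs_supp_fc A w hw
    obtain ⟨a1, a2, a3, a4, a5⟩ := hr1 w.1 h1
    obtain ⟨b1, b2, -⟩ := (hg (r w.1) a1).2 w.2 h2 (A.trans a3 h3) (F.Z.trans a4 h4)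
    rw [a5] at b2
    apply ex_anti hn
    exact b2.trans (mul_le_mul_of_nonneg_left (hσ2 (r w.1) _ b1) hκ0.le))
  -- comparison of the mean values
  have hmean : n * x.E (fun ω c => ex n D (Fv ω c)) - n * (∑ ω, x.l.T.μ ω * ex n D (κ * M ω)) - c0 - 1 ≤
      ∑ ω, x.l.T.μ ω * J ω := by
    have e1 : n * x.E (fun ω c => ex n D (Fv ω c)) - n * (∑ ω, x.l.T.μ ω * ex n D (κ * M ω)) - c0 - 1 =
        ∑ ω, x.l.T.μ ω * (n * (ex n D (Fv (x.l.p.π ω) (x.c ω)) - ex n D (κ * M ω)) - c0 - 1) := by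
      have a1 : ∑ ω, x.l.T.μ ω * (c0 + 1) = c0 + 1 := by
        rw [← Finset.sum_mul, x.T_mass, one_mul]
      unfold E
      rw [Finset.mul_sum, Finset.mul_sum]
      calc _ = (∑ i, n * (x.l.T.μ i * ex n D (Fv (x.l.p.π i) (x.c i)))) -
            (∑ i, n * (x.l.T.μ i * ex n D (κ * M i))) - ∑ ω, x.l.T.μ ω * (c0 + 1) := by rw [a1]; ring
        _ = _ := by
            rw [← Finset.sum_sub_distrib, ← Finset.sum_sub_distrib]
            exact Finset.sum_congr rfl fun ω _ => by ring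
    rw [e1]
    refine Finset.sum_le_sum fun ω _ => mul_le_mul_of_nonneg_left ?_ (x.l.T.nn ω)
    have := Nat.lt_floor_add_one (n * (ex n D (Fv (x.l.p.π ω) (x.c ω)) - ex n D (κ * M ω)) - c0)
    simp only [hJ]
    linarith
  have hlogN : Real.logb 2 (⌊n * D⌋₊ + 1) ≤ Real.logb 2 (n * D + 1) := by
    apply Real.logb_le_logb_of_le (by norm_num) (by positivity)
    have : (⌊n * D⌋₊ : ℝ) ≤ n * D := Nat.floor_le (by positivity)
    linarith
  have e12 : 6 * ((d : ℝ) + 1) * (2 * W / δ) = 12 * (d + 1) * (W / δ) := by ring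
  rw [e12] at key
  -- assembly
  set Sg := ∑ ω, x.l.T.μ ω * (J ω : ℝ) with hSg
  set Q := Real.logb 2 (n * D + 1) + Real.logb 2 (12 * (d + 1) * (W / δ)) - F.e (tker t δ) (A ⊓ F.Z) +
    x.l.leak (fc A) with hQ
  have f1 : Sg * (2 / d) ≤ Q := by
    rw [hQ]
    linarith
  have f2 : Sg ≤ d / 2 * Q := by
    have : Sg = Sg * (2 / d) * (d / 2) := by field_simp
    rw [this, mul_comm]
    exact mul_le_mul_of_nonneg_left f1 (by positivity)
  have f3 : n * x.E (fun ω c => ex n D (Fv ω c)) - d / 2 * Q - (c0 + 1) ≤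
      n * (x.rs (fc A)).E (fun ω c => ex n D (Fv ω c)) := by
    have := mul_le_mul_of_nonneg_left hlow hn.le
    linarith
  have f4 : c0 + 1 = Real.logb 2 ((d + 1) * κ ^ 2) / 2 + 2 := by rw [hc0]; ring
  rw [← f4]
  have f5 : x.E (fun ω c => ex n D (Fv ω c)) - d / (2 * n) * Q - (c0 + 1) / n =
      (n * x.E (fun ω c => ex n D (Fv ω c)) - d / 2 * Q - (c0 + 1)) / n := by
    field_simp
  rw [f5, div_le_iff₀ hn, mul_comm _ n]
  exact f3

end CL

end

end Pool.Agent.Helper48.NS
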