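import Pool.Agent.Helper3.LF.PhiRem

/-! The regular volume of a form: `J r A p` = the (averaged) Gram matrix of the gradients (in the last `m` variables)
of the rows of `A` on the cell with corner `p` and side `r`; `G = det (1 + J)`. -/

set_option autoImplicit false

namespace Pool.Agent.Helper48.NS

open MvPolynomial Matrix Pool.Agent.Helper95.LF Pool.Agent.Helper3.LF

variable {m D : ℕ}

/-- derivatives of the monomials with respect to the last `m` variables -/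
noncomputable def Wd (m D : ℕ) (p : Fin (m + 1) → ℝ) : Matrix (Mon (m + 1) D) (Fin m) ℝ :=
  Matrix.of fun μ a => dd a.succ p μ

/-- the Gram matrix of the gradients -/
noncomputable def Jf (r : ℝ) (A : Matrix (Mon (m + 1) D) (Mon (m + 1) D) ℝ) (p : Fin (m + 1) → ℝ) :
    Matrix (Fin m) (Fin m) ℝ :=
  ∑ j : Fin (m + 1) → Fin (D + 1), (Wd m D (nodp D p r j)).transpose * A * Wd m D (nodp D p r j)

/-- `det (1 + J)` -/
noncomputable def GG (r : ℝ) (A : Matrix (Mon (m + 1) D) (Mon (m + 1) D) ℝ) (p : Fin (m + 1) → ℝ) : ℝ :=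
  (1 + Jf r A p).det

theorem W_apply (A : Matrix (Mon (m + 1) D) (Mon (m + 1) D) ℝ) (q : Fin (m + 1) → ℝ) (a b : Fin m) :
    ((Wd m D q).transpose * A * Wd m D q) a b = dd a.succ q ⬝ᵥ (A *ᵥ dd b.succ q) := by
  rw [Matrix.mul_assoc, Matrix.mul_apply]
  unfold dotProduct Matrix.mulVec dotProduct
  refine Finset.sum_congr rfl fun μ _ => ?_
  rw [Matrix.mul_apply]
  rfl

theorem Jf_apply (r : ℝ) (A : Matrix (Mon (m + 1) D) (Mon (m + 1) D) ℝ) (p : Fin (m + 1) → ℝ) (a b : Fin m) :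
    Jf r A p a b = ∑ j : Fin (m + 1) → Fin (D + 1),
      dd a.succ (nodp D p r j) ⬝ᵥ (A *ᵥ dd b.succ (nodp D p r j)) := by
  unfold Jf
  rw [Matrix.sum_apply]
  exact Finset.sum_congr rfl fun j _ => W_apply _ _ _ _

theorem dv_sum {ι κ : Type} [Fintype ι] [Fintype κ] (M : κ → Matrix ι ι ℝ) (x : ι → ℝ) :
    x ⬝ᵥ ((∑ k, M k) *ᵥ x) = ∑ k, x ⬝ᵥ (M k *ᵥ x) := by
  classical
  have h : ∀ s : Finset κ, x ⬝ᵥ ((∑ k ∈ s, M k) *ᵥ x) = ∑ k ∈ s, x ⬝ᵥ (M k *ᵥ x) := by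
    intro s
    induction s using Finset.induction_on with
    | empty => simp
    | insert k s hk ih => rw [Finset.sum_insert hk, Finset.sum_insert hk, dv_add, ih]
  exact h _

theorem Jf_qf (r : ℝ) (A : Matrix (Mon (m + 1) D) (Mon (m + 1) D) ℝ) (p : Fin (m + 1) → ℝ) (e : Fin m → ℝ) :
    e ⬝ᵥ (Jf r A p *ᵥ e) = ∑ j : Fin (m + 1) → Fin (D + 1),
      (Wd m D (nodp D p r j) *ᵥ e) ⬝ᵥ (A *ᵥ (Wd m D (nodp D p r j) *ᵥ e)) := by
  unfold Jf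
  rw [dv_sum]
  exact Finset.sum_congr rfl fun j _ => dv_conj _ _ _

theorem Jf_nonneg (r : ℝ) {A : Matrix (Mon (m + 1) D) (Mon (m + 1) D) ℝ}
    (hA : ∀ x, 0 ≤ x ⬝ᵥ (A *ᵥ x)) (p : Fin (m + 1) → ℝ) (e : Fin m → ℝ) : 0 ≤ e ⬝ᵥ (Jf r A p *ᵥ e) := by
  rw [Jf_qf]
  exact Finset.sum_nonneg fun j _ => hA _

theorem Jf_mono (r : ℝ) {A B : Matrix (Mon (m + 1) D) (Mon (m + 1) D) ℝ}
    (h : ∀ x, x ⬝ᵥ (A *ᵥ x) ≤ x ⬝ᵥ (B *ᵥ x)) (p : Fin (m + 1) → ℝ) (e : Fin m → ℝ) :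
    e ⬝ᵥ (Jf r A p *ᵥ e) ≤ e ⬝ᵥ (Jf r B p *ᵥ e) := by
  rw [Jf_qf, Jf_qf]
  exact Finset.sum_le_sum fun j _ => h _

theorem Jf_symm (r : ℝ) {A : Matrix (Mon (m + 1) D) (Mon (m + 1) D) ℝ} (hA : A.IsSymm)
    (p : Fin (m + 1) → ℝ) : (Jf r A p).IsSymm := by
  unfold Matrix.IsSymm Jf
  rw [Matrix.transpose_sum]
  refine Finset.sum_congr rfl fun j _ => ?_
  rw [Matrix.transpose_mul, Matrix.transpose_mul, Matrix.transpose_transpose, hA.eq, Matrix.mul_assoc]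

theorem one_symm : (1 : Matrix (Fin m) (Fin m) ℝ).IsSymm := Matrix.transpose_one

theorem one_dv (x : Fin m → ℝ) : x ⬝ᵥ ((1 : Matrix (Fin m) (Fin m) ℝ) *ᵥ x) = x ⬝ᵥ x := by
  rw [Matrix.one_mulVec]

theorem one_Jf_symm (r : ℝ) {A : Matrix (Mon (m + 1) D) (Mon (m + 1) D) ℝ} (hA : A.IsSymm)
    (p : Fin (m + 1) → ℝ) : (1 + Jf r A p).IsSymm := one_symm.add (Jf_symm r hA p)

theorem one_Jf_ge (r : ℝ) {A : Matrix (Mon (m + 1) D) (Mon (m + 1) D) ℝ}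
    (hA : ∀ x, 0 ≤ x ⬝ᵥ (A *ᵥ x)) (p : Fin (m + 1) → ℝ) (x : Fin m → ℝ) :
    x ⬝ᵥ x ≤ x ⬝ᵥ ((1 + Jf r A p) *ᵥ x) := by
  rw [dv_add, one_dv]
  have := Jf_nonneg r hA p x
  linarith

theorem one_Jf_pd (r : ℝ) {A : Matrix (Mon (m + 1) D) (Mon (m + 1) D) ℝ} (hs : A.IsSymm)
    (hA : ∀ x, 0 ≤ x ⬝ᵥ (A *ᵥ x)) (p : Fin (m + 1) → ℝ) : PdM (1 + Jf r A p) :=
  ⟨one_Jf_symm r hs p, fun x hx => (self_pos hx).trans_le (one_Jf_ge r hA p x)⟩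

/-- lower bound -/
theorem one_le_GG (r : ℝ) {A : Matrix (Mon (m + 1) D) (Mon (m + 1) D) ℝ} (hs : A.IsSymm)
    (hA : ∀ x, 0 ≤ x ⬝ᵥ (A *ᵥ x)) (p : Fin (m + 1) → ℝ) : 1 ≤ GG r A p :=
  one_le_det (one_Jf_symm r hs p) (one_Jf_ge r hA p)

/-- monotone in the form -/
theorem GG_mono (r : ℝ) {A B : Matrix (Mon (m + 1) D) (Mon (m + 1) D) ℝ} (hs : A.IsSymm) (hs' : B.IsSymm)
    (hA : ∀ x, 0 ≤ x ⬝ᵥ (A *ᵥ x)) (h : ∀ x, x ⬝ᵥ (A *ᵥ x) ≤ x ⬝ᵥ (B *ᵥ x)) (p : Fin (m + 1) → ℝ) :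
    GG r A p ≤ GG r B p := by
  apply det_mono (one_Jf_pd r hs hA p) (one_Jf_symm r hs' p)
  intro x
  rw [dv_add, dv_add]
  have := Jf_mono r h p x
  linarith

/-- derivative in the direction `e` of the last variables -/
noncomputable def dir (e : Fin m → ℝ) (q : MvPolynomial (Fin (m + 1)) ℝ) : MvPolynomial (Fin (m + 1)) ℝ :=
  ∑ a, C (e a) * pderiv a.succ q

theorem dir_deg (e : Fin m → ℝ) (q : MvPolynomial (Fin (m + 1)) ℝ) (hq : q.totalDegree ≤ D) :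
    (dir e q).totalDegree ≤ D := by
  unfold dir
  refine totalDegree_finsetSum_le fun a _ => ?_
  refine (totalDegree_mul _ _).trans ?_
  rw [totalDegree_C, zero_add]
  exact pderiv_tdeg q hq _

theorem eval_dir (e : Fin m → ℝ) (c : Mon (m + 1) D → ℝ) (q : Fin (m + 1) → ℝ) :
    eval q (dir e (pol c)) = c ⬝ᵥ (Wd m D q *ᵥ e) := by
  unfold dir
  rw [map_sum, Matrix.dotProduct_mulVec]
  unfold dotProduct
  refine Finset.sum_congr rfl fun a _ => ?_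
  rw [map_mul, eval_C, eval_pderiv_pol, mul_comm]
  rfl

theorem Jf_rows (r : ℝ) (C : Matrix (Mon (m + 1) D) (Mon (m + 1) D) ℝ) (p : Fin (m + 1) → ℝ) (e : Fin m → ℝ) :
    e ⬝ᵥ (Jf r (C.transpose * C) p *ᵥ e) = ∑ k, ph D (dir e (pol (C k))) r p := by
  rw [Jf_qf]
  unfold ph
  rw [Finset.sum_comm (s := (Finset.univ : Finset (Mon (m + 1) D)))]
  refine Finset.sum_congr rfl fun j _ => ?_
  rw [qf_rows]
  exact Finset.sum_congr rfl fun k _ => by rw [eval_dir]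

/-- comparison of `J` at neighbouring cells -/
theorem Jf_comp (A : Matrix (Mon (m + 1) D) (Mon (m + 1) D) ℝ) (hA : PdM A) (r r' K : ℝ) (hr : 0 < r)
    (hr' : 0 ≤ r') (hK : 1 ≤ K) (p p' : Fin (m + 1) → ℝ) (hp : ∀ i, |p' i - p i| + r' ≤ K * r) (e : Fin m → ℝ) :
    e ⬝ᵥ (Jf r' A p' *ᵥ e) ≤ (nn (m + 1) D * (Cu D * Cm (m + 1) D * K ^ D) ^ 2) * (e ⬝ᵥ (Jf r A p *ᵥ e)) := by
  obtain ⟨C, hC, -⟩ := exists_factor A hA
  rw [hC, Jf_rows, Jf_rows, Finset.mul_sum]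
  exact Finset.sum_le_sum fun k _ => ph_comp _ (dir_deg e _ (pol_deg _)) r r' K hr hr' hK p p' hp

/-- the constant of the comparison of `J` -/
noncomputable def cJ (m D : ℕ) : ℝ := nn (m + 1) D * (Cu D * Cm (m + 1) D) ^ 2

theorem cJ_one (m D : ℕ) : 1 ≤ cJ m D :=
  one_le_mul_of_one_le_of_one_le (nn_one (m + 1) D)
    (one_le_pow₀ (one_le_mul_of_one_le_of_one_le (Cu_one D) (Cm_one (m + 1) D)))

theorem Jf_comp' (A : Matrix (Mon (m + 1) D) (Mon (m + 1) D) ℝ) (hA : PdM A) (r r' K : ℝ) (hr : 0 < r)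
    (hr' : 0 ≤ r') (hK : 1 ≤ K) (p p' : Fin (m + 1) → ℝ) (hp : ∀ i, |p' i - p i| + r' ≤ K * r) (e : Fin m → ℝ) :
    e ⬝ᵥ (Jf r' A p' *ᵥ e) ≤ (cJ m D * K ^ (2 * D)) * (e ⬝ᵥ (Jf r A p *ᵥ e)) := by
  have h := Jf_comp A hA r r' K hr hr' hK p p' hp e
  have e1 : nn (m + 1) D * (Cu D * Cm (m + 1) D * K ^ D) ^ 2 = cJ m D * K ^ (2 * D) := by
    unfold cJ
    rw [mul_pow (Cu D * Cm (m + 1) D) (K ^ D) 2, ← pow_mul, mul_comm D 2, mul_assoc]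
  rwa [e1] at h

theorem GG_le_of (r r' : ℝ) (A B : Matrix (Mon (m + 1) D) (Mon (m + 1) D) ℝ) (hA : A.IsSymm)
    (hA' : ∀ x, 0 ≤ x ⬝ᵥ (A *ᵥ x)) (hB : B.IsSymm) (hB' : ∀ x, 0 ≤ x ⬝ᵥ (B *ᵥ x)) (p p' : Fin (m + 1) → ℝ)
    (c : ℝ) (hc : 1 ≤ c) (h : ∀ e : Fin m → ℝ, e ⬝ᵥ (Jf r' B p' *ᵥ e) ≤ c * (e ⬝ᵥ (Jf r A p *ᵥ e))) :
    GG r' B p' ≤ c ^ m * GG r A p := by
  have h4 : ∀ x : Fin m → ℝ, x ⬝ᵥ ((1 + Jf r' B p') *ᵥ x) ≤ c * (x ⬝ᵥ ((1 + Jf r A p) *ᵥ x)) := by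
    intro x
    rw [dv_add, dv_add, one_dv, mul_add]
    have h6 := self_nonneg' x
    exact add_le_add (by nlinarith) (h x)
  have h5 := det_le_pow (one_Jf_pd r hA hA' p) (one_Jf_pd r' hB hB' p') (by linarith) h4
  rw [Fintype.card_fin] at h5
  exact h5

/-- comparison of `G` at neighbouring cells -/
theorem GG_comp (A : Matrix (Mon (m + 1) D) (Mon (m + 1) D) ℝ) (hA : PdM A) (r r' K : ℝ) (hr : 0 < r)
    (hr' : 0 ≤ r') (hK : 1 ≤ K) (p p' : Fin (m + 1) → ℝ) (hp : ∀ i, |p' i - p i| + r' ≤ K * r) :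
    GG r' A p' ≤ cJ m D ^ m * K ^ (2 * D * m) * GG r A p := by
  have h1 := GG_le_of r r' A A hA.1 hA.nonneg hA.1 hA.nonneg p p' (cJ m D * K ^ (2 * D))
    (one_le_mul_of_one_le_of_one_le (cJ_one m D) (one_le_pow₀ hK)) (Jf_comp' A hA r r' K hr hr' hK p p' hp)
  rwa [mul_pow, ← pow_mul] at h1

/-- upper bound of `J` by the gradient -/
theorem Jf_gam (r : ℝ) (A : Matrix (Mon (m + 1) D) (Mon (m + 1) D) ℝ) (hA : PdM A) (p : Fin (m + 1) → ℝ)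
    (e : Fin m → ℝ) : e ⬝ᵥ (Jf r A p *ᵥ e) ≤ gam r A p * (e ⬝ᵥ e) := by
  obtain ⟨C, hC, -⟩ := exists_factor A hA
  rw [hC, Jf_rows, gam_rows, Finset.sum_mul]
  refine Finset.sum_le_sum fun k _ => ?_
  unfold ga ph
  have h1 : ∀ j : Fin (m + 1) → Fin (D + 1), (eval (nodp D p r j) (dir e (pol (C k)))) ^ 2 ≤
      (∑ i, (eval (nodp D p r j) (pderiv i (pol (C k)))) ^ 2) * (e ⬝ᵥ e) := by
    intro j
    have e1 : eval (nodp D p r j) (dir e (pol (C k))) =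
        ∑ a, e a * eval (nodp D p r j) (pderiv a.succ (pol (C k))) := by
      unfold dir
      rw [map_sum]
      exact Finset.sum_congr rfl fun a _ => by rw [map_mul, eval_C]
    have e2 := Finset.sum_mul_sq_le_sq_mul_sq (Finset.univ : Finset (Fin m)) e
      (fun a => eval (nodp D p r j) (pderiv a.succ (pol (C k))))
    rw [e1]
    refine e2.trans ?_
    rw [mul_comm]
    have e3 : ∑ a, e a ^ 2 = e ⬝ᵥ e := Finset.sum_congr rfl fun a _ => by ring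
    rw [e3]
    refine mul_le_mul_of_nonneg_right ?_ (self_nonneg' e)
    rw [Fin.sum_univ_succ]
    have := sq_nonneg (eval (nodp D p r j) (pderiv 0 (pol (C k))))
    linarith
  refine (Finset.sum_le_sum fun j _ => h1 j).trans (le_of_eq ?_)
  rw [← Finset.sum_mul, Finset.sum_comm]

/-- upper bound -/
theorem GG_le_gam (r : ℝ) (A : Matrix (Mon (m + 1) D) (Mon (m + 1) D) ℝ) (hA : PdM A) (p : Fin (m + 1) → ℝ) :
    GG r A p ≤ (1 + gam r A p) ^ m := by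
  have h0 := gam_nonneg r hA.nonneg p
  have h1 := det_le_pow_one (one_Jf_pd r hA.1 hA.nonneg p) (K := 1 + gam r A p) (by linarith) (fun x => by
    rw [dv_add, one_dv, add_mul, one_mul]
    exact add_le_add le_rfl (Jf_gam r A hA p x))
  rwa [Fintype.card_fin] at h1

/-- the constant of the upper bound -/
noncomputable def cU (m D : ℕ) : ℝ := 1 + ((m + 1 : ℕ) : ℝ) * nn (m + 1) D * Cm (m + 1) D ^ 2

theorem cU_one (m D : ℕ) : 1 ≤ cU m D := by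
  have h1 := nn_one (m + 1) D
  have h2 := Cm_one (m + 1) D
  unfold cU
  have : 0 ≤ ((m + 1 : ℕ) : ℝ) * nn (m + 1) D * Cm (m + 1) D ^ 2 := by positivity
  linarith

/-- upper bound by the size -/
theorem GG_le_phi (r : ℝ) (hr : 0 < r) (hr1 : r ≤ 1) (A : Matrix (Mon (m + 1) D) (Mon (m + 1) D) ℝ) (hA : PdM A)
    (p : Fin (m + 1) → ℝ) (hφ : 1 ≤ phi r A p) : GG r A p ≤ (cU m D * ((r ^ 2)⁻¹ * phi r A p)) ^ m := by
  refine (GG_le_gam r A hA p).trans (pow_le_pow_left₀ (by have := gam_nonneg r hA.nonneg p; linarith) ?_ m)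
  have h1 := gam_le A hA r hr p
  have h2 : 0 < r ^ 2 := by positivity
  have h3 : r ^ 2 ≤ 1 := pow_le_one₀ hr.le hr1
  have h4 : 1 ≤ (r ^ 2)⁻¹ := (one_le_inv₀ h2).2 h3
  have h5 : gam r A p ≤ (r ^ 2)⁻¹ * (((m + 1 : ℕ) : ℝ) * nn (m + 1) D * Cm (m + 1) D ^ 2 * phi r A p) := by
    rw [inv_mul_eq_div, le_div_iff₀ h2, mul_comm]
    exact h1
  have h6 : 1 ≤ (r ^ 2)⁻¹ * phi r A p := one_le_mul_of_one_le_of_one_le h4 hφ
  unfold cU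
  calc 1 + gam r A p ≤ (r ^ 2)⁻¹ * phi r A p +
        (r ^ 2)⁻¹ * (((m + 1 : ℕ) : ℝ) * nn (m + 1) D * Cm (m + 1) D ^ 2 * phi r A p) := add_le_add h6 h5
    _ = _ := by ring

end Pool.Agent.Helper48.NS
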