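import Pool.Agent.Helper48.NS.Gp

/-! `G` in the exact calculus: Remez inequality, comparison of forms up to factors. -/

set_option autoImplicit false

namespace Pool.Agent.Helper48.NS

open Finset Filter Topology Pool.Agent.Helper69.RK Pool.Agent.Helper31.EC Matrix Pool.Agent.Helper95.LF
open Pool.Agent.Helper3.LF

noncomputable section

variable {m D : ℕ}

/-- forms comparable up to a factor -/
theorem GG_scale (r : ℝ) (A B : Matrix (Mon (m + 1) D) (Mon (m + 1) D) ℝ) (hA : A.IsSymm)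
    (hA' : ∀ x, 0 ≤ x ⬝ᵥ (A *ᵥ x)) (hB : B.IsSymm) (hB' : ∀ x, 0 ≤ x ⬝ᵥ (B *ᵥ x)) (p : Fin (m + 1) → ℝ)
    (c : ℝ) (hc : 1 ≤ c) (h : ∀ x, x ⬝ᵥ (B *ᵥ x) ≤ c * (x ⬝ᵥ (A *ᵥ x))) :
    GG r B p ≤ c ^ m * GG r A p := by
  refine GG_le_of r r A B hA hA' hB hB' p p c hc fun e => ?_
  rw [Jf_qf, Jf_qf, Finset.mul_sum]
  exact Finset.sum_le_sum fun j _ => h _

/-- comparison of cells and of forms at the same time -/
theorem GG_comp' (A B : Matrix (Mon (m + 1) D) (Mon (m + 1) D) ℝ) (hA : PdM A) (hB : PdM B) (r r' K c : ℝ)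
    (hr : 0 < r) (hr' : 0 ≤ r') (hK : 1 ≤ K) (hc : 1 ≤ c) (p p' : Fin (m + 1) → ℝ)
    (hp : ∀ i, |p' i - p i| + r' ≤ K * r) (h : ∀ x, x ⬝ᵥ (B *ᵥ x) ≤ c * (x ⬝ᵥ (A *ᵥ x))) :
    GG r' B p' ≤ cJ m D ^ m * K ^ (2 * D * m) * c ^ m * GG r A p := by
  have h1 := GG_comp B hB r r' K hr hr' hK p p' hp
  have h2 := GG_scale r A B hA.1 hA.nonneg hB.1 hB.nonneg p c hc h
  have h3 : 0 ≤ cJ m D ^ m * K ^ (2 * D * m) := by
    have := cJ_one m D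
    positivity
  calc _ ≤ _ := h1
    _ ≤ cJ m D ^ m * K ^ (2 * D * m) * (c ^ m * GG r A p) := mul_le_mul_of_nonneg_left h2 h3
    _ = _ := by ring

variable {S : Sp}

/-- REMEZ for `G` along lines -/
theorem GG_rem (a x : S.VV m) (t : S.VV 1) (c l : ℝ) (hc : 0 ≤ c) (hcl : c < l)
    (B : ∀ k, Setoid (S.F k).Ω) (A : ∀ k, (S.F k).Ω → Matrix (Mon (m + 1) D) (Mon (m + 1) D) ℝ)
    (hA : ∀ᶠ k in UF, ∀ ω, (S.F k).μ ω ≠ 0 → PdM (A k ω)) (K : ℕ → ℝ) (hK : S.Sub K)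
    (hB : ∀ᶠ k in UF, ∀ ω ω', (S.F k).μ ω ≠ 0 → (S.F k).μ ω' ≠ 0 → B k ω' ω → (S.F k).Z ω' ω →
      A k ω' = A k ω ∧ (∀ i, |a.v k ω' i - a.v k ω i| ≤ K k * S.dl l k) ∧
      (∀ i, |x.v k ω' i - x.v k ω i| ≤ K k * S.dl l k) ∧ |t.v k ω' 0 - t.v k ω 0| ≤ K k * S.dl c k)
    (hent : l - c ≤ ul (S.rt (fun k => Setoid.ker (t.cellv l k)) B))
    (b : ℝ) (hb : 0 ≤ b) (L : ℕ → ℝ) (hL : S.Sub L) :
    ∃ K' : ℕ → ℝ, S.Sub K' ∧ Sp.Typ (fun k ω => ∀ s, |s - t.v k ω 0| ≤ L k * S.dl (c - b) k →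
      GG (S.dl l k) (A k ω) (pl (a.v k ω) (x.v k ω) s) ≤ K' k * 2 ^ ((2 * m * D : ℕ) * b * (S.F k).n) *
        GG (S.dl l k) (A k ω) (pl (a.v k ω) (x.v k ω) (t.v k ω 0))) := by
  have h0 := cJ_one m D
  refine gen_rem (D' := 2 * m * D) GG (cJ m D ^ m) (2 * D * m) (by positivity)
    (fun r A p hA => zero_le_one.trans (one_le_GG r hA.1 hA.nonneg p)) (fun r A hA a x => GG_line r A hA a x) ?_
    a x t c l hc hcl B A hA K hK hB hent b hb L hL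
  intro A hA r K hr hK p p' hp
  exact GG_comp A hA r r K hr hr.le hK p p' hp

end

end Pool.Agent.Helper48.NS
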