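import Pool.Agent.Helper3.LF.Mono

/-! Polynomials in several variables which vanish to a high order at a point; kernel vectors; counting of monomials.
(DEGREE, L5, L6) -/

set_option autoImplicit false

namespace Pool.Agent.Helper48.NS

open MvPolynomial Pool.Agent.Helper3.LF

variable {m : ℕ}

/-- translation -/
noncomputable def trl (ξ : Fin m → ℝ) : MvPolynomial (Fin m) ℝ →ₐ[ℝ] MvPolynomial (Fin m) ℝ :=
  aeval (fun i => X i + C (ξ i))

/-- restriction to a line through the origin -/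
noncomputable def lno (d : Fin m → ℝ) : MvPolynomial (Fin m) ℝ →ₐ[ℝ] Polynomial ℝ :=
  aeval (fun i => Polynomial.C (d i) * Polynomial.X)

theorem lno_trl (ξ d : Fin m → ℝ) (q : MvPolynomial (Fin m) ℝ) : lno d (trl ξ q) = lin ξ d q := by
  have h : (lno d).comp (trl ξ) =
      aeval (fun k => Polynomial.C (ξ k) + Polynomial.C (d k) * Polynomial.X) := by
    apply MvPolynomial.algHom_ext
    intro i
    rw [AlgHom.comp_apply]
    unfold lno trl
    rw [aeval_X, map_add, aeval_X, aeval_X]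
    have h2 : aeval (fun i => Polynomial.C (d i) * (Polynomial.X : Polynomial ℝ)) (C (ξ i)) =
        Polynomial.C (ξ i) := by
      rw [aeval_C]
      rfl
    rw [h2, add_comm]
  have h2 := congrArg (fun f : MvPolynomial (Fin m) ℝ →ₐ[ℝ] Polynomial ℝ => f q) h
  exact h2

/-- jets of order at most `N` -/
noncomputable def jet (N : ℕ) (ξ : Fin m → ℝ) : MvPolynomial (Fin m) ℝ →ₗ[ℝ] (Mon m N → ℝ) where
  toFun q := fun β => coeff β.ex (trl ξ q)
  map_add' p q := by
    funext β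
    rw [map_add, coeff_add]
    rfl
  map_smul' a q := by
    funext β
    rw [map_smul, coeff_smul]
    rfl

theorem dvd_lno (N : ℕ) (d : Fin m → ℝ) (q : MvPolynomial (Fin m) ℝ)
    (h : ∀ β : Mon m N, coeff β.ex q = 0) : (Polynomial.X : Polynomial ℝ) ^ (N + 1) ∣ lno d q := by
  classical
  rw [q.as_sum, map_sum]
  apply Finset.dvd_sum
  intro s hs
  have h1 : N < s.sum (fun _ e => e) := by
    by_contra hle
    have hle' := not_lt.mp hle
    rw [Finsupp.sum_fintype _ _ (fun _ => rfl)] at hle'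
    have h4 : ∀ i, s i < N + 1 := fun i =>
      Nat.lt_succ_of_le ((Finset.single_le_sum (f := fun i => s i) (fun _ _ => Nat.zero_le _)
        (Finset.mem_univ i)).trans hle')
    have h5 := h ⟨fun i => ⟨s i, h4 i⟩, hle'⟩
    have h6 : Mon.ex (⟨fun i => ⟨s i, h4 i⟩, hle'⟩ : Mon m N) = s := by
      ext i
      rfl
    rw [h6] at h5
    exact (mem_support_iff.mp hs) h5
  unfold lno
  rw [aeval_monomial, Finsupp.prod_fintype _ _ (fun _ => pow_zero _)]
  apply Dvd.dvd.mul_left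
  have h2 : ∏ i, (Polynomial.C (d i) * (Polynomial.X : Polynomial ℝ)) ^ (s i) =
      (∏ i, (Polynomial.C (d i)) ^ (s i)) * Polynomial.X ^ (s.sum (fun _ e => e)) := by
    rw [Finsupp.sum_fintype _ _ (fun _ => rfl), ← Finset.prod_pow_eq_pow_sum, ← Finset.prod_mul_distrib]
    exact Finset.prod_congr rfl fun i _ => mul_pow _ _ _
  rw [h2]
  apply Dvd.dvd.mul_left
  exact pow_dvd_pow _ h1

/-- the constant -/
noncomputable def Ct (m K N : ℕ) : ℝ := Cu K * 2 ^ N * (Cm m K * 2 ^ (m * K))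

theorem Ct_one (m K N : ℕ) : 1 ≤ Ct m K N := by
  unfold Ct
  have h1 := Cu_one K
  have h2 := Cm_one m K
  have h3 : (1 : ℝ) ≤ 2 ^ N := one_le_pow₀ (by norm_num)
  have h4 : (1 : ℝ) ≤ 2 ^ (m * K) := one_le_pow₀ (by norm_num)
  exact one_le_mul_of_one_le_of_one_le (one_le_mul_of_one_le_of_one_le h1 h3)
    (one_le_mul_of_one_le_of_one_le h2 h4)

/-- a polynomial which vanishes to order `N + 1` at `ξ` is small near `ξ` -/
theorem van (K N : ℕ) (q : MvPolynomial (Fin m) ℝ) (hq : q.totalDegree ≤ K) (ξ : Fin m → ℝ)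
    (hξ : ∀ i, 0 ≤ ξ i ∧ ξ i ≤ 1) (hj : ∀ β, jet N ξ q β = 0) (M : ℝ)
    (hM : ∀ y : Fin m → ℝ, (∀ i, 0 ≤ y i ∧ y i ≤ 1) → |eval y q| ≤ M) (ρ : ℝ) (hρ : 0 < ρ) (hρ1 : ρ ≤ 1)
    (y : Fin m → ℝ) (hy : ∀ i, |y i - ξ i| ≤ ρ) : |eval y q| ≤ Ct m K (N + 1) * M * ρ ^ (N + 1) := by
  set M' := Cm m K * 2 ^ (m * K) * M with hM'
  have hb : ∀ z : Fin m → ℝ, (∀ i, |z i| ≤ 2) → |eval z q| ≤ M' := by
    intro z hz
    have h1 := cell_val K q hq (fun _ => 0) 1 2 M one_pos (by norm_num) (fun j => by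
      apply hM
      intro i
      unfold nodp
      rw [zero_add, one_mul]
      exact ⟨nod_nonneg K _, nod_le K _ (Nat.le_of_lt_succ (j i).2)⟩) z (fun i => by
      rw [sub_zero, mul_one]
      exact hz i)
    exact h1
  set d : Fin m → ℝ := fun i => (y i - ξ i) / ρ with hd
  have hd1 : ∀ i, |d i| ≤ 1 := by
    intro i
    rw [hd]
    simp only [abs_div, abs_of_pos hρ]
    rw [div_le_one hρ]
    exact hy i
  have hdvd : (Polynomial.X : Polynomial ℝ) ^ (N + 1) ∣ lin ξ d q := by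
    rw [← lno_trl]
    exact dvd_lno N d _ hj
  obtain ⟨h, hh⟩ := hdvd
  have hdeg : (lin ξ d q).natDegree ≤ K := (natDegree_lin _ _ q).trans hq
  have hhdeg : h.natDegree ≤ K := by
    by_cases h0 : h = 0
    · rw [h0]; simp
    · have h1 : (lin ξ d q).natDegree = (N + 1) + h.natDegree := by
        rw [hh, Polynomial.natDegree_mul (pow_ne_zero _ Polynomial.X_ne_zero) h0, Polynomial.natDegree_X_pow]
      omega
  have hf : ∀ t : ℝ, 0 ≤ t → t ≤ 1 → |(lin ξ d q).eval t| ≤ M' := by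
    intro t ht0 ht1
    rw [eval_lin]
    apply hb
    intro i
    have h1 : |t * d i| ≤ 1 := by
      rw [abs_mul, abs_of_nonneg ht0]
      exact mul_le_one₀ ht1 (abs_nonneg _) (hd1 i)
    have h2 : |ξ i| ≤ 1 := by
      rw [abs_of_nonneg (hξ i).1]
      exact (hξ i).2
    have h3 := abs_add_le (ξ i) (t * d i)
    linarith
  have hM0 : 0 ≤ M' := (abs_nonneg _).trans (hf 0 le_rfl zero_le_one)
  have hh2 : ∀ t : ℝ, 1 / 2 ≤ t → t ≤ 1 → |h.eval t| ≤ 2 ^ (N + 1) * M' := by
    intro t ht0 ht1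
    have h1 := hf t (by linarith) ht1
    rw [hh, Polynomial.eval_mul, Polynomial.eval_pow, Polynomial.eval_X, abs_mul, abs_pow,
      abs_of_nonneg (by linarith : (0 : ℝ) ≤ t)] at h1
    have h2 : (1 : ℝ) ≤ 2 ^ (N + 1) * t ^ (N + 1) := by
      rw [← mul_pow]
      exact one_le_pow₀ (by linarith)
    have h3 := abs_nonneg (h.eval t)
    have h4 : (0 : ℝ) < 2 ^ (N + 1) := by positivity
    calc |h.eval t| ≤ (2 ^ (N + 1) * t ^ (N + 1)) * |h.eval t| := le_mul_of_one_le_left h3 h2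
      _ = 2 ^ (N + 1) * (t ^ (N + 1) * |h.eval t|) := by ring
      _ ≤ _ := mul_le_mul_of_nonneg_left h1 h4.le
  have hfin := uni_affine K h hhdeg 0 (1 / 2) (1 / 2) 1 ρ (2 ^ (N + 1) * M') (by norm_num) le_rfl (by
    rw [abs_le]
    constructor <;> linarith) (by
    intro j hj
    have h1 := nod_nonneg K j
    have h2 := nod_le K j hj
    apply hh2 <;> linarith)
  rw [pow_zero, one_mul, one_pow, mul_one, Function.iterate_zero, id] at hfin
  have e1 : eval y q = (lin ξ d q).eval ρ := by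
    rw [eval_lin]
    have e2 : (fun k => ξ k + ρ * d k) = y := by
      funext k
      rw [hd]
      field_simp
      ring
    rw [e2]
  rw [e1, hh, Polynomial.eval_mul, Polynomial.eval_pow, Polynomial.eval_X, abs_mul, abs_pow, abs_of_pos hρ]
  have h5 : (0 : ℝ) ≤ ρ ^ (N + 1) := by positivity
  refine (mul_le_mul_of_nonneg_left hfin h5).trans (le_of_eq ?_)
  rw [hM']
  unfold Ct
  ring

/-- more functions than conditions -/
theorem exists_ker {ι : Type} [Fintype ι] (N : ℕ) (hc : Fintype.card (Mon m N) < Fintype.card ι) (ξ : Fin m → ℝ)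
    (Q : ι → MvPolynomial (Fin m) ℝ) : ∃ c : ι → ℝ, c ≠ 0 ∧ ∀ β, jet N ξ (∑ a, c a • Q a) β = 0 := by
  set L : (ι → ℝ) →ₗ[ℝ] (Mon m N → ℝ) := (jet N ξ).comp (Fintype.linearCombination ℝ Q) with hL
  have h1 : Module.finrank ℝ (Mon m N → ℝ) < Module.finrank ℝ (ι → ℝ) := by
    rw [Module.finrank_fintype_fun_eq_card, Module.finrank_fintype_fun_eq_card]
    exact hc
  have h2 := LinearMap.ker_ne_bot_of_finrank_lt (f := L) h1
  obtain ⟨c, hc1, hc2⟩ := Submodule.exists_mem_ne_zero_of_ne_bot h2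
  refine ⟨c, hc2, fun β => ?_⟩
  have h3 : L c = 0 := hc1
  have h4 : L c = jet N ξ (∑ a, c a • Q a) := rfl
  rw [← h4, h3]
  rfl

/-- upper bound for the number of monomials -/
theorem card_mon_le (m K : ℕ) : Fintype.card (Mon m K) ≤ (K + 1) ^ m := by
  have h1 : Fintype.card (Mon m K) ≤ Fintype.card (Fin m → Fin (K + 1)) :=
    Fintype.card_le_of_injective (fun a => a.1) Subtype.val_injective
  rw [Fintype.card_fun, Fintype.card_fin, Fintype.card_fin] at h1
  exact h1

/-- lower bound for the number of monomials -/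
theorem card_mon_ge (M D : ℕ) : (D / M + 1) ^ M ≤ Fintype.card (Mon M D) := by
  have h0 : ∀ i : Fin (D / M + 1), (i : ℕ) < D + 1 := fun i => by
    have h1 := i.2
    have h2 : D / M ≤ D := Nat.div_le_self _ _
    omega
  have h1 : Fintype.card (Fin M → Fin (D / M + 1)) ≤ Fintype.card (Mon M D) := by
    refine Fintype.card_le_of_injective (fun f => ⟨fun i => ⟨(f i : ℕ), h0 _⟩, ?_⟩) ?_
    · have h2 : ∑ i : Fin M, (f i : ℕ) ≤ ∑ _i : Fin M, D / M :=
        Finset.sum_le_sum fun i _ => Nat.le_of_lt_succ (f i).2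
      rw [Finset.sum_const, Finset.card_univ, Fintype.card_fin, smul_eq_mul] at h2
      exact h2.trans (Nat.mul_div_le _ _)
    · intro f g hfg
      have h2 := congrArg Subtype.val hfg
      funext i
      have h3 := congrFun h2 i
      have h4 := congrArg Fin.val h3
      exact Fin.ext h4
  rw [Fintype.card_fun, Fintype.card_fin, Fintype.card_fin] at h1
  exact h1

/-- the numbers: forms of degree `D` in `m + 1` variables against jets of order `G D` in `m` variables -/
theorem card_mon_lt (m G D : ℕ) (h : (m + 1) * ((G + 1) * (m + 1)) ^ m ≤ D) :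
    Fintype.card (Mon m (G * D)) < Fintype.card (Mon (m + 1) D) := by
  set q := D / (m + 1) with hq
  have hP : 0 < ((G + 1) * (m + 1)) ^ m := by positivity
  have hD : 1 ≤ D := le_trans (Nat.succ_le_of_lt (Nat.mul_pos (Nat.succ_pos m) hP)) h
  have h1 : D < (m + 1) * (q + 1) := by
    have := Nat.lt_mul_div_succ D (Nat.succ_pos m)
    exact this
  have h2 : ((G + 1) * (m + 1)) ^ m < q + 1 := by
    have : (m + 1) * ((G + 1) * (m + 1)) ^ m < (m + 1) * (q + 1) := lt_of_le_of_lt h h1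
    exact Nat.lt_of_mul_lt_mul_left this
  have h3 : G * D + 1 ≤ ((G + 1) * (m + 1)) * (q + 1) := by
    calc G * D + 1 ≤ G * D + D := by omega
      _ = (G + 1) * D := by ring
      _ ≤ (G + 1) * ((m + 1) * (q + 1)) := Nat.mul_le_mul_left _ h1.le
      _ = _ := by ring
  calc Fintype.card (Mon m (G * D)) ≤ (G * D + 1) ^ m := card_mon_le m (G * D)
    _ ≤ (((G + 1) * (m + 1)) * (q + 1)) ^ m := Nat.pow_le_pow_left h3 m
    _ = ((G + 1) * (m + 1)) ^ m * (q + 1) ^ m := mul_pow _ _ _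
    _ < (q + 1) * (q + 1) ^ m := Nat.mul_lt_mul_of_pos_right h2 (by positivity)
    _ = (q + 1) ^ (m + 1) := by ring
    _ ≤ Fintype.card (Mon (m + 1) D) := card_mon_ge (m + 1) D

end Pool.Agent.Helper48.NS
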