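import Pool.Agent.Helper3.LF.Sub
import Pool.Agent.Helper48.NS.Dtay

/-! Polynomials in several variables which are small at many points of a grid are small on the cube (Remez inequality for
grids). (DEGREE 3.1) -/

set_option autoImplicit false

namespace Pool.Agent.Helper48.NS

open Finset Pool.Agent.Helper3.LF

/-- polynomial of degree at most `K` in every variable -/
def SPf (K : ℕ) {m : ℕ} (f : (Fin m → ℝ) → ℝ) : Prop :=
  ∀ i y, ∃ g : Polynomial ℝ, g.natDegree ≤ K ∧ ∀ t, f (Function.update y i t) = g.eval t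

theorem SPf_eval {K m : ℕ} (q : MvPolynomial (Fin m) ℝ) (hq : q.totalDegree ≤ K) :
    SPf K (fun y => MvPolynomial.eval y q) := by
  intro i y
  have hd : ((lne y i q).comp (Polynomial.X - Polynomial.C (y i))).natDegree ≤ K := by
    refine Polynomial.natDegree_comp_le.trans ?_
    rw [Polynomial.natDegree_X_sub_C, mul_one]
    exact (natDegree_lne y i q).trans hq
  refine ⟨_, hd, fun t => ?_⟩
  rw [Polynomial.eval_comp, Polynomial.eval_sub, Polynomial.eval_X, Polynomial.eval_C, eval_lne]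
  have e1 : y i + (t - y i) = t := by ring
  rw [e1]

/-- the constants -/
noncomputable def Ag (K : ℕ) : ℕ → ℝ
  | 0 => 1
  | m + 1 => (K + 1) * (2 * K * 2 ^ (m + 1)) ^ K * (4 ^ (m * K) * Ag K m)

theorem Ag_one (K : ℕ) (hK : 1 ≤ K) (m : ℕ) : 1 ≤ Ag K m := by
  have hK' : (1 : ℝ) ≤ K := by exact_mod_cast hK
  induction m with
  | zero => exact le_rfl
  | succ m ih =>
    unfold Ag
    have h1 : (1 : ℝ) ≤ K + 1 := by linarith
    have h2 : (1 : ℝ) ≤ 2 ^ (m + 1) := one_le_pow₀ (by norm_num)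
    have h3 : (1 : ℝ) ≤ (2 * K * 2 ^ (m + 1)) ^ K := one_le_pow₀ (by nlinarith)
    have h4 : (1 : ℝ) ≤ 4 ^ (m * K) := one_le_pow₀ (by norm_num)
    exact one_le_mul_of_one_le_of_one_le (one_le_mul_of_one_le_of_one_le h1 h3)
      (one_le_mul_of_one_le_of_one_le h4 ih)

/-- number of grid points in an interval -/
theorem card_Icc_le {δ : ℝ} (hδ : 0 < δ) (hδ1 : δ ≤ 1) : ((Finset.Icc (0 : ℤ) ⌊1 / δ⌋).card : ℝ) ≤ 2 / δ := by
  rw [Int.card_Icc, sub_zero]
  have h1 : (0 : ℤ) ≤ ⌊1 / δ⌋ := Int.floor_nonneg.mpr (by positivity)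
  have h2 : (((⌊1 / δ⌋ + 1).toNat : ℕ) : ℝ) = (⌊1 / δ⌋ : ℝ) + 1 := by
    have h3 : (((⌊1 / δ⌋ + 1).toNat : ℕ) : ℤ) = ⌊1 / δ⌋ + 1 := Int.toNat_of_nonneg (by omega)
    exact_mod_cast congrArg (fun z : ℤ => (z : ℝ)) h3
  rw [h2]
  have h4 := Int.floor_le (1 / δ)
  have h5 : 1 ≤ 1 / δ := by rw [le_div_iff₀ hδ]; linarith
  have h6 : 2 / δ = 1 / δ + 1 / δ := by ring
  linarith

theorem mem_Icc_of {δ : ℝ} (hδ : 0 < δ) {a : ℤ} (h0 : 0 ≤ δ * a) (h1 : δ * a ≤ 1) : a ∈ Finset.Icc (0 : ℤ) ⌊1 / δ⌋ := by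
  rw [Finset.mem_Icc]
  constructor
  · have : (0 : ℝ) ≤ a := nonneg_of_mul_nonneg_right h0 hδ
    exact_mod_cast this
  · rw [Int.le_floor, le_div_iff₀ hδ, mul_comm]
    exact h1

theorem card_grid_le {m : ℕ} {δ : ℝ} (hδ : 0 < δ) (hδ1 : δ ≤ 1) (G : Finset (Fin m → ℤ))
    (hG : ∀ u ∈ G, ∀ i, 0 ≤ δ * u i ∧ δ * u i ≤ 1) : (G.card : ℝ) ≤ (2 / δ) ^ m := by
  classical
  have h1 : G ⊆ Fintype.piFinset (fun _ : Fin m => Finset.Icc (0 : ℤ) ⌊1 / δ⌋) := by
    intro u hu
    rw [Fintype.mem_piFinset]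
    exact fun i => mem_Icc_of hδ (hG u hu i).1 (hG u hu i).2
  refine (Nat.cast_le.mpr (Finset.card_le_card h1)).trans ?_
  rw [Fintype.card_piFinset_const]
  push_cast
  exact pow_le_pow_left₀ (Nat.cast_nonneg _) (card_Icc_le hδ hδ1) _

open Classical in
/-- REMEZ INEQUALITY FOR GRIDS -/
theorem grid (K : ℕ) (hK : 1 ≤ K) (δ : ℝ) (hδ : 0 < δ) (hδ1 : δ ≤ 1) (H : ℝ) (hH0 : 0 ≤ H) (m : ℕ) :
    ∀ (f : (Fin m → ℝ) → ℝ), SPf K f → ∀ (θ : ℝ), 0 < θ → 12 * K * 4 ^ m * δ ≤ θ →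
      ∀ (G : Finset (Fin m → ℤ)), (∀ u ∈ G, ∀ i, 0 ≤ δ * u i ∧ δ * u i ≤ 1) → θ * (1 / δ) ^ m ≤ G.card →
        (∀ u ∈ G, |f (fun i => δ * u i)| ≤ H) → ∀ y : Fin m → ℝ, (∀ i, 0 ≤ y i ∧ y i ≤ 1) →
          |f y| ≤ Ag K m * (1 / θ) ^ (m * K) * H := by
  have hK' : (1 : ℝ) ≤ K := by exact_mod_cast hK
  induction m with
  | zero =>
    intro f _ θ hθ _ G _ hcard hfG y _
    rw [pow_zero, mul_one] at hcard
    have hne : G.Nonempty := by
      rw [← Finset.card_pos]
      have : (0 : ℝ) < G.card := lt_of_lt_of_le hθ hcard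
      exact_mod_cast this
    obtain ⟨u, hu⟩ := hne
    have h1 := hfG u hu
    have h2 : (fun i => δ * (u i : ℝ)) = y := by
      funext i
      exact Fin.elim0 i
    rw [h2] at h1
    unfold Ag
    rw [zero_mul, pow_zero, mul_one, one_mul]
    exact h1
  | succ m ih =>
    intro f hf θ hθ hsm G hG hcard hfG y hy
    set A : Finset ℤ := G.image (fun u => u 0) with hA
    set Sl : ℤ → Finset (Fin m → ℤ) := fun a => (G.filter (fun u => u 0 = a)).image Fin.tail with hSl
    have hSlc : ∀ a, ((G.filter (fun u => u 0 = a)).card : ℝ) = (Sl a).card := by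
      intro a
      rw [hSl]
      simp only
      rw [Finset.card_image_of_injOn]
      intro u hu v hv huv
      have hu0 := (Finset.mem_filter.mp hu).2
      have hv0 := (Finset.mem_filter.mp hv).2
      funext i
      refine Fin.cases ?_ (fun j => ?_) i
      · rw [hu0, hv0]
      · exact congrFun huv j
    have hSlm : ∀ a, ∀ u' ∈ Sl a, (Fin.cons a u' : Fin (m + 1) → ℤ) ∈ G := by
      intro a u' hu'
      obtain ⟨u, hu, hu2⟩ := Finset.mem_image.mp hu'
      have hu0 := Finset.mem_filter.mp hu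
      rw [← hu2, ← hu0.2, Fin.cons_self_tail]
      exact hu0.1
    have hSlG : ∀ a, ∀ u' ∈ Sl a, ∀ i, 0 ≤ δ * u' i ∧ δ * u' i ≤ 1 := by
      intro a u' hu' i
      have h1 := hG _ (hSlm a u' hu') i.succ
      rw [Fin.cons_succ] at h1
      exact h1
    have hsum : (G.card : ℝ) = ∑ a ∈ A, ((Sl a).card : ℝ) := by
      have h1 := Finset.card_eq_sum_card_image (fun u : Fin (m + 1) → ℤ => u 0) G
      rw [h1]
      push_cast
      exact Finset.sum_congr rfl fun a _ => hSlc a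
    set θ₁ := θ / 4 with hθ₁
    have hθ₁0 : 0 < θ₁ := by positivity
    set B : Finset ℤ := A.filter (fun a => θ₁ * (1 / δ) ^ m ≤ (Sl a).card) with hB
    have hAc : (A.card : ℝ) ≤ 2 / δ := by
      refine (Nat.cast_le.mpr (Finset.card_le_card (t := Finset.Icc (0 : ℤ) ⌊1 / δ⌋) ?_)).trans
        (card_Icc_le hδ hδ1)
      intro a ha
      obtain ⟨u, hu, rfl⟩ := Finset.mem_image.mp ha
      exact mem_Icc_of hδ (hG u hu 0).1 (hG u hu 0).2
    have hdp : (0 : ℝ) < (1 / δ) ^ m := by positivity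
    have hBc : θ / 2 ^ (m + 1) * (1 / δ) ≤ B.card := by
      have h1 : ∑ a ∈ A, ((Sl a).card : ℝ) ≤ B.card * (2 / δ) ^ m + (2 / δ) * (θ₁ * (1 / δ) ^ m) := by
        rw [← Finset.sum_filter_add_sum_filter_not A (fun a => θ₁ * (1 / δ) ^ m ≤ (Sl a).card)]
        apply add_le_add
        · refine (Finset.sum_le_card_nsmul _ _ ((2 / δ) ^ m) fun a _ => ?_).trans (le_of_eq (nsmul_eq_mul _ _))
          exact card_grid_le hδ hδ1 _ (hSlG a)
        · refine (Finset.sum_le_card_nsmul _ _ (θ₁ * (1 / δ) ^ m) fun a ha => ?_).trans ?_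
          · exact (not_le.mp (Finset.mem_filter.mp ha).2).le
          · rw [nsmul_eq_mul]
            apply mul_le_mul_of_nonneg_right _ (by positivity)
            exact (Nat.cast_le.mpr (Finset.card_filter_le _ _)).trans hAc
      rw [← hsum] at h1
      have h2 := hcard.trans h1
      have h3 : (2 / δ) ^ m = 2 ^ m * (1 / δ) ^ m := by
        rw [← mul_pow]
        congr 1
        ring
      have h4 : (1 / δ) ^ (m + 1) = (1 / δ) ^ m * (1 / δ) := pow_succ _ _
      rw [h3, h4] at h2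
      have h5 : θ * (1 / δ) ≤ B.card * 2 ^ m + (2 / δ) * θ₁ := by
        have e1 : (θ * (1 / δ)) * (1 / δ) ^ m ≤ (B.card * 2 ^ m + (2 / δ) * θ₁) * (1 / δ) ^ m := by
          calc (θ * (1 / δ)) * (1 / δ) ^ m = θ * ((1 / δ) ^ m * (1 / δ)) := by ring
            _ ≤ _ := h2
            _ = _ := by ring
        exact le_of_mul_le_mul_right e1 hdp
      have h6 : (2 / δ) * θ₁ = θ * (1 / δ) / 2 := by
        rw [hθ₁]
        ring
      rw [h6] at h5
      have h7 : θ * (1 / δ) / 2 ≤ B.card * 2 ^ m := by linarith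
      rw [pow_succ, div_mul_eq_mul_div, div_le_iff₀ (by positivity)]
      linarith
    -- bound on the slices
    have hsl : ∀ a ∈ B, ∀ y' : Fin m → ℝ, (∀ i, 0 ≤ y' i ∧ y' i ≤ 1) →
        |f (Fin.cons (δ * a) y')| ≤ Ag K m * (1 / θ₁) ^ (m * K) * H := by
      intro a ha y' hy'
      have ha' := Finset.mem_filter.mp ha
      refine ih (fun y' => f (Fin.cons (δ * a) y')) ?_ θ₁ hθ₁0 ?_ (Sl a) (hSlG a) ha'.2 ?_ y' hy'
      · intro i z
        obtain ⟨g, hg1, hg2⟩ := hf i.succ (Fin.cons (δ * a) z)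
        refine ⟨g, hg1, fun t => ?_⟩
        show f (Fin.cons (δ * a) (Function.update z i t)) = _
        rw [← hg2, Fin.cons_update]
      · rw [hθ₁]
        have : 12 * (K : ℝ) * 4 ^ (m + 1) * δ = 4 * (12 * K * 4 ^ m * δ) := by ring
        linarith
      · intro u' hu'
        have h1 := hfG _ (hSlm a u' hu')
        have h2 : (fun i => δ * ((Fin.cons a u' : Fin (m + 1) → ℤ) i : ℝ)) =
            (Fin.cons (δ * a) (fun i => δ * (u' i : ℝ)) : Fin (m + 1) → ℝ) := by
          funext i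
          refine Fin.cases ?_ (fun j => ?_) i
          · rfl
          · rfl
        rw [h2] at h1
        exact h1
    -- one variable
    obtain ⟨g, hg1, hg2⟩ := hf 0 (Fin.cons 0 (Fin.tail y))
    have hg3 : ∀ t, f (Fin.cons t (Fin.tail y)) = g.eval t := by
      intro t
      rw [← hg2 t, Fin.update_cons_zero]
    have hy2 : f y = g.eval (y 0) := by
      rw [← hg3 (y 0), Fin.cons_self_tail]
    set H₁ := Ag K m * (1 / θ₁) ^ (m * K) * H with hH₁
    have hH₁0 : 0 ≤ H₁ := by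
      have := Ag_one K hK m
      positivity
    set η := θ / (2 ^ (m + 1) * (2 * K)) with hη
    have hη0 : 0 < η := by positivity
    have hfin : |g.eval (y 0)| ≤ (K + 1) * H₁ / η ^ K := by
      by_contra hcon
      rw [not_le, div_lt_iff₀ (by positivity)] at hcon
      have h1 := sub_count K g hg1 (y 0) 1 δ |g.eval (y 0)| η one_pos hδ hη0 le_rfl B (by
        intro a ha
        have haA := (Finset.mem_filter.mp ha).1
        obtain ⟨u, hu, hu0⟩ := Finset.mem_image.mp haA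
        have hu1 := hG u hu 0
        have hu0' : u 0 = a := hu0
        rw [hu0'] at hu1
        refine ⟨δ * a, ?_, ?_, ?_⟩
        · rw [mul_div_assoc, mul_comm, div_mul_cancel₀ _ hδ.ne', Int.floor_intCast]
        · rw [abs_le]
          have := hy 0
          constructor <;> linarith
        · have h2 := hsl a ha (Fin.tail y) (fun i => hy i.succ)
          rw [hg3] at h2
          calc ((K : ℝ) + 1) * |g.eval (δ * a)| ≤ (K + 1) * H₁ :=
                mul_le_mul_of_nonneg_left h2 (by positivity)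
            _ < _ := by
                rw [mul_comm (η ^ K)]
                exact hcon)
      have h2 : (K : ℝ) * (η * 1 / δ + 3) = θ / 2 ^ (m + 1) * (1 / δ) / 2 + 3 * K := by
        rw [hη]
        field_simp
      rw [h2] at h1
      have h3 := hBc.trans h1
      have h4 : θ / 2 ^ (m + 1) * (1 / δ) ≤ 6 * K := by linarith
      rw [mul_one_div, div_le_iff₀ hδ, div_le_iff₀ (by positivity)] at h4
      have h5 : (2 : ℝ) ^ (m + 1) ≤ 4 ^ (m + 1) := pow_le_pow_left₀ (by norm_num) (by norm_num) _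
      have h6 : 0 < (K : ℝ) * δ := by positivity
      have h7 : (0 : ℝ) < 4 ^ (m + 1) := by positivity
      have h8 : 6 * (K : ℝ) * δ * 2 ^ (m + 1) ≤ 6 * (K * δ) * 4 ^ (m + 1) := by
        have : 6 * (K : ℝ) * δ * 2 ^ (m + 1) = 6 * (K * δ) * 2 ^ (m + 1) := by ring
        rw [this]
        exact mul_le_mul_of_nonneg_left h5 (by positivity)
      have h9 : 12 * (K : ℝ) * 4 ^ (m + 1) * δ = 12 * (K * δ) * 4 ^ (m + 1) := by ring
      rw [h9] at hsm
      nlinarith
    rw [hy2]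
    refine hfin.trans (le_of_eq ?_)
    have eA : Ag K (m + 1) = (K + 1) * (2 * K * 2 ^ (m + 1)) ^ K * (4 ^ (m * K) * Ag K m) := rfl
    rw [eA, hH₁, hη, hθ₁]
    have e1 : (1 : ℝ) / (θ / 4) = 4 * (1 / θ) := by field_simp
    have e2 : (m + 1) * K = m * K + K := by ring
    have e4 : (2 ^ (m + 1) * (2 * (K : ℝ))) ^ K = (2 * K * 2 ^ (m + 1)) ^ K := by
      congr 1
      ring
    rw [e1, e2, mul_pow 4 (1 / θ), pow_add (1 / θ) (m * K) K, div_pow θ, e4, one_div_pow θ K]
    generalize (1 / θ) ^ (m * K) = Y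
    generalize (2 * (K : ℝ) * 2 ^ (m + 1)) ^ K = Z
    generalize (4 : ℝ) ^ (m * K) = W
    have hθK : θ ^ K ≠ 0 := by positivity
    rw [div_div_eq_mul_div]
    field_simp

end Pool.Agent.Helper48.NS
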