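import Pool.Agent.Helper48.NS.Dpol
import Pool.Agent.Helper48.NS.Dgrid

/-! THEOREM DEGREE for full leaves: the bound of the leaf on the whole cube follows from the fullness of the coordinates
of the leaf at the resolution `E / (m D + 1)`. (DEGREE 3.1) -/

set_option autoImplicit false

namespace Pool.Agent.Helper48.NS

open Finset Filter Topology Matrix Pool.Agent.Helper69.RK Pool.Agent.Helper31.EC Pool.Agent.Helper40.EL
open Pool.Agent.Helper89.LX Pool.Agent.Helper3.LF Pool.Agent.Helper59.LF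
open Pool.Agent.Helper95.LF (PdM)

noncomputable section

section Pol

variable {m : ℕ}

theorem lip (K : ℕ) (q : MvPolynomial (Fin m) ℝ) (hq : q.totalDegree ≤ K) (ξ : Fin m → ℝ)
    (hξ : ∀ i, 0 ≤ ξ i ∧ ξ i ≤ 1) (M : ℝ)
    (hM : ∀ y : Fin m → ℝ, (∀ i, 0 ≤ y i ∧ y i ≤ 1) → |MvPolynomial.eval y q| ≤ M) (ρ : ℝ) (hρ : 0 < ρ) (hρ1 : ρ ≤ 1)
    (y : Fin m → ℝ) (hy : ∀ i, |y i - ξ i| ≤ ρ) :
    |MvPolynomial.eval y q - MvPolynomial.eval ξ q| ≤ Ct m K 1 * (2 * M) * ρ := by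
  have h1 := van K 0 (q - MvPolynomial.C (MvPolynomial.eval ξ q)) (by
    refine (MvPolynomial.totalDegree_sub _ _).trans ?_
    rw [MvPolynomial.totalDegree_C]
    exact max_le hq (Nat.zero_le _)) ξ hξ (by
    intro β
    have hβ : β.ex = 0 := by
      have h2 := β.ex_sum
      rw [Finsupp.sum_fintype _ _ (fun _ => rfl)] at h2
      ext i
      have h3 := (Finset.single_le_sum (f := fun i => β.ex i) (fun _ _ => Nat.zero_le _)
        (Finset.mem_univ i)).trans h2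
      simpa using h3
    show MvPolynomial.coeff β.ex (trl ξ _) = 0
    rw [hβ, ← MvPolynomial.constantCoeff_eq]
    have h4 : ∀ p : MvPolynomial (Fin m) ℝ, MvPolynomial.constantCoeff (trl ξ p) = MvPolynomial.eval ξ p := by
      intro p
      have h5 : (MvPolynomial.constantCoeff.comp ((trl ξ : MvPolynomial (Fin m) ℝ →ₐ[ℝ] _) :
          MvPolynomial (Fin m) ℝ →+* MvPolynomial (Fin m) ℝ)) = MvPolynomial.eval ξ := by
        apply MvPolynomial.ringHom_ext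
        · intro r
          rw [RingHom.comp_apply, MvPolynomial.eval_C]
          show MvPolynomial.constantCoeff (trl ξ (MvPolynomial.C r)) = r
          unfold trl
          rw [MvPolynomial.aeval_C]
          exact MvPolynomial.constantCoeff_C _ r
        · intro i
          rw [RingHom.comp_apply, MvPolynomial.eval_X]
          show MvPolynomial.constantCoeff (trl ξ (MvPolynomial.X i)) = ξ i
          unfold trl
          rw [MvPolynomial.aeval_X, map_add, MvPolynomial.constantCoeff_X, MvPolynomial.constantCoeff_C, zero_add]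
      exact congrArg (fun f : MvPolynomial (Fin m) ℝ →+* ℝ => f p) h5
    rw [h4, map_sub, MvPolynomial.eval_C, sub_self]) (2 * M) (by
    intro z hz
    rw [map_sub, MvPolynomial.eval_C]
    have a1 := hM z hz
    have a2 := hM ξ hξ
    have a3 := abs_sub (MvPolynomial.eval z q) (MvPolynomial.eval ξ q)
    linarith) ρ hρ hρ1 y hy
  rw [map_sub, MvPolynomial.eval_C, zero_add, pow_one] at h1
  exact h1

/-- a polynomial which is small at one point of each of many cells is small on the cube -/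
theorem cube_bound (K : ℕ) (hK : 1 ≤ K) (q : MvPolynomial (Fin m) ℝ) (hq : q.totalDegree ≤ K) (ρ θ H : ℝ) (hρ : 0 < ρ)
    (hρ1 : ρ ≤ 1) (hθ : 0 < θ) (hH : 0 ≤ H) (hsm : 12 * K * 4 ^ m * ρ ≤ θ)
    (hsm2 : Ag K m * (1 / θ) ^ (m * K) * (Ct m K 1 * 2 * ρ) ≤ 1 / 2) (G : Finset (Fin m → ℤ))
    (hG : ∀ u ∈ G, ∀ i, 0 ≤ ρ * u i ∧ ρ * u i ≤ 1) (hcard : θ * (1 / ρ) ^ m ≤ G.card)
    (hfG : ∀ u ∈ G, ∃ X : Fin m → ℝ, (∀ i, |X i - ρ * u i| ≤ ρ) ∧ |MvPolynomial.eval X q| ≤ H) :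
    ∀ y : Fin m → ℝ, (∀ i, 0 ≤ y i ∧ y i ≤ 1) →
      |MvPolynomial.eval y q| ≤ 2 * (Ag K m * (1 / θ) ^ (m * K)) * H := by
  have hne : (Set.Icc (0 : Fin m → ℝ) 1).Nonempty := ⟨0, le_rfl, zero_le_one⟩
  have hcont : ContinuousOn (fun y : Fin m → ℝ => |MvPolynomial.eval y q|) (Set.Icc 0 1) :=
    (continuous_abs.comp (MvPolynomial.continuous_eval q)).continuousOn
  obtain ⟨y₀, hy₀, hmax⟩ := isCompact_Icc.exists_isMaxOn hne hcont
  have hy₀' : ∀ i, 0 ≤ y₀ i ∧ y₀ i ≤ 1 := fun i => ⟨hy₀.1 i, hy₀.2 i⟩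
  set M := |MvPolynomial.eval y₀ q| with hM
  have hM0 : 0 ≤ M := abs_nonneg _
  have hall : ∀ y : Fin m → ℝ, (∀ i, 0 ≤ y i ∧ y i ≤ 1) → |MvPolynomial.eval y q| ≤ M := by
    intro y hy
    exact hmax ⟨fun i => (hy i).1, fun i => (hy i).2⟩
  have hΛ : 0 ≤ Ag K m * (1 / θ) ^ (m * K) := by
    have := Ag_one K hK m
    positivity
  have h1 := grid K hK ρ hρ hρ1 (H + Ct m K 1 * (2 * M) * ρ) (by
      have := Ct_one m K 1
      positivity) m (fun y => MvPolynomial.eval y q) (SPf_eval q hq) θ hθ hsm G hG hcard (by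
      intro u hu
      obtain ⟨X, hX1, hX2⟩ := hfG u hu
      have a1 := lip K q hq (fun i => ρ * u i) (hG u hu) M hall ρ hρ hρ1 X hX1
      have a2 := abs_sub_abs_le_abs_sub (MvPolynomial.eval (fun i => ρ * (u i : ℝ)) q) (MvPolynomial.eval X q)
      rw [abs_sub_comm (MvPolynomial.eval (fun i => ρ * (u i : ℝ)) q)] at a2
      show |MvPolynomial.eval (fun i => ρ * (u i : ℝ)) q| ≤ _
      linarith) y₀ hy₀'
  have h2 : M ≤ Ag K m * (1 / θ) ^ (m * K) * (H + Ct m K 1 * (2 * M) * ρ) := h1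
  have h3 : Ag K m * (1 / θ) ^ (m * K) * (H + Ct m K 1 * (2 * M) * ρ) =
      Ag K m * (1 / θ) ^ (m * K) * H + (Ag K m * (1 / θ) ^ (m * K) * (Ct m K 1 * 2 * ρ)) * M := by ring
  rw [h3] at h2
  have h4 : (Ag K m * (1 / θ) ^ (m * K) * (Ct m K 1 * 2 * ρ)) * M ≤ 1 / 2 * M := mul_le_mul_of_nonneg_right hsm2 hM0
  intro y hy
  refine (hall y hy).trans ?_
  linarith

/-- a form is bounded by its linear forms -/
theorem qf_le_of {ι : Type} [Fintype ι] {A : Matrix ι ι ℝ} (hA : A.IsSymm) (h0 : ∀ v, 0 ≤ qf A v) (v : ι → ℝ) (M : ℝ)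
    (h : ∀ c : ι → ℝ, (∀ w, (c ⬝ᵥ w) ^ 2 ≤ qf A w) → |c ⬝ᵥ v| ≤ M) : qf A v ≤ M ^ 2 := by
  rcases eq_or_lt_of_le (h0 v) with h1 | h1
  · rw [← h1]
    positivity
  · set q := qf A v with hq
    have hs : 0 < Real.sqrt q := Real.sqrt_pos.mpr h1
    set a := (Real.sqrt q)⁻¹ with ha
    have ha2 : a ^ 2 * q = 1 := by
      rw [ha, inv_pow, Real.sq_sqrt h1.le, inv_mul_cancel₀ h1.ne']
    have e1 : qf A (a • v) = 1 := by
      unfold qf
      rw [Matrix.mulVec_smul, dotProduct_smul, smul_dotProduct, smul_eq_mul, smul_eq_mul, ← ha2, hq]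
      unfold qf
      ring
    have h2 := h (A *ᵥ (a • v)) (fun w => cs_one hA h0 _ e1 w)
    have e2 : (A *ᵥ (a • v)) ⬝ᵥ v = Real.sqrt q := by
      rw [dotProduct_comm, Matrix.mulVec_smul, dotProduct_smul, smul_eq_mul]
      have e3 : v ⬝ᵥ (A *ᵥ v) = q := rfl
      rw [e3, ha, inv_mul_eq_div, div_eq_iff hs.ne', Real.mul_self_sqrt h1.le]
    rw [e2, abs_of_pos hs] at h2
    calc q = Real.sqrt q ^ 2 := (Real.sq_sqrt h1.le).symm
      _ ≤ M ^ 2 := pow_le_pow_left₀ hs.le h2 2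

end Pol

open Classical in
/-- the values of a variable on the good part of a class -/
def vals {F : FSp} {α : Type} (U : F.Ω → α) (B : Setoid F.Ω) (E : F.Ω → Prop) (ω : F.Ω) : Finset α :=
  (univ.filter (fun ω' => F.μ ω' ≠ 0 ∧ B ω' ω ∧ E ω')).image U

theorem mem_vals {F : FSp} {α : Type} {U : F.Ω → α} {B : Setoid F.Ω} {E : F.Ω → Prop} {ω : F.Ω} {u : α} :
    u ∈ vals U B E ω ↔ ∃ ω', F.μ ω' ≠ 0 ∧ B ω' ω ∧ E ω' ∧ U ω' = u := by
  classical
  unfold vals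
  constructor
  · intro h
    obtain ⟨ω', hω', rfl⟩ := Finset.mem_image.mp h
    have h2 := (Finset.mem_filter.mp hω').2
    exact ⟨ω', h2.1, h2.2.1, h2.2.2, rfl⟩
  · rintro ⟨ω', h1, h2, h3, rfl⟩
    exact Finset.mem_image.mpr ⟨ω', Finset.mem_filter.mpr ⟨Finset.mem_univ _, h1, h2, h3⟩, rfl⟩

open Classical in
/-- few values on the good part of the classes cost entropy -/
theorem cells_pb {F : FSp} {α : Type} (U : F.Ω → α) (B : Setoid F.Ω) (E : F.Ω → Prop) (T : Finset α) (N₀ N₁ : ℝ)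
    (hT : (T.card : ℝ) ≤ N₀) (hU : ∀ ω, F.μ ω ≠ 0 → U ω ∈ T) :
    F.e (Setoid.ker U) B ≤ 1 + Real.logb 2 N₀ -
      F.pb (fun ω => E ω ∧ ((vals U B E ω).card : ℝ) < N₁) * (Real.logb 2 N₀ - Real.logb 2 N₁) := by
  set Sm : F.Ω → Prop := fun ω => E ω ∧ ((vals U B E ω).card : ℝ) < N₁ with hSm
  set J : F.Ω → Bool := fun ω => decide (Sm ω) with hJ
  have h1 := F.e_triangle (Setoid.ker U) (Setoid.ker J) B
  have h2 : F.e (Setoid.ker J) B ≤ 1 := by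
    have := e_card J B (Finset.univ : Finset Bool) 2 (by norm_num [Finset.card_univ]) (fun ω _ => Finset.mem_univ _)
    rwa [Real.logb_self_eq_one (by norm_num)] at this
  have h3 : F.e (Setoid.ker U) (Setoid.ker J ⊓ B) ≤
      ∑ ω, F.μ ω * Real.logb 2 (if Sm ω then N₁ else N₀) := by
    have h4 : F.e (Setoid.ker U) (Setoid.ker J ⊓ B) =
        CH F.μ U (Quotient.mk (Setoid.ker J ⊓ B)) := by
      apply F.e_congr
      · intro ω ω' _ _
        exact Iff.rfl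
      · intro ω ω' _ _
        exact Quotient.eq.symm
    rw [h4]
    apply st_E3.1 F.Ω _ _ F.μ U (Quotient.mk (Setoid.ker J ⊓ B)) _ F.nn
    intro ω hω
    by_cases hs : Sm ω
    · rw [if_pos hs]
      refine le_trans (Nat.cast_le.mpr (Finset.card_le_card (t := vals U B E ω) ?_)) hs.2.le
      intro q hq
      obtain ⟨ω', hω', rfl⟩ := e3_mem_image hq
      obtain ⟨-, a1, a2⟩ := mem_filt hω'
      have a3 : (Setoid.ker J ⊓ B) ω' ω := Quotient.exact a2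
      have a4 : J ω' = J ω := a3.1
      have a5 : Sm ω' := by
        rw [hJ] at a4
        simp only [decide_eq_decide] at a4
        exact a4.mpr hs
      exact Finset.mem_image.mpr ⟨ω', Finset.mem_filter.mpr ⟨Finset.mem_univ _, a1, a3.2, a5.1⟩, rfl⟩
    · rw [if_neg hs]
      refine le_trans (Nat.cast_le.mpr (Finset.card_le_card (t := T) ?_)) hT
      intro q hq
      obtain ⟨ω', hω', rfl⟩ := e3_mem_image hq
      exact hU ω' (mem_filt hω').2.1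
  have h5 : ∑ ω, F.μ ω * Real.logb 2 (if Sm ω then N₁ else N₀) =
      Real.logb 2 N₀ - F.pb Sm * (Real.logb 2 N₀ - Real.logb 2 N₁) := by
    have e1 : ∀ ω, F.μ ω * Real.logb 2 (if Sm ω then N₁ else N₀) =
        F.μ ω * Real.logb 2 N₀ - res F.μ Sm ω * (Real.logb 2 N₀ - Real.logb 2 N₁) := by
      intro ω
      by_cases hs : Sm ω
      · rw [if_pos hs, res_pos F.μ Sm ω hs]
        ring
      · rw [if_neg hs, res_neg F.μ Sm ω hs]
        ring
    simp only [e1]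
    rw [Finset.sum_sub_distrib, ← Finset.sum_mul, ← Finset.sum_mul]
    have : ∑ ω, F.μ ω = 1 := F.ms
    rw [this, one_mul]
    rfl
  rw [h5] at h3
  linarith

theorem ev_pow (S : Sp) (a : ℝ) (ha : 0 < a) (C : ℝ) : ∀ᶠ k in UF, C ≤ 2 ^ (a * (S.F k).n) := by
  filter_upwards [S.lim.eventually (eventually_ge_atTop (Real.logb 2 (max C 1) / a))] with k hk
  rw [div_le_iff₀ ha] at hk
  have h0 : 0 < max C 1 := lt_of_lt_of_le zero_lt_one (le_max_right _ _)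
  calc C ≤ max C 1 := le_max_left _ _
    _ = 2 ^ (Real.logb 2 (max C 1)) := (Real.rpow_logb (by norm_num) (by norm_num) h0).symm
    _ ≤ 2 ^ (a * (S.F k).n) := Real.rpow_le_rpow_of_exponent_le (by norm_num) (by linarith)

variable {S : Sp} {m D : ℕ} (s : Sys S m)

/-- the point is in the leaf up to `2 ^ (-(1 - e) E n)` in the gauge of the form -/
def Leaf0 (x : ∀ k, FD (S.F k) (Mon (m + 1) D)) (k : ℕ) (l : FLab ((Ov x).F k)) (E e : ℝ) (X : l.T.Ω → Fin m → ℝ)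
    (Q : l.T.Ω → Mon (m + 1) D → MvPolynomial (Fin m) ℝ) (ω : l.T.Ω) : Prop :=
  (∀ i, 0 ≤ X ω i ∧ X ω i ≤ 1) ∧
  ∀ j, qf ((x k).g (l.p.π ω)) (ndv s x k (l.p.π ω) j - evq (Q ω) (X ω)) ≤ (2 ^ (-((1 - e) * E * (S.F k).n))) ^ 2

/-- the size of the form at the point -/
def Phb (x : ∀ k, FD (S.F k) (Mon (m + 1) D)) (k : ℕ) (l : FLab ((Ov x).F k)) (H : ℝ) (ω : l.T.Ω) : Prop :=
  sph s D k ((x k).l.p.π (l.p.π ω)) ((x k).g (l.p.π ω)) ≤ H

/-- the form on the leaf at a good point -/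
theorem leaf_pt (x : ∀ k, FD (S.F k) (Mon (m + 1) D)) (k : ℕ) (l : FLab ((Ov x).F k)) (E e H : ℝ)
    (hE : 0 ≤ (1 - e) * E) (hH : 1 ≤ H) (X : l.T.Ω → Fin m → ℝ)
    (Q : l.T.Ω → Mon (m + 1) D → MvPolynomial (Fin m) ℝ) (ω : l.T.Ω)
    (hg : ∀ v, 0 ≤ qf ((x k).g (l.p.π ω)) v)
    (h1 : Leaf0 s x k l E e X Q ω) (h2 : Phb s x k l H ω) (cf : Mon (m + 1) D → ℝ)
    (hcf : ∀ w, (cf ⬝ᵥ w) ^ 2 ≤ qf ((x k).g (l.p.π ω)) w) : |cf ⬝ᵥ evq (Q ω) (X ω)| ≤ 2 * H := by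
  set j₀ : Fin (m + 1) → Fin (D + 1) := fun _ => 0 with hj₀
  have b1 := (hcf (ndv s x k (l.p.π ω) j₀ - evq (Q ω) (X ω))).trans (h1.2 j₀)
  have b2 := abs_le_of_sq_le_sq b1 (by positivity)
  have b3 : (2 : ℝ) ^ (-((1 - e) * E * (S.F k).n)) ≤ 1 := by
    apply Real.rpow_le_one_of_one_le_of_nonpos (by norm_num)
    have : 0 ≤ (1 - e) * E * (S.F k).n := mul_nonneg hE (S.F k).pos.le
    linarith
  have b4 : qf ((x k).g (l.p.π ω)) (ndv s x k (l.p.π ω) j₀) ≤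
      sph s D k ((x k).l.p.π (l.p.π ω)) ((x k).g (l.p.π ω)) := by
    unfold sph phi
    exact Finset.single_le_sum (f := fun j => vv (nodp D (ptf s k ((x k).l.p.π (l.p.π ω)))
      (S.dl 1 k) j) ⬝ᵥ ((x k).g (l.p.π ω) *ᵥ vv (nodp D (ptf s k ((x k).l.p.π (l.p.π ω)))
      (S.dl 1 k) j))) (fun j _ => hg _) (Finset.mem_univ j₀)
  have b6 : (cf ⬝ᵥ ndv s x k (l.p.π ω) j₀) ^ 2 ≤ H ^ 2 := by
    refine ((hcf _).trans (b4.trans h2)).trans ?_
    nlinarith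
  have b7 := abs_le_of_sq_le_sq b6 (by linarith)
  have b8 : cf ⬝ᵥ evq (Q ω) (X ω) = cf ⬝ᵥ ndv s x k (l.p.π ω) j₀ -
      cf ⬝ᵥ (ndv s x k (l.p.π ω) j₀ - evq (Q ω) (X ω)) := by
    rw [dotProduct_sub]
    ring
  rw [b8]
  have b9 := abs_sub (cf ⬝ᵥ ndv s x k (l.p.π ω) j₀) (cf ⬝ᵥ (ndv s x k (l.p.π ω) j₀ - evq (Q ω) (X ω)))
  linarith

/-- the form on the whole leaf -/
theorem leaf_cube (x : ∀ k, FD (S.F k) (Mon (m + 1) D)) (k : ℕ) (l : FLab ((Ov x).F k)) (E e H : ℝ)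
    (hE : 0 ≤ (1 - e) * E) (hH : 1 ≤ H) (Kd : ℕ) (hKd : 1 ≤ Kd) (X : l.T.Ω → Fin m → ℝ)
    (Q : l.T.Ω → Mon (m + 1) D → MvPolynomial (Fin m) ℝ) (hQd : ∀ ω a, (Q ω a).totalDegree ≤ Kd)
    (hQ : ∀ ω ω', l.T.μ ω ≠ 0 → l.T.μ ω' ≠ 0 → l.V ω ω' → l.T.Z ω ω' → Q ω = Q ω')
    (cp : ℝ) (hcp : ∀ ω, (x k).l.T.μ ω ≠ 0 → Cpd cp ((x k).g ω)) (ρ θ : ℝ) (hρ0 : 0 < ρ) (hρ1 : ρ ≤ 1) (hθ0 : 0 < θ)
    (hsm : 12 * Kd * 4 ^ m * ρ ≤ θ)
    (hsm2 : Ag Kd m * (1 / θ) ^ (m * Kd) * (Ct m Kd 1 * 2 * ρ) ≤ 1 / 2) (ω : l.T.Ω) (hω : l.T.μ ω ≠ 0)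
    (hcard : θ * (1 / ρ) ^ m ≤ (vals (fun ω => ucell ρ (X ω)) (l.V ⊓ l.T.Z)
      (fun ω => Leaf0 s x k l E e X Q ω ∧ Phb s x k l H ω) ω).card)
    (y : Fin m → ℝ) (hy : ∀ i, 0 ≤ y i ∧ y i ≤ 1) :
    qf ((x k).g (l.p.π ω)) (evq (Q ω) y) ≤ (2 * (Ag Kd m * (1 / θ) ^ (m * Kd)) * (2 * H)) ^ 2 := by
  have hgω := hcp _ (l.p.supp ω hω)
  apply qf_le_of hgω.1 (fun v => hgω.psd.2 v)
  intro cf hcf
  rw [dot_evq]
  refine cube_bound Kd hKd (∑ a, cf a • Q ω a) ?_ ρ θ (2 * H) hρ0 hρ1 hθ0 (by linarith) hsm hsm2 _ ?_ hcard ?_ y hy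
  · refine MvPolynomial.totalDegree_finsetSum_le fun b _ => ?_
    exact (MvPolynomial.totalDegree_smul_le _ _).trans (hQd ω b)
  · intro u hu i
    obtain ⟨ω', a1, a2, a3, rfl⟩ := mem_vals.mp hu
    have f1 := a3.1.1
    simp only [ucell]
    rw [if_pos f1]
    have b1 := Int.floor_le (X ω' i / ρ)
    have b2 : 0 ≤ ⌊X ω' i / ρ⌋ := Int.floor_nonneg.mpr (div_nonneg (f1 i).1 hρ0.le)
    constructor
    · have : (0 : ℝ) ≤ ⌊X ω' i / ρ⌋ := by exact_mod_cast b2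
      exact mul_nonneg hρ0.le this
    · rw [le_div_iff₀ hρ0] at b1
      linarith [(f1 i).2]
  · intro u hu
    obtain ⟨ω', a1, a2, a3, rfl⟩ := mem_vals.mp hu
    have f1 := a3.1.1
    refine ⟨X ω', ?_, ?_⟩
    · intro i
      simp only [ucell]
      rw [if_pos f1]
      have b1 := Int.floor_le (X ω' i / ρ)
      have b2 := Int.lt_floor_add_one (X ω' i / ρ)
      rw [le_div_iff₀ hρ0] at b1
      rw [div_lt_iff₀ hρ0] at b2
      rw [abs_le]
      constructor <;> nlinarith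
    · have hQe : Q ω' = Q ω := hQ ω' ω a1 hω a2.1 a2.2
      have hπ1 := l.p.supp ω' a1
      have hπ2 := l.p.supp ω hω
      have hZ : ((Ov x).F k).Z (l.p.π ω') (l.p.π ω) := (l.p.hZ ω' ω a1 hω).mp a2.2
      have hZ' : (x k).l.V (l.p.π ω') (l.p.π ω) ∧ (x k).l.T.Z (l.p.π ω') (l.p.π ω) := hZ
      have hge : (x k).g (l.p.π ω') = (x k).g (l.p.π ω) := ((x k).meas _ _ hπ1 hπ2 hZ'.1 hZ'.2).1
      rw [← hQe, ← dot_evq]
      exact leaf_pt s x k l E e H hE hH X Q ω' (fun v => (hcp _ hπ1).psd.2 v) a3.1 a3.2 cf (fun w => by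
        rw [hge]
        exact hcf w)

/-- the parameters -/
theorem par_rho (σ a n : ℝ) : (2 : ℝ) ^ (-(a * n)) = 2 ^ ((σ - a) * n) * 2 ^ (-(σ * n)) := by
  rw [← Real.rpow_add (by norm_num)]
  congr 1
  ring

theorem par_pow (a n : ℝ) (K : ℕ) : (1 / (2 : ℝ) ^ (-(a * n))) ^ K = 2 ^ (K * a * n) := by
  rw [one_div, ← Real.rpow_neg (by norm_num), ← Real.rpow_natCast, ← Real.rpow_mul (by norm_num)]
  congr 1
  ring

/-- THEOREM DEGREE for full leaves -/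
theorem degree_full (hD : 1 ≤ D) (hcard : Fintype.card (Mon m (m * D)) < Fintype.card (Mon (m + 1) D)) {c : ℝ}
    (h0 : 0 ≤ c) (h1 : c < 1) {x : ∀ k, FD (S.F k) (Mon (m + 1) D)} (hx : IsCan s D c x) (E e : ℝ) (hE : 0 < E)
    (hE1 : E ≤ 1 - c) (he0 : 0 < e) (Kd : ℕ) (hKd : 1 ≤ Kd)
    (he : ((m * D + 1 : ℕ) : ℝ) * (D + 2) * ((m * Kd + 3) * e) < 1)
    (l : ∀ k, FLab ((Ov x).F k)) (hU : UB (fun k => (l k).info / (S.F k).n))
    (hl : ul (fun k => (l k).info / (S.F k).n) ≤ e * E) (X : ∀ k, (l k).T.Ω → Fin m → ℝ)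
    (Q : ∀ k, (l k).T.Ω → Mon (m + 1) D → MvPolynomial (Fin m) ℝ) (hQd : ∀ k ω a, (Q k ω a).totalDegree ≤ Kd)
    (hQ : ∀ k ω ω', (l k).T.μ ω ≠ 0 → (l k).T.μ ω' ≠ 0 → (l k).V ω ω' → (l k).T.Z ω ω' → Q k ω = Q k ω')
    (hev : ∀ᶠ k in UF, (l k).T.pb (fun ω => ¬ Leaf0 s x k (l k) E e (X k) (Q k) ω) ≤ e)
    (hful : ∀ᶠ k in UF, (m * (E / ((m * D + 1 : ℕ) : ℝ)) - e ^ 2 * E) * (S.F k).n ≤
      (l k).T.e (Setoid.ker (fun ω => ucell (2 ^ (-(E / ((m * D + 1 : ℕ) : ℝ) * (S.F k).n))) (X k ω)))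
        ((l k).V ⊓ (l k).T.Z)) : False := by
  classical
  set N := m * D with hN
  have hNpos : (0 : ℝ) < ((N + 1 : ℕ) : ℝ) := by positivity
  have hN1 : (1 : ℝ) ≤ ((N + 1 : ℕ) : ℝ) := by
    push_cast
    have : (0 : ℝ) ≤ N := Nat.cast_nonneg N
    linarith
  have hDr : (1 : ℝ) ≤ D := by exact_mod_cast hD
  have hKr : (1 : ℝ) ≤ Kd := by exact_mod_cast hKd
  have hmr : (0 : ℝ) ≤ m := Nat.cast_nonneg m
  have hmK : (0 : ℝ) ≤ m * Kd := by positivity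
  set σ : ℝ := E / ((N + 1 : ℕ) : ℝ) with hσ
  have hσ0 : 0 < σ := div_pos hE hNpos
  set e' : ℝ := (m * Kd + 3) * e with he'
  have he'0 : 0 < e' := by positivity
  have hee' : 3 * e ≤ e' := by
    rw [he']
    nlinarith [mul_nonneg hmK he0.le]
  have hNe : ((N + 1 : ℕ) : ℝ) * e' < 1 := by
    have h2 : ((N + 1 : ℕ) : ℝ) * e' ≤ ((N + 1 : ℕ) : ℝ) * (D + 2) * e' := by
      have : 0 ≤ ((N + 1 : ℕ) : ℝ) * e' := by positivity
      nlinarith
    linarith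
  have hσe : e' * E < σ := by
    rw [hσ, lt_div_iff₀ hNpos]
    nlinarith
  have he'1 : e' < 1 := by nlinarith
  have he1 : e < 1 := by linarith
  have heE : 0 < e * E := by positivity
  obtain ⟨η, hη0, hη1, hη2⟩ : ∃ η : ℝ, 0 < η ∧ η ≤ e * E / 2 ∧ η ≤ e / 2 := by
    refine ⟨min (e * E) e / 2, ?_, ?_, ?_⟩
    · have := lt_min heE he0
      linarith
    · have := min_le_left (e * E) e
      linarith
    · have := min_le_right (e * E) e
      linarith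
  have hA1 : 1 ≤ Ag Kd m := Ag_one Kd hKd m
  have hCt := Ct_one m Kd 1
  have hKe : m * Kd * (e * E) ≤ e' * E := by
    rw [he']
    nlinarith [mul_nonneg hmK heE.le]
  refine degree s hD hcard h0 h1 hx E e' hE hE1 he'0.le he l hU
    (hl.trans (mul_le_mul_of_nonneg_right (by linarith) hE.le)) Kd X Q hQd hQ ?_
  have c1 := ev_pow S (σ - e * E) (by nlinarith) (12 * Kd * 4 ^ m)
  have c2 := ev_pow S (σ - m * Kd * (e * E)) (by linarith) (4 * Ag Kd m * Ct m Kd 1)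
  have c3 := ev_pow S (3 * (e * E) - η) (by linarith) (4 * Ag Kd m)
  have c4 := S.lim.eventually (eventually_ge_atTop (2 * (1 + m) / (e ^ 2 * E)))
  filter_upwards [hev, hful, hx.1.1 η hη0, c1, c2, c3, c4] with k hk hfk hAd c1 c2 c3 c4
  have hn := (S.F k).pos
  generalize hnn : (S.F k).n = n at *
  generalize hρ : (2 : ℝ) ^ (-(σ * n)) = ρ at *
  have hρ0 : 0 < ρ := by rw [← hρ]; positivity
  have hρ1 : ρ ≤ 1 := by
    rw [← hρ]
    apply Real.rpow_le_one_of_one_le_of_nonpos (by norm_num)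
    have : 0 ≤ σ * n := by positivity
    linarith
  obtain ⟨θ, hθ⟩ : ∃ θ : ℝ, θ = 2 ^ (-(e * E * n)) := ⟨_, rfl⟩
  have hθ0 : 0 < θ := by rw [hθ]; positivity
  have hθρ : θ = 2 ^ ((σ - e * E) * n) * ρ := by rw [hθ, ← hρ]; exact par_rho _ _ _
  have hθK : (1 / θ) ^ (m * Kd) = 2 ^ (m * Kd * (e * E) * n) := by
    rw [hθ, par_pow]
    congr 1
    push_cast
    ring
  have hsm : 12 * Kd * 4 ^ m * ρ ≤ θ := by
    rw [hθρ]
    exact mul_le_mul_of_nonneg_right c1 hρ0.le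
  have hsm2 : Ag Kd m * (1 / θ) ^ (m * Kd) * (Ct m Kd 1 * 2 * ρ) ≤ 1 / 2 := by
    have h4 : (2 : ℝ) ^ ((σ - m * Kd * (e * E)) * n) * (2 ^ (m * Kd * (e * E) * n) * ρ) = 1 := by
      rw [← hρ, ← Real.rpow_add (by norm_num), ← Real.rpow_add (by norm_num)]
      have : (σ - m * Kd * (e * E)) * n + (m * Kd * (e * E) * n + -(σ * n)) = 0 := by ring
      rw [this, Real.rpow_zero]
    rw [hθK]
    have h5 : 0 < (2 : ℝ) ^ (m * Kd * (e * E) * n) * ρ := by positivity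
    have h6 := mul_le_mul_of_nonneg_right c2 h5.le
    rw [h4] at h6
    linarith
  -- probability of the bad classes
  have hcell := cells_pb (F := (l k).T) (fun ω => ucell ρ (X k ω)) ((l k).V ⊓ (l k).T.Z)
    (fun ω => Leaf0 s x k (l k) E e (X k) (Q k) ω ∧ Phb s x k (l k) (2 ^ (η * n)) ω) _ ((2 / ρ) ^ m)
    (θ * (1 / ρ) ^ m) (card_ucell hρ0 hρ1) (fun ω _ => ucell_mem hρ0 _)
  have hlogρ : Real.logb 2 (1 / ρ) = σ * n := by
    rw [one_div, Real.logb_inv, ← hρ, Real.logb_rpow (by norm_num) (by norm_num)]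
    ring
  have hlog0 : Real.logb 2 ((2 / ρ) ^ m) = m * (σ * n + 1) := by
    rw [Real.logb_pow]
    have e1 : 2 / ρ = 2 * (1 / ρ) := by ring
    rw [e1, Real.logb_mul (by norm_num) (by positivity), hlogρ, Real.logb_self_eq_one (by norm_num)]
    ring
  have hlog1 : Real.logb 2 (θ * (1 / ρ) ^ m) = m * (σ * n) - e * E * n := by
    rw [Real.logb_mul hθ0.ne' (by positivity), Real.logb_pow, hlogρ, hθ, Real.logb_rpow (by norm_num) (by norm_num)]
    ring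
  rw [hlog0, hlog1] at hcell
  set pS := (l k).T.pb (fun ω => (Leaf0 s x k (l k) E e (X k) (Q k) ω ∧ Phb s x k (l k) (2 ^ (η * n)) ω) ∧
    ((vals (fun ω => ucell ρ (X k ω)) ((l k).V ⊓ (l k).T.Z) (fun ω => Leaf0 s x k (l k) E e (X k) (Q k) ω ∧
      Phb s x k (l k) (2 ^ (η * n)) ω) ω).card : ℝ) < θ * (1 / ρ) ^ m) with hpS
  have hpSm0 : 0 ≤ pS := (l k).T.pb_nonneg _
  have hpSm : pS ≤ e + e / 2 := by
    have hle := hfk.trans hcell
    have h2 : pS * (e * E * n) ≤ (1 + m) + e ^ 2 * E * n := by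
      have h3 : pS * (m * (σ * n + 1) - (m * (σ * n) - e * E * n)) = pS * (e * E * n) + pS * m := by ring
      rw [h3] at hle
      have h4 : 0 ≤ pS * m := mul_nonneg hpSm0 hmr
      nlinarith
    have h3 : (1 + (m : ℝ)) ≤ e / 2 * (e * E * n) := by
      rw [div_le_iff₀ (by positivity)] at c4
      nlinarith
    have h4 : pS * (e * E * n) ≤ (e + e / 2) * (e * E * n) := by nlinarith
    exact le_of_mul_le_mul_right h4 (by positivity)
  -- probability of a large form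
  have hPh1 : (l k).T.pb (fun ω => ¬ Phb s x k (l k) (2 ^ (η * n)) ω) ≤ e / 2 := by
    have h2 := hAd.2.2.2.1
    rw [hnn] at h2
    have h3 : (l k).T.pb (fun ω => ¬ Phb s x k (l k) (2 ^ (η * n)) ω) =
        (x k).l.T.pb (fun ω => ¬ sph s D k ((x k).l.p.π ω) ((x k).g ω) ≤ 2 ^ (η * n)) :=
      pb_push (l k).p (fun ω => ¬ sph s D k ((x k).l.p.π ω) ((x k).g ω) ≤ 2 ^ (η * n))
    rw [h3]
    exact h2.trans hη2
  -- union
  have h2 : ∀ ω, (l k).T.μ ω ≠ 0 → ¬ Leaf s x k (l k) E e' (X k) (Q k) ω →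
      (¬ Leaf0 s x k (l k) E e (X k) (Q k) ω ∨ ¬ Phb s x k (l k) (2 ^ (η * n)) ω) ∨
      ((Leaf0 s x k (l k) E e (X k) (Q k) ω ∧ Phb s x k (l k) (2 ^ (η * n)) ω) ∧
    ((vals (fun ω => ucell ρ (X k ω)) ((l k).V ⊓ (l k).T.Z) (fun ω => Leaf0 s x k (l k) E e (X k) (Q k) ω ∧
      Phb s x k (l k) (2 ^ (η * n)) ω) ω).card : ℝ) < θ * (1 / ρ) ^ m) := by
    intro ω hω hnl
    by_contra hcon
    rw [not_or, not_or, not_not, not_not] at hcon
    obtain ⟨⟨hL0, hPω⟩, hSω⟩ := hcon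
    apply hnl
    refine ⟨hL0.1, ?_, ?_⟩
    · intro y hy
      have hb := leaf_cube s x k (l k) E e (2 ^ (η * n)) (mul_nonneg (by linarith) hE.le)
        (Real.one_le_rpow (by norm_num) (by positivity)) Kd hKd (X k) (Q k) (hQd k) (hQ k) ((gau s D).cp k)
        (fun ω hω => (hAd.2.2.1 ω hω).1) ρ θ hρ0 hρ1 hθ0 hsm hsm2 ω hω
        (not_lt.mp (fun h => hSω ⟨⟨hL0, hPω⟩, h⟩)) y hy
      refine hb.trans ?_
      apply pow_le_pow_left₀ (by positivity)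
      rw [hθK, hnn]
      have h4 : (2 : ℝ) ^ (e' * E * n) =
          2 ^ ((3 * (e * E) - η) * n) * (2 ^ (m * Kd * (e * E) * n) * 2 ^ (η * n)) := by
        rw [← Real.rpow_add (by norm_num), ← Real.rpow_add (by norm_num)]
        congr 1
        rw [he']
        ring
      rw [h4]
      have h5 : 0 < (2 : ℝ) ^ (m * Kd * (e * E) * n) * 2 ^ (η * n) := by positivity
      have h6 := mul_le_mul_of_nonneg_right c3 h5.le
      refine le_trans (le_of_eq ?_) h6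
      ring
    · intro j
      refine (hL0.2 j).trans ?_
      apply pow_le_pow_left₀ (by positivity)
      apply Real.rpow_le_rpow_of_exponent_le (by norm_num)
      rw [hnn]
      have : (1 - e') * (E * n) ≤ (1 - e) * (E * n) :=
        mul_le_mul_of_nonneg_right (by linarith) (by positivity)
      nlinarith
  refine ((l k).T.pb_mono h2).trans ?_
  have u1 := pb_or (l k).T (fun ω => ¬ Leaf0 s x k (l k) E e (X k) (Q k) ω ∨
    ¬ Phb s x k (l k) (2 ^ (η * n)) ω) (fun ω => (Leaf0 s x k (l k) E e (X k) (Q k) ω ∧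
      Phb s x k (l k) (2 ^ (η * n)) ω) ∧ ((vals (fun ω => ucell ρ (X k ω)) ((l k).V ⊓ (l k).T.Z)
        (fun ω => Leaf0 s x k (l k) E e (X k) (Q k) ω ∧ Phb s x k (l k) (2 ^ (η * n)) ω) ω).card : ℝ) <
          θ * (1 / ρ) ^ m)
  have u2 := pb_or (l k).T (fun ω => ¬ Leaf0 s x k (l k) E e (X k) (Q k) ω)
    (fun ω => ¬ Phb s x k (l k) (2 ^ (η * n)) ω)
  linarith

end

end Pool.Agent.Helper48.NS
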