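import Pool.Agent.Helper48.NS.Dvec
import Pool.Agent.Helper48.NS.Dtay

/-! THEOREM DEGREE: over the maximal label with its canonical form of degree `D` the set of a system of lines is not
contained in an `m`-dimensional polynomial leaf to full corner depth. (DEGREE, sect. 3) -/

set_option autoImplicit false

namespace Pool.Agent.Helper48.NS

open Finset Filter Topology Matrix Pool.Agent.Helper69.RK Pool.Agent.Helper31.EC Pool.Agent.Helper40.EL
open Pool.Agent.Helper89.LX Pool.Agent.Helper3.LF Pool.Agent.Helper59.LF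
open Pool.Agent.Helper95.LF (PdM)

noncomputable section

section Lin

variable {ι : Type} [Fintype ι] {m : ℕ}

/-- the vector of the values -/
def evq (Q : ι → MvPolynomial (Fin m) ℝ) (X : Fin m → ℝ) : ι → ℝ := fun a => MvPolynomial.eval X (Q a)

theorem dot_evq (c : ι → ℝ) (Q : ι → MvPolynomial (Fin m) ℝ) (X : Fin m → ℝ) :
    c ⬝ᵥ evq Q X = MvPolynomial.eval X (∑ a, c a • Q a) := by
  rw [map_sum]
  unfold dotProduct evq
  refine Finset.sum_congr rfl fun a _ => ?_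
  rw [MvPolynomial.smul_eval]

/-- the kernel vector -/
def kerv (N : ℕ) (ξ : Fin m → ℝ) (Q : ι → MvPolynomial (Fin m) ℝ) : ι → ℝ :=
  open Classical in if h : ∃ c : ι → ℝ, c ≠ 0 ∧ ∀ β, jet N ξ (∑ a, c a • Q a) β = 0 then h.choose else 0

theorem kerv_spec (N : ℕ) (hc : Fintype.card (Mon m N) < Fintype.card ι) (ξ : Fin m → ℝ)
    (Q : ι → MvPolynomial (Fin m) ℝ) : kerv N ξ Q ≠ 0 ∧ ∀ β, jet N ξ (∑ a, kerv N ξ Q a • Q a) β = 0 := by
  classical
  have h := exists_ker N hc ξ Q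
  unfold kerv
  rw [dif_pos h]
  exact h.choose_spec

/-- linear forms bounded by a form are small on the leaf near the centre -/
theorem ker_small {A : Matrix ι ι ℝ} (Kd N : ℕ) (hc : Fintype.card (Mon m N) < Fintype.card ι) (ξ : Fin m → ℝ)
    (hξ : ∀ i, 0 ≤ ξ i ∧ ξ i ≤ 1) (Q : ι → MvPolynomial (Fin m) ℝ) (hQ : ∀ a, (Q a).totalDegree ≤ Kd) (H : ℝ)
    (hH0 : 0 ≤ H) (hH : ∀ y : Fin m → ℝ, (∀ i, 0 ≤ y i ∧ y i ≤ 1) → qf A (evq Q y) ≤ H ^ 2) (ρ : ℝ) (hρ : 0 < ρ)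
    (hρ1 : ρ ≤ 1) (y : Fin m → ℝ) (hy : ∀ i, |y i - ξ i| ≤ ρ) (a : ℝ)
    (ha : ∀ v, ((a • kerv N ξ Q) ⬝ᵥ v) ^ 2 ≤ qf A v) :
    |(a • kerv N ξ Q) ⬝ᵥ evq Q y| ≤ Ct m Kd (N + 1) * H * ρ ^ (N + 1) := by
  have h1 : ∀ y : Fin m → ℝ, (a • kerv N ξ Q) ⬝ᵥ evq Q y =
      MvPolynomial.eval y (a • ∑ b, kerv N ξ Q b • Q b) := by
    intro y
    rw [smul_dotProduct, dot_evq, MvPolynomial.smul_eval]
    rfl
  rw [h1]
  apply van Kd N _ _ ξ hξ _ H _ ρ hρ hρ1 y hy
  · refine (MvPolynomial.totalDegree_smul_le _ _).trans ?_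
    refine MvPolynomial.totalDegree_finsetSum_le fun b _ => ?_
    exact (MvPolynomial.totalDegree_smul_le _ _).trans (hQ b)
  · intro β
    rw [map_smul, Pi.smul_apply, (kerv_spec N hc ξ Q).2 β, smul_zero]
  · intro z hz
    rw [← h1]
    apply abs_le_of_sq_le_sq _ hH0
    exact (ha _).trans (hH z hz)

end Lin

variable {S : Sp} {m D : ℕ} (s : Sys S m)

/-- the cell of a point of the unit cube -/
def ucell (ρ : ℝ) (X : Fin m → ℝ) : Fin m → ℤ :=
  open Classical in if (∀ i, 0 ≤ X i ∧ X i ≤ 1) then fun i => ⌊X i / ρ⌋ else 0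

theorem ucell_mem {ρ : ℝ} (hρ : 0 < ρ) (X : Fin m → ℝ) :
    ucell ρ X ∈ Fintype.piFinset (fun _ : Fin m => Finset.Icc (0 : ℤ) ⌊1 / ρ⌋) := by
  classical
  rw [Fintype.mem_piFinset]
  intro i
  rw [Finset.mem_Icc]
  unfold ucell
  split_ifs with h
  · refine ⟨Int.floor_nonneg.mpr (div_nonneg (h i).1 hρ.le), Int.floor_le_floor ?_⟩
    exact div_le_div_of_nonneg_right (h i).2 hρ.le
  · refine ⟨le_rfl, ?_⟩
    show (0 : ℤ) ≤ _
    exact Int.floor_nonneg.mpr (by positivity)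

theorem card_ucell {ρ : ℝ} (hρ : 0 < ρ) (hρ1 : ρ ≤ 1) :
    ((Fintype.piFinset (fun _ : Fin m => Finset.Icc (0 : ℤ) ⌊1 / ρ⌋)).card : ℝ) ≤ (2 / ρ) ^ m := by
  rw [Fintype.card_piFinset_const]
  push_cast
  apply pow_le_pow_left₀ (Nat.cast_nonneg _)
  rw [Int.card_Icc, sub_zero]
  have h1 : (0 : ℤ) ≤ ⌊1 / ρ⌋ := Int.floor_nonneg.mpr (by positivity)
  have h2 : (((⌊1 / ρ⌋ + 1).toNat : ℕ) : ℝ) = (⌊1 / ρ⌋ : ℝ) + 1 := by
    have h3 : (((⌊1 / ρ⌋ + 1).toNat : ℕ) : ℤ) = ⌊1 / ρ⌋ + 1 := Int.toNat_of_nonneg (by omega)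
    exact_mod_cast congrArg (fun z : ℤ => (z : ℝ)) h3
  rw [h2]
  have h4 := Int.floor_le (1 / ρ)
  have h5 : 1 ≤ 1 / ρ := by rw [le_div_iff₀ hρ]; linarith
  have h6 : 2 / ρ = 1 / ρ + 1 / ρ := by ring
  linarith

/-- entropy of a variable with few values -/
theorem e_card {F : FSp} {α : Type} (Y : F.Ω → α) (B : Setoid F.Ω) (T : Finset α) (K : ℝ) (hK : (T.card : ℝ) ≤ K)
    (hY : ∀ ω, F.μ ω ≠ 0 → Y ω ∈ T) : F.e (Setoid.ker Y) B ≤ Real.logb 2 K := by
  classical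
  have h1 := st_E3.1 F.Ω _ _ F.μ Y (Quotient.mk B) (fun _ => K) F.nn (fun ω hω => by
    refine le_trans (Nat.cast_le.mpr (Finset.card_le_card (t := T) ?_)) hK
    intro q hq
    obtain ⟨ω', hω', rfl⟩ := e3_mem_image hq
    exact hY ω' (mem_filt hω').2.1)
  have h4 : F.e (Setoid.ker Y) B = CH F.μ Y (Quotient.mk B) := by
    apply F.e_congr
    · intro ω ω' _ _
      exact Iff.rfl
    · intro ω ω' _ _
      exact Quotient.eq.symm
  rw [h4]
  refine h1.trans (le_of_eq ?_)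
  rw [← Finset.sum_mul]
  have : ∑ ω, F.μ ω = 1 := F.ms
  rw [this, one_mul]

/-- information of a refined label -/
theorem fadd_info_le {F : FSp} (l : FLab F) (W : Setoid l.T.Ω) :
    (fadd l W).info ≤ l.info + l.T.e W (l.V ⊓ l.T.Z) := by
  have h1 : (fadd l W).info = I (l.v ⊔ fc W) l.p.top ⊥ := rfl
  have h2 : l.info = I l.v l.p.top ⊥ := rfl
  rw [h1, h2, I_chain]
  have h3 := I_le_h_left (fc W) l.p.top (l.v ⊔ ⊥)
  have h4 : h (fc W) (l.v ⊔ ⊥) = l.T.e W (l.V ⊓ l.T.Z) := by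
    rw [sup_bot_eq]
    exact h_fc W l.V
  linarith

/-- the leaf condition: the point is in the leaf of the class up to `2 ^ (-(1 - e) E n)` in the gauge of the form,
and the form is at most `2 ^ (2 e E n)` on the whole leaf -/
def Leaf (x : ∀ k, FD (S.F k) (Mon (m + 1) D)) (k : ℕ) (l : FLab ((Ov x).F k)) (E e : ℝ) (X : l.T.Ω → Fin m → ℝ)
    (Q : l.T.Ω → Mon (m + 1) D → MvPolynomial (Fin m) ℝ) (ω : l.T.Ω) : Prop :=
  (∀ i, 0 ≤ X ω i ∧ X ω i ≤ 1) ∧
  (∀ y : Fin m → ℝ, (∀ i, 0 ≤ y i ∧ y i ≤ 1) →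
    qf ((x k).g (l.p.π ω)) (evq (Q ω) y) ≤ (2 ^ (e * E * (S.F k).n)) ^ 2) ∧
  ∀ j, qf ((x k).g (l.p.π ω)) (ndv s x k (l.p.π ω) j - evq (Q ω) (X ω)) ≤ (2 ^ (-((1 - e) * E * (S.F k).n))) ^ 2

/-- THEOREM DEGREE -/
theorem degree (hD : 1 ≤ D) (hcard : Fintype.card (Mon m (m * D)) < Fintype.card (Mon (m + 1) D)) {c : ℝ} (h0 : 0 ≤ c)
    (h1 : c < 1) {x : ∀ k, FD (S.F k) (Mon (m + 1) D)} (hx : IsCan s D c x) (E e : ℝ) (hE : 0 < E) (hE1 : E ≤ 1 - c)
    (he0 : 0 ≤ e) (he : ((m * D + 1 : ℕ) : ℝ) * (D + 2) * e < 1)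
    (l : ∀ k, FLab ((Ov x).F k)) (hU : UB (fun k => (l k).info / (S.F k).n))
    (hl : ul (fun k => (l k).info / (S.F k).n) ≤ e * E) (Kd : ℕ) (X : ∀ k, (l k).T.Ω → Fin m → ℝ)
    (Q : ∀ k, (l k).T.Ω → Mon (m + 1) D → MvPolynomial (Fin m) ℝ) (hQd : ∀ k ω a, (Q k ω a).totalDegree ≤ Kd)
    (hQ : ∀ k ω ω', (l k).T.μ ω ≠ 0 → (l k).T.μ ω' ≠ 0 → (l k).V ω ω' → (l k).T.Z ω ω' → Q k ω = Q k ω')
    (hev : ∀ᶠ k in UF, (l k).T.pb (fun ω => ¬ Leaf s x k (l k) E e (X k) (Q k) ω) ≤ e) : False := by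
  classical
  set N := m * D with hN
  have hNpos : (0 : ℝ) < ((N + 1 : ℕ) : ℝ) := by positivity
  have hDr : (1 : ℝ) ≤ D := by exact_mod_cast hD
  have he1 : e ≤ 1 := by
    by_contra hcon
    have hcon' := not_le.mp hcon
    have a1 : (1 : ℝ) ≤ ((N + 1 : ℕ) : ℝ) := by
      push_cast
      have : (0 : ℝ) ≤ N := Nat.cast_nonneg N
      linarith
    have a2 : (1 : ℝ) ≤ ((N + 1 : ℕ) : ℝ) * (D + 2) := by nlinarith
    nlinarith
  set σ : ℝ := E / ((N + 1 : ℕ) : ℝ) with hσ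
  have hσ0 : 0 < σ := div_pos hE hNpos
  -- the side of the cells
  set ρ : ℕ → ℝ := fun k => (2 : ℝ) ^ (-(σ * (S.F k).n)) with hρ
  have hρ0 : ∀ k, 0 < ρ k := fun k => by rw [hρ]; positivity
  have hρ1 : ∀ k, ρ k ≤ 1 := fun k => by
    apply Real.rpow_le_one_of_one_le_of_nonpos (by norm_num)
    have := (S.F k).pos
    have : 0 ≤ σ * (S.F k).n := by positivity
    linarith
  set U : ∀ k, (l k).T.Ω → Fin m → ℤ := fun k ω => ucell (ρ k) (X k ω) with hUd
  set l' : ∀ k, FLab ((Ov x).F k) := fun k => fadd (l k) (Setoid.ker (U k)) with hl'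
  set ctr : ∀ k, (Fin m → ℤ) → Fin m → ℝ := fun k u i => ρ k * (u i : ℝ) with hctr
  set c₀ : ∀ k, (l' k).T.Ω → Mon (m + 1) D → ℝ := fun k ω => kerv N (ctr k (U k ω)) (Q k ω) with hc₀
  -- information
  have hinfo : ∀ k, (l' k).info ≤ (l k).info + m * (σ * (S.F k).n + 1) := by
    intro k
    refine (fadd_info_le (l k) (Setoid.ker (U k))).trans ?_
    have h2 := e_card (F := (l k).T) (U k) ((l k).V ⊓ (l k).T.Z) _ _ (card_ucell (m := m) (hρ0 k) (hρ1 k))
      (fun ω _ => ucell_mem (hρ0 k) _)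
    have h3 : Real.logb 2 ((2 / ρ k) ^ m) = m * (σ * (S.F k).n + 1) := by
      rw [Real.logb_pow, Real.logb_div (by norm_num) (hρ0 k).ne', Real.logb_self_eq_one (by norm_num)]
      rw [hρ]
      simp only
      rw [Real.logb_rpow (by norm_num) (by norm_num)]
      ring
    rw [h3] at h2
    linarith
  have hn0 : Tendsto (fun k => (m : ℝ) * (σ + 1 / (S.F k).n)) UF (𝓝 (m * (σ + 0))) :=
    ((tendsto_const_nhds).add (S.div_n_tendsto 1)).const_mul _
  have hUB1 : UB (fun k => (m : ℝ) * (σ + 1 / (S.F k).n)) := UB_of_tendsto hn0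
  have hle : ∀ k, (l' k).info / (S.F k).n ≤ (l k).info / (S.F k).n + m * (σ + 1 / (S.F k).n) := by
    intro k
    have hn := (S.F k).pos
    rw [div_le_iff₀ hn]
    refine (hinfo k).trans (le_of_eq ?_)
    field_simp
  have hUB' : UB (fun k => (l' k).info / (S.F k).n) := by
    obtain ⟨C, hC⟩ := hU.add hUB1
    refine UB_of_nonneg_le (C := C) (Eventually.of_forall fun k => ?_) ?_
    · exact div_nonneg (FLab.info_nonneg _) (S.F k).pos.le
    · filter_upwards [hC] with k hk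
      exact (hle k).trans ((le_abs_self _).trans hk)
  have hul : ul (fun k => (l' k).info / (S.F k).n) ≤ e * E + m * σ := by
    have h2 := ul_mono hUB' (hU.add hUB1) (Eventually.of_forall hle)
    rw [ul_add hU hUB1, ul_eq hn0] at h2
    linarith
  have hnO : ∀ k, ((Ov x).F k).n = (S.F k).n := Ov_n x
  -- the cost
  have key := deg_vec s hD h0 h1 ((1 - e) * E) (mul_nonneg (by linarith) hE.le) (by
      have a1 : (1 - e) * E ≤ 1 - c := by nlinarith
      nlinarith) hx l' (by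
      have e1 : (fun k => (l' k).info / ((Ov x).F k).n) = fun k => (l' k).info / (S.F k).n :=
        funext fun k => by rw [hnO]
      rw [e1]
      exact hUB') c₀ (by
      intro k ω ω' a1 a2 a3 a4
      have b1 : (l k).V ω ω' := a3.1
      have b2 : U k ω = U k ω' := a3.2
      have b3 := hQ k ω ω' a1 a2 b1 a4
      rw [hc₀]
      simp only
      rw [b2, b3]) ((1 - e) * E) e ((1 + Ct m Kd (N + 1)) ^ 2) he1 (by positivity) (by
      filter_upwards [hev] with k hk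
      refine le_trans ((l k).T.pb_mono ?_) hk
      intro ω _ hneg hleaf
      apply hneg
      obtain ⟨f1, f2, f3⟩ := hleaf
      refine ⟨(kerv_spec N hcard _ _).1, fun a ha j => ?_⟩
      set cf : Mon (m + 1) D → ℝ := a • c₀ k ω with hcf
      have hXi : U k ω = fun i => ⌊X k ω i / ρ k⌋ := by
        rw [hUd]
        simp only [ucell]
        rw [if_pos f1]
      have hc1 : ∀ i, 0 ≤ ctr k (U k ω) i ∧ ctr k (U k ω) i ≤ 1 := by
        intro i
        rw [hctr, hXi]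
        simp only
        have b1 := Int.floor_le (X k ω i / ρ k)
        have b2 : 0 ≤ ⌊X k ω i / ρ k⌋ := Int.floor_nonneg.mpr (div_nonneg (f1 i).1 (hρ0 k).le)
        constructor
        · have : (0 : ℝ) ≤ ⌊X k ω i / ρ k⌋ := by exact_mod_cast b2
          exact mul_nonneg (hρ0 k).le this
        · rw [le_div_iff₀ (hρ0 k)] at b1
          linarith [(f1 i).2]
      have hc2 : ∀ i, |X k ω i - ctr k (U k ω) i| ≤ ρ k := by
        intro i
        rw [hctr, hXi]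
        simp only
        have b1 := Int.floor_le (X k ω i / ρ k)
        have b2 := Int.lt_floor_add_one (X k ω i / ρ k)
        rw [le_div_iff₀ (hρ0 k)] at b1
        rw [div_lt_iff₀ (hρ0 k)] at b2
        rw [abs_le]
        constructor <;> nlinarith
      have hsm := ker_small (A := (x k).g ((l k).p.π ω)) Kd N hcard (ctr k (U k ω)) hc1 (Q k ω) (hQd k ω)
        (2 ^ (e * E * (S.F k).n)) (by positivity) f2 (ρ k) (hρ0 k) (hρ1 k) (X k ω) hc2 a ha
      have hpow : ρ k ^ (N + 1) = 2 ^ (-(E * (S.F k).n)) := by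
        rw [hρ]
        simp only
        rw [← Real.rpow_natCast, ← Real.rpow_mul (by norm_num)]
        congr 1
        rw [hσ]
        field_simp
      have hmul : (2 : ℝ) ^ (e * E * (S.F k).n) * 2 ^ (-(E * (S.F k).n)) = 2 ^ (-((1 - e) * E * (S.F k).n)) := by
        rw [← Real.rpow_add (by norm_num)]
        congr 1
        ring
      rw [hpow, mul_assoc, hmul] at hsm
      have hd := (ha (ndv s x k ((l k).p.π ω) j - evq (Q k ω) (X k ω))).trans (f3 j)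
      have hd' := abs_le_of_sq_le_sq hd (by positivity)
      have hsplit : (a • c₀ k ω) ⬝ᵥ ndv s x k ((l k).p.π ω) j =
          (a • c₀ k ω) ⬝ᵥ (ndv s x k ((l k).p.π ω) j - evq (Q k ω) (X k ω)) +
            (a • c₀ k ω) ⬝ᵥ evq (Q k ω) (X k ω) := by
        rw [dotProduct_sub]
        ring
      have habs : |(a • c₀ k ω) ⬝ᵥ ndv s x k ((l k).p.π ω) j| ≤
          (1 + Ct m Kd (N + 1)) * 2 ^ (-((1 - e) * E * (S.F k).n)) := by
        rw [hsplit]
        refine (abs_add_le _ _).trans ?_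
        have hsm' : |(a • c₀ k ω) ⬝ᵥ evq (Q k ω) (X k ω)| ≤
          Ct m Kd (N + 1) * 2 ^ (-((1 - e) * E * (S.F k).n)) := hsm
        linarith
      have hfin : ((a • c₀ k ω) ⬝ᵥ ndv s x k ((l k).p.π ω) j) ^ 2 ≤
          ((1 + Ct m Kd (N + 1)) * 2 ^ (-((1 - e) * E * (S.F k).n))) ^ 2 := by
        rw [← sq_abs]
        exact pow_le_pow_left₀ (abs_nonneg _) habs 2
      refine hfin.trans (le_of_eq ?_)
      rw [mul_pow, ← Real.rpow_natCast (2 ^ (-((1 - e) * E * (S.F k).n))) 2, ← Real.rpow_mul (by norm_num)]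
      congr 2
      push_cast
      ring)
  rw [min_self] at key
  have hulO : ul (fun k => (l' k).info / ((Ov x).F k).n) = ul (fun k => (l' k).info / (S.F k).n) :=
    ul_congr (Eventually.of_forall fun k => by rw [hnO])
  rw [hulO] at key
  have h3 : (1 - e) * ((1 - e) * E) ≤ D * (e * E + m * σ) :=
    key.trans (mul_le_mul_of_nonneg_left hul (by linarith))
  have h4 : (D : ℝ) * (m * σ) = E * (1 - 1 / ((N + 1 : ℕ) : ℝ)) := by
    rw [hσ, hN]
    push_cast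
    field_simp
    ring
  have h5 : (D : ℝ) * (e * E + m * σ) = E * (D * e + (1 - 1 / ((N + 1 : ℕ) : ℝ))) := by
    rw [mul_add, h4]
    ring
  rw [h5] at h3
  have h6 : (1 - e) * (1 - e) ≤ D * e + (1 - 1 / ((N + 1 : ℕ) : ℝ)) := by
    have : E * ((1 - e) * (1 - e)) ≤ E * (D * e + (1 - 1 / ((N + 1 : ℕ) : ℝ))) := by linarith
    exact le_of_mul_le_mul_left this hE
  have h7 : 1 / ((N + 1 : ℕ) : ℝ) ≤ (D + 2) * e := by nlinarith
  rw [div_le_iff₀ hNpos] at h7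
  nlinarith

end

end Pool.Agent.Helper48.NS
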