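import Pool.Agent.Helper48.NS.Sysc

/-! THEOREM COST for systems of lines, final form. (DEGREE) -/

set_option autoImplicit false

namespace Pool.Agent.Helper48.NS

open Finset Filter Topology Matrix Pool.Agent.Helper69.RK Pool.Agent.Helper31.EC Pool.Agent.Helper40.EL
open Pool.Agent.Helper89.LX Pool.Agent.Helper3.LF
open Pool.Agent.Helper95.LF (PdM)

noncomputable section

variable {S : Sp} {m D : ℕ} (s : Sys S m)

/-- the height has full entropy given the line, the coarse height and the label -/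
theorem ent_time {x : ∀ k, FD (S.F k) (Mon (m + 1) D)} {c : ℝ} (hx : IsCan s D c x) (h0 : 0 ≤ c) (h1 : c ≤ 1) :
    Tendsto (fun k => ((Ov x).F k).e (tker (fun ω => s.t.v k ((x k).l.p.π ω) 0) (S.dl 1 k))
      (SA s x c k ⊓ ((Ov x).F k).Z) / ((Ov x).F k).n) UF (𝓝 (1 - c)) := by
  set l : Lab S := fun k => (x k).l with hl
  have e1 : h (up1 l s.T) (up1 l (lA s c)) = 1 - c := by
    rw [DMc.h_A hx.2.1 le_rfl]
    exact h_T_A s h0 h1
  have e2 : s.T = Sp.cl (s.It 1) := (s.cl_It 1).symm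
  have e3 : lA s c = Sp.cl (Sp.Inf.sup (Sp.Inf.sup (s.Ia 1) (s.Ix 1)) (s.It c)) := (cl_A s c).symm
  have e4 : h (up1 l s.T) (up1 l (lA s c)) = ul ((Ov x).rt (l.upI 1 one_pos (s.It 1)).1
      (l.upI 1 one_pos (Sp.Inf.sup (Sp.Inf.sup (s.Ia 1) (s.Ix 1)) (s.It c))).1) := by
    rw [e2, e3]
    exact Sp.h_cl (S := Ov x) _ _
  have e5 : UB ((Ov x).rt (l.upI 1 one_pos (s.It 1)).1
      (l.upI 1 one_pos (Sp.Inf.sup (Sp.Inf.sup (s.Ia 1) (s.Ix 1)) (s.It c))).1) := Sp.UB_rt _ _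
  have e6 := ul_tendsto e5
  rw [← e4, e1] at e6
  refine e6.congr fun k => ?_
  show ((Ov x).F k).e (Setoid.comap (x k).l.p.π (Setoid.ker (s.t.cellv 1 k))) (SA s x c k ⊓ ((Ov x).F k).Z) /
    ((Ov x).F k).n = _
  congr 1
  apply le_antisymm
  · apply FSp.e_mono
    intro ω ω' _ _ h _
    have h' : ⌊s.t.v k ((x k).l.p.π ω) 0 / S.dl 1 k⌋ = ⌊s.t.v k ((x k).l.p.π ω') 0 / S.dl 1 k⌋ := h
    show Sp.cell (S.dl 1 k) (s.t.v k ((x k).l.p.π ω)) = Sp.cell (S.dl 1 k) (s.t.v k ((x k).l.p.π ω'))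
    funext i
    rw [Subsingleton.elim i 0]
    exact h'
  · apply FSp.e_mono
    intro ω ω' _ _ h _
    exact congrFun h 0

theorem logb_cN (S : Sp) (m D : ℕ) {R : ℕ → ℝ} (hR : S.Sub R) :
    Tendsto (fun k => (Real.logb 2 (((2 * D : ℕ) + 1) * cN m D (R k + 2) ^ 2) / 2 + 2) / (S.F k).n) UF (𝓝 0) := by
  have h1 : S.Sub (fun k => ((2 * D : ℕ) + 1 : ℝ) * cN m D (R k + 2) ^ 2) := by
    have a1 : S.Sub (fun k => cN m D (R k + 2)) := by
      have b1 : S.Sub (fun k => (R k + 2) ^ (2 * D)) := Sub_pow' (hR.add (S.Sub_const (by norm_num))) _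
      have b2 : (0 : ℝ) ≤ nn (m + 1) D * (Cu D * Cm (m + 1) D) ^ 2 := by
        have := nn_one (m + 1) D
        positivity
      have b3 := (S.Sub_const b2).mul b1
      refine b3.mono ?_ (Eventually.of_forall fun k => ?_)
      · filter_upwards [hR.1] with k hk
        have := cN_one m D (K := R k + 2) (by linarith)
        linarith
      · unfold cN
        rw [mul_pow (Cu D * Cm (m + 1) D), ← pow_mul, mul_comm D 2]
        exact le_of_eq (by ring)
    have a2 := (S.Sub_const (show (0 : ℝ) ≤ (2 * D : ℕ) + 1 by positivity)).mul (a1.mul a1)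
    refine a2.mono (Eventually.of_forall fun k => by positivity) (Eventually.of_forall fun k => ?_)
    rw [pow_two]
  have h2 : Tendsto (fun k => Real.logb 2 (((2 * D : ℕ) + 1) * cN m D (R k + 2) ^ 2 + 2) / (S.F k).n +
      2 / (S.F k).n) UF (𝓝 0) := by
    have := h1.2.add (S.div_n_tendsto 2)
    rwa [add_zero] at this
  have hpos : ∀ᶠ k in UF, (1 : ℝ) ≤ ((2 * D : ℕ) + 1) * cN m D (R k + 2) ^ 2 := by
    filter_upwards [hR.1] with k hk
    have a1 := cN_one m D (K := R k + 2) (by linarith)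
    have a2 : 1 ≤ cN m D (R k + 2) ^ 2 := one_le_pow₀ a1
    have a3 : (0 : ℝ) ≤ (2 * D : ℕ) := Nat.cast_nonneg _
    nlinarith
  refine tendsto_of_tendsto_of_tendsto_of_le_of_le' tendsto_const_nhds h2 ?_ ?_
  · filter_upwards [hpos] with k hk
    have := Real.logb_nonneg (b := 2) (by norm_num) hk
    have := (S.F k).pos
    positivity
  · filter_upwards [hpos] with k hk
    rw [← add_div]
    apply div_le_div_of_nonneg_right _ (S.F k).pos.le
    have a1 := Real.logb_nonneg (b := 2) (by norm_num) hk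
    have a2 : Real.logb 2 (((2 * D : ℕ) + 1) * cN m D (R k + 2) ^ 2) ≤
        Real.logb 2 (((2 * D : ℕ) + 1) * cN m D (R k + 2) ^ 2 + 2) :=
      Real.logb_le_logb_of_le (by norm_num) (by linarith) (by linarith)
    linarith

/-- THEOREM COST -/
theorem cost_sys (hD : 1 ≤ D) {c : ℝ} (h0 : 0 ≤ c) (h1 : c < 1) (E₀ : ℝ) (hE0 : 0 ≤ E₀) (hE1 : E₀ ≤ D * (1 - c))
    {x : ∀ k, FD (S.F k) (Mon (m + 1) D)} (hx : IsCan s D c x)
    (y : ∀ k, CL ((Ov x).F k) (Mon (m + 1) D → ℝ)) (hy : ∀ᶠ k in UF, (y k).Good (GdC x k))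
    (hU : UB (fun k => (y k).l.info / ((Ov x).F k).n)) :
    ul (fun k => (y k).E (fex (gau s D) x E₀ k)) ≤ D * ul (fun k => (y k).l.info / ((Ov x).F k).n) := by
  have hDr : (1 : ℝ) ≤ D := by exact_mod_cast hD
  obtain ⟨R, hR, ht⟩ := s.t.bd
  set en : ℕ → ℝ := fun k => ((Ov x).F k).e (tker (fun ω => s.t.v k ((x k).l.p.π ω) 0) (S.dl 1 k))
      (SA s x c k ⊓ ((Ov x).F k).Z) / ((Ov x).F k).n with hen
  set εA : ℕ → ℝ := fun k => D * (Real.logb 2 ((E₀ + 1) * (S.F k).n + 1) / (S.F k).n) +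
    D * (Real.logb 2 (12 * ((2 * D : ℕ) + 1)) / (S.F k).n) + D * ((1 - c) - en k) +
    (Real.logb 2 (((2 * D : ℕ) + 1) * cN m D (R k + 2) ^ 2) / 2 + 2) / (S.F k).n with hεA
  set εB : ℕ → ℝ := fun k => Real.logb 2 (cN m D 2) / (2 * (S.F k).n) with hεB
  have hA0 : Tendsto εA UF (𝓝 0) := by
    have a1 := (logn S (E₀ + 1) 1 (by linarith)).const_mul (D : ℝ)
    have a2 := (S.div_n_tendsto (Real.logb 2 (12 * ((2 * D : ℕ) + 1)))).const_mul (D : ℝ)
    have a3 := ((tendsto_const_nhds (x := 1 - c)).sub (ent_time s hx h0 h1.le)).const_mul (D : ℝ)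
    have a4 := logb_cN S m D hR
    have a5 := ((a1.add a2).add a3).add a4
    rw [sub_self, mul_zero, add_zero, add_zero, add_zero] at a5
    exact a5
  have hB0 : Tendsto εB UF (𝓝 0) := by
    have a1 := S.div_n_tendsto (Real.logb 2 (cN m D 2) / 2)
    refine a1.congr fun k => ?_
    rw [hεB]
    ring
  refine cost (cA_Bd s c) (gau_hom s) E₀ hE0 hx.1 hx.2 D (by linarith) εA εB hA0 hB0 ?_ ?_ y hy hU
  · filter_upwards [ht, hR.1] with k hk hRk z _
    have hn := (S.F k).pos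
    have hnO : ((Ov x).F k).n = (S.F k).n := Ov_n x k
    have hd1 := S.dl_pos 1 k
    have hdc := S.dl_pos c k
    have hW : S.dl 1 k ≤ S.dl c k := S.dl_anti h1.le k
    have hWd : S.dl c k / S.dl 1 k = 2 ^ ((1 - c) * (S.F k).n) := by
      unfold Sp.dl
      rw [← Real.rpow_sub (by norm_num)]
      congr 1; ring
    have key := z.step_A (SA s x c k) (fun ω => s.t.v k ((x k).l.p.π ω) 0)
      (fun ω cf => sph s D k ((x k).l.p.π ω) (cc cf)) (cN m D (R k + 2)) (S.dl c k) (S.dl 1 k) E₀ (2 * D)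
      (by omega) hE0 (cN_one m D (by linarith)) hd1 hW (by
        rw [hWd, hnO]
        apply Real.rpow_le_rpow_of_exponent_le (by norm_num)
        rw [div_le_iff₀ (by push_cast; linarith)]
        push_cast
        nlinarith) (LP_sys s x c k (R k) hRk hk)
    rw [hnO] at key
    have hD2 : ((2 * D : ℕ) : ℝ) / (2 * (S.F k).n) = D / (S.F k).n := by
      push_cast
      field_simp
    have hlog : Real.logb 2 (12 * (((2 * D : ℕ) : ℝ) + 1) * (S.dl c k / S.dl 1 k)) =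
        Real.logb 2 (12 * (((2 * D : ℕ) : ℝ) + 1)) + (1 - c) * (S.F k).n := by
      rw [hWd, Real.logb_mul (by positivity) (by positivity), Real.logb_rpow (by norm_num) (by norm_num)]
    have hen' : ((Ov x).F k).e (tker (fun ω => s.t.v k ((x k).l.p.π ω) 0) (S.dl 1 k))
        (SA s x c k ⊓ ((Ov x).F k).Z) = en k * (S.F k).n := by
      simp only [hen, hnO]
      rw [div_mul_cancel₀ _ hn.ne']
    have hl1 : Real.logb 2 ((S.F k).n * E₀ + 1) ≤ Real.logb 2 ((E₀ + 1) * (S.F k).n + 1) :=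
      Real.logb_le_logb_of_le (by norm_num) (by positivity) (by nlinarith)
    rw [hlog, hen', hD2] at key
    have hfe : (fun (ω : ((Ov x).F k).Ω) (cf : Mon (m + 1) D → ℝ) =>
        ex (S.F k).n E₀ (sph s D k ((x k).l.p.π ω) (cc cf))) = fex (gau s D) x E₀ k := rfl
    rw [hfe] at key
    rw [fc_SA, hnO]
    refine le_trans ?_ key
    have hDn : 0 ≤ (D : ℝ) / (S.F k).n := by positivity
    have e1 : εA k = D / (S.F k).n * (Real.logb 2 ((E₀ + 1) * (S.F k).n + 1) +
        (Real.logb 2 (12 * (((2 * D : ℕ) : ℝ) + 1)) + (1 - c) * (S.F k).n) - en k * (S.F k).n) +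
        (Real.logb 2 ((((2 * D : ℕ) : ℝ) + 1) * cN m D (R k + 2) ^ 2) / 2 + 2) / (S.F k).n := by
      simp only [hεA]
      field_simp
      ring
    rw [e1]
    have e2 := mul_le_mul_of_nonneg_left hl1 hDn
    have e3 : (D : ℝ) * (z.l.leak (fc (SA s x c k)) / (S.F k).n) =
        D / (S.F k).n * z.l.leak (fc (SA s x c k)) := by ring
    rw [e3]
    nlinarith
  · refine Eventually.of_forall fun k z _ => ?_
    have hn := (S.F k).pos
    rw [fc_SB]
    apply z.step_B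
    intro ω ω' cf _ _ hB _
    exact ex_scale hn (cN_one m D (by norm_num)) (near_B s x k ω ω' hB cf)

end

end Pool.Agent.Helper48.NS
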