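import Pool.Agent.Helper48.NS.Vari
import Pool.Agent.Helper59.LF.Add
import Pool.Agent.Helper89.LX.Jn

/-! THEOREM COST, abstract form: over the maximal label with an optimal form a label of information `i` cannot predict a
unit combination smaller than `2 ^ (-(C i) n)`, where `C` is the price of the resampling steps. (DEGREE) -/

set_option autoImplicit false

namespace Pool.Agent.Helper48.NS

open Finset Filter Topology Matrix Pool.Agent.Helper69.RK Pool.Agent.Helper31.EC Pool.Agent.Helper40.EL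
open Pool.Agent.Helper89.LX Pool.Agent.Helper59.LF
open Pool.Agent.Helper95.LF (PdM)

noncomputable section

/-- logarithms of the depth -/
theorem logn (S : Sp) (C C' : ℝ) (hC : 0 < C) :
    Tendsto (fun k => Real.logb 2 (C * (S.F k).n + C') / (S.F k).n) UF (𝓝 0) := by
  have h1 := Real.tendsto_pow_log_div_mul_add_atTop (1 / C) (-(C' / C)) 1 (by positivity)
  have h2 : Tendsto (fun k => C * (S.F k).n + C') UF atTop :=
    tendsto_atTop_add_const_right _ _ (S.lim.const_mul_atTop hC)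
  have h3 := (h1.comp h2).const_mul (Real.log 2)⁻¹
  rw [mul_zero] at h3
  refine h3.congr fun k => ?_
  have e1 : 1 / C * (C * (S.F k).n + C') + -(C' / C) = (S.F k).n := by
    field_simp
    ring
  simp only [Function.comp, e1, pow_one]
  unfold Real.logb
  ring

variable {ι : Type} [Fintype ι] [DecidableEq ι]

/-- the square of a linear form -/
def cc (c : ι → ℝ) : Matrix ι ι ℝ := Matrix.vecMulVec c c

omit [DecidableEq ι] in
theorem qf_cc (c v : ι → ℝ) : qf (cc c) v = (c ⬝ᵥ v) ^ 2 := by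
  unfold qf cc
  rw [Matrix.vecMulVec_mulVec, dotProduct_smul, pow_two, dotProduct_comm v c]
  rfl

omit [DecidableEq ι] in
theorem cc_psd (c : ι → ℝ) : Psd (cc c) := by
  refine ⟨?_, fun v => by rw [qf_cc]; exact sq_nonneg _⟩
  unfold cc Matrix.IsSymm
  ext i j
  rw [Matrix.transpose_apply, Matrix.vecMulVec_apply, Matrix.vecMulVec_apply, mul_comm]

omit [DecidableEq ι] in
theorem qf_smul (a : ℝ) (A : Matrix ι ι ℝ) (x : ι → ℝ) : qf (a • A) x = a * qf A x := by
  unfold qf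
  rw [Matrix.smul_mulVec, dotProduct_smul, smul_eq_mul]

/-- the coefficient `c` is a unit combination with respect to the form `A` -/
def UnitC (A : Matrix ι ι ℝ) (c : ι → ℝ) : Prop :=
  (∀ v, (c ⬝ᵥ v) ^ 2 ≤ qf A v) ∧ ∃ v, v ≠ 0 ∧ qf A v ≤ (c ⬝ᵥ v) ^ 2

variable {S : Sp} (Φ : Gau S ι) (x : ∀ k, FD (S.F k) ι)

/-- the space over the label of `x` -/
def Ov : Sp := Lab.ovr (fun k => (x k).l) 1 one_pos

/-- good coefficients -/
def GdC (k : ℕ) (ω : ((Ov x).F k).Ω) (c : ι → ℝ) : Prop := UnitC ((x k).g ω) c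

/-- the truncated exponent of the combination `c` at the point -/
def fex (D : ℝ) (k : ℕ) (ω : ((Ov x).F k).Ω) (c : ι → ℝ) : ℝ := ex (S.F k).n D (Φ.φ k ((x k).l.p.π ω) (cc c))

omit [Fintype ι] [DecidableEq ι] in
theorem Ov_n (k : ℕ) : ((Ov x).F k).n = (S.F k).n := by
  have h1 := Lab.n_over (fun k => (x k).l) 1 one_pos k
  rw [one_mul] at h1
  exact h1

omit [DecidableEq ι] in
theorem GdC_inv (k : ℕ) (ω ω' : ((Ov x).F k).Ω) (c : ι → ℝ) (h1 : ((Ov x).F k).μ ω ≠ 0) (h2 : ((Ov x).F k).μ ω' ≠ 0)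
    (hZ : ((Ov x).F k).Z ω ω') (h : GdC x k ω c) : GdC x k ω' c := by
  have h3 : (x k).l.V ω ω' ∧ (x k).l.T.Z ω ω' := hZ
  have h4 := ((x k).meas ω ω' h1 h2 h3.1 h3.2).1
  unfold GdC at h ⊢
  rw [← h4]
  exact h

variable (y : ∀ k, CL ((Ov x).F k) (ι → ℝ))

/-- the number of bits of the exponent -/
def Nb (D : ℝ) (k : ℕ) (ω : (y k).l.T.Ω) : ℕ := ⌊(S.F k).n * fex Φ x D k ((y k).l.p.π ω) ((y k).c ω)⌋₊

/-- the larger form -/
def g1 (D : ℝ) (k : ℕ) (ω : (y k).l.T.Ω) : Matrix ι ι ℝ :=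
  (x k).g ((y k).l.p.π ω) + (2 : ℝ) ^ (2 * Nb Φ x y D k ω) • cc ((y k).c ω)

open Classical in
/-- the larger form, truncated at the cap -/
def gm (D : ℝ) (k : ℕ) (ω : (y k).l.T.Ω) : Matrix ι ι ℝ :=
  if Cpd (Φ.cp k) (g1 Φ x y D k ω) then g1 Φ x y D k ω else (x k).g ((y k).l.p.π ω)

/-- the label with the larger form -/
def nw (D : ℝ) (k : ℕ) : FD (S.F k) ι where
  l := fadd ((x k).l.comp 1 one_pos (y k).l) (Setoid.ker (Nb Φ x y D k))
  g := gm Φ x y D k
  g' := gm Φ x y D k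
  meas := fun ω ω' h h' hV hZ => by
    have a1 : (x k).l.T.μ ((y k).l.p.π ω) ≠ 0 := (y k).l.p.supp ω h
    have a2 : (x k).l.T.μ ((y k).l.p.π ω') ≠ 0 := (y k).l.p.supp ω' h'
    have b1 : (x k).l.V ((y k).l.p.π ω) ((y k).l.p.π ω') := hV.1.1
    have b2 : (y k).l.V ω ω' := hV.1.2
    have b3 : Nb Φ x y D k ω = Nb Φ x y D k ω' := hV.2
    have b4 : (x k).l.T.Z ((y k).l.p.π ω) ((y k).l.p.π ω') := ((x k).l.p.hZ _ _ a1 a2).mpr hZ
    have b5 : (y k).l.T.Z ω ω' := ((y k).l.p.hZ ω ω' h h').mpr ⟨b1, b4⟩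
    have c1 := ((x k).meas _ _ a1 a2 b1 b4).1
    have c2 := (y k).meas _ _ h h' b2 b5
    have c3 : g1 Φ x y D k ω = g1 Φ x y D k ω' := by
      unfold g1
      rw [c1, c2, b3]
    have c4 : gm Φ x y D k ω = gm Φ x y D k ω' := by
      unfold gm
      rw [c3, c1]
    exact ⟨c4, c4⟩

theorem nw_DM {A B : Part S} (D : ℝ) (hD : 0 ≤ D) (hx : Lab.DM (fun k => (x k).l) A B)
    (hy : Lab.DM (S := Ov x) (fun k => (y k).l) (Lab.up (fun k => (x k).l) 1 one_pos A)
      (Lab.up (fun k => (x k).l) 1 one_pos B)) : Lab.DM (fun k => (nw Φ x y D k).l) A B := by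
  set L0 : Lab S := Lab.comp (fun k => (x k).l) 1 one_pos (fun k => (y k).l) with hL0
  have h1 : Lab.DM L0 A B := hx.comp hy
  set W : ∀ k, Setoid (L0 k).T.Ω := fun k => Setoid.ker (Nb Φ x y D k) with hW
  have h2 : ∀ (P : Part S), Nul S (fun k => h (fc (W k)) ((L0 k).v ⊔ (L0 k).p.map (P k))) := by
    intro P
    have h3 : Nul S (fun k => Real.logb 2 ((D + 1) * (S.F k).n + 2)) := logn S (D + 1) 2 (by linarith)
    refine h3.of_le (Eventually.of_forall fun k => h_nonneg _ _) (Eventually.of_forall fun k => ?_)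
    have hn := (S.F k).pos
    induction P k using fc_ind with | _ P'
    rw [h_label]
    set L := L0 k with hL
    have h4 : L.T.e (W k) ((L.V ⊓ Setoid.comap L.p.π P') ⊓ L.T.Z) =
        CH L.T.μ (Nb Φ x y D k) (Quotient.mk ((L.V ⊓ Setoid.comap L.p.π P') ⊓ L.T.Z)) := by
      apply L.T.e_congr
      · intro ω ω' _ _
        exact Iff.rfl
      · intro ω ω' _ _
        exact Quotient.eq.symm
    rw [h4]
    have h5 := st_E3.1 L.T.Ω _ _ L.T.μ (Nb Φ x y D k) (Quotient.mk ((L.V ⊓ Setoid.comap L.p.π P') ⊓ L.T.Z))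
      (fun _ => (D + 1) * (S.F k).n + 2) L.T.nn (fun ω _ => by
      refine le_trans (Nat.cast_le.mpr (Finset.card_le_card (t := Finset.range (⌊(S.F k).n * D⌋₊ + 1)) ?_)) ?_
      · intro q hq
        obtain ⟨ω', hω', rfl⟩ := e3_mem_image hq
        rw [Finset.mem_range]
        apply Nat.lt_succ_of_le
        apply Nat.floor_le_floor
        exact mul_le_mul_of_nonneg_left (ex_le hn) hn.le
      · rw [Finset.card_range]
        push_cast
        have : (⌊(S.F k).n * D⌋₊ : ℝ) ≤ (S.F k).n * D := Nat.floor_le (by positivity)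
        nlinarith)
    refine h5.trans (le_of_eq ?_)
    rw [← Finset.sum_mul]
    have : ∑ ω, L.T.μ ω = 1 := L.T.ms
    rw [this, one_mul]
  exact DM_ladd h1 W (h2 A) (h2 B)

end

end Pool.Agent.Helper48.NS
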