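import Pool.Agent.Helper48.NS.Cst

/-! THEOREM COST, abstract form, second part. (DEGREE) -/

set_option autoImplicit false

namespace Pool.Agent.Helper48.NS

open Finset Filter Topology Matrix Pool.Agent.Helper69.RK Pool.Agent.Helper31.EC Pool.Agent.Helper40.EL
open Pool.Agent.Helper89.LX Pool.Agent.Helper59.LF
open Pool.Agent.Helper95.LF (PdM)

noncomputable section

variable {ι : Type} [Fintype ι] [DecidableEq ι] {S : Sp} (Φ : Gau S ι) (x : ∀ k, FD (S.F k) ι)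
  (y : ∀ k, CL ((Ov x).F k) (ι → ℝ))

/-- homogeneous gauges -/
def Gau.Hom (Φ : Gau S ι) : Prop := ∀ k ω (a : ℝ) (M : Matrix ι ι ℝ), Φ.φ k ω (a • M) = a * Φ.φ k ω M

variable {Φ x y}

theorem phi_cc_le {k : ℕ} {ω : (S.F k).Ω} {A : Matrix ι ι ℝ} {c : ι → ℝ} (hA : A.IsSymm) (h : UnitC A c) :
    Φ.φ k ω (cc c) ≤ Φ.φ k ω A := by
  have e1 : A = (A - cc c) + cc c := by rw [sub_add_cancel]
  have h1 : Psd (A - cc c) := by
    refine ⟨hA.sub (cc_psd c).1, fun v => ?_⟩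
    have e2 : qf (A - cc c) v = qf A v - qf (cc c) v := by
      unfold qf
      rw [Matrix.sub_mulVec, dotProduct_sub]
    rw [e2, qf_cc]
    linarith [h.1 v]
  have h2 := Φ.nn k ω _ h1
  rw [e1, Φ.add]
  have e3 : A - cc c + cc c - cc c = A - cc c := by rw [add_sub_cancel_right]
  rw [← e3] at h2
  simpa using h2

theorem Nb_le (D : ℝ) (hD : 0 ≤ D) (k : ℕ) (ω : (y k).l.T.Ω) :
    (Nb Φ x y D k ω : ℝ) ≤ (S.F k).n * fex Φ x D k ((y k).l.p.π ω) ((y k).c ω) := by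
  apply Nat.floor_le
  exact mul_nonneg (S.F k).pos.le (ex_nonneg (S.F k).pos hD)

theorem Nb_le' (D : ℝ) (hD : 0 ≤ D) (k : ℕ) (ω : (y k).l.T.Ω) : (Nb Φ x y D k ω : ℝ) ≤ (S.F k).n * D :=
  (Nb_le D hD k ω).trans (mul_le_mul_of_nonneg_left (ex_le (S.F k).pos) (S.F k).pos.le)

theorem Nb_ge (D : ℝ) (k : ℕ) (ω : (y k).l.T.Ω) :
    (S.F k).n * fex Φ x D k ((y k).l.p.π ω) ((y k).c ω) - 1 ≤ (Nb Φ x y D k ω : ℝ) := by
  have := Nat.lt_floor_add_one ((S.F k).n * fex Φ x D k ((y k).l.p.π ω) ((y k).c ω))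
  unfold Nb
  linarith

/-- size of the larger form -/
theorem g1_phi (hsm : Gau.Hom Φ) (D : ℝ) (hD : 0 ≤ D) (k : ℕ) (ω : (y k).l.T.Ω)
    (hg : Cpd (Φ.cp k) ((x k).g ((y k).l.p.π ω))) (hG : UnitC ((x k).g ((y k).l.p.π ω)) ((y k).c ω)) :
    Φ.φ k ((x k).l.p.π ((y k).l.p.π ω)) (g1 Φ x y D k ω) ≤
      2 * max 1 (Φ.φ k ((x k).l.p.π ((y k).l.p.π ω)) ((x k).g ((y k).l.p.π ω))) := by
  have hn := (S.F k).pos
  set pt := (x k).l.p.π ((y k).l.p.π ω) with hpt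
  have h1 : Φ.φ k pt (g1 Φ x y D k ω) = Φ.φ k pt ((x k).g ((y k).l.p.π ω)) +
      (2 : ℝ) ^ (2 * Nb Φ x y D k ω) * Φ.φ k pt (cc ((y k).c ω)) := by
    unfold g1
    rw [Φ.add, hsm]
  have h2 : 0 ≤ Φ.φ k pt (cc ((y k).c ω)) := Φ.nn k pt _ (cc_psd _)
  have h3 : (2 : ℝ) ^ (2 * Nb Φ x y D k ω) * Φ.φ k pt (cc ((y k).c ω)) ≤ max 1 (Φ.φ k pt (cc ((y k).c ω))) := by
    have a1 : (2 : ℝ) ^ (2 * Nb Φ x y D k ω) ≤
        2 ^ (2 * (S.F k).n * ex (S.F k).n D (Φ.φ k pt (cc ((y k).c ω)))) := by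
      rw [← Real.rpow_natCast]
      apply Real.rpow_le_rpow_of_exponent_le (by norm_num)
      push_cast
      have := Nb_le (Φ := Φ) (x := x) (y := y) D hD k ω
      unfold fex at this
      rw [← hpt] at this
      linarith
    exact (mul_le_mul_of_nonneg_right a1 h2).trans (ex_mul_le hn h2)
  have h4 : Φ.φ k pt (cc ((y k).c ω)) ≤ Φ.φ k pt ((x k).g ((y k).l.p.π ω)) := phi_cc_le hg.1 hG
  have h5 : max 1 (Φ.φ k pt (cc ((y k).c ω))) ≤ max 1 (Φ.φ k pt ((x k).g ((y k).l.p.π ω))) := max_le_max le_rfl h4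
  have h6 : Φ.φ k pt ((x k).g ((y k).l.p.π ω)) ≤ max 1 (Φ.φ k pt ((x k).g ((y k).l.p.π ω))) := le_max_right _ _
  rw [h1]
  linarith

/-- the larger form is admissible where the size of the old form is small -/
theorem g1_cpd (hsm : Gau.Hom Φ) (D : ℝ) (hD : 0 ≤ D) (k : ℕ) (ω : (y k).l.T.Ω)
    (hcap : ∀ A, PdM A → ∀ v, qf A v ≤ 2 ^ (Φ.C * (S.F k).n) * Φ.φ k ((x k).l.p.π ((y k).l.p.π ω)) A * (v ⬝ᵥ v))
    (hn2 : 2 ≤ (S.F k).n) (hg : Cpd (Φ.cp k) ((x k).g ((y k).l.p.π ω)))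
    (hG : UnitC ((x k).g ((y k).l.p.π ω)) ((y k).c ω))
    (hφ : Φ.φ k ((x k).l.p.π ((y k).l.p.π ω)) ((x k).g ((y k).l.p.π ω)) ≤ 2 ^ (1 / 2 * (S.F k).n)) :
    Cpd (Φ.cp k) (g1 Φ x y D k ω) := by
  have hn := (S.F k).pos
  have hB : Psd ((2 : ℝ) ^ (2 * Nb Φ x y D k ω) • cc ((y k).c ω)) := by
    refine ⟨(cc_psd _).1.smul _, fun v => ?_⟩
    rw [qf_smul]
    exact mul_nonneg (by positivity) ((cc_psd _).2 v)
  refine ⟨hg.1.add hB.1, fun v => ?_, fun v => ?_⟩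
  · unfold g1
    rw [qf_add]
    linarith [hg.2.1 v, hB.2 v]
  · have h1 := hcap (g1 Φ x y D k ω) (hg.pdM.add hB.1 hB.2) v
    refine h1.trans ?_
    apply mul_le_mul_of_nonneg_right _ (dot_self_nonneg v)
    unfold Gau.cp
    rw [add_mul, one_mul, Real.rpow_add (by norm_num)]
    apply mul_le_mul_of_nonneg_left _ (by positivity)
    refine (g1_phi hsm D hD k ω hg hG).trans ?_
    have h2 : (1 : ℝ) ≤ 2 ^ (1 / 2 * (S.F k).n) := Real.one_le_rpow (by norm_num) (by positivity)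
    have h3 : max 1 (Φ.φ k ((x k).l.p.π ((y k).l.p.π ω)) ((x k).g ((y k).l.p.π ω))) ≤ 2 ^ (1 / 2 * (S.F k).n) :=
      max_le h2 hφ
    have h4 : (2 : ℝ) * 2 ^ (1 / 2 * (S.F k).n) ≤ 2 ^ ((S.F k).n) := by
      rw [mul_comm, ← Real.rpow_add_one (by norm_num)]
      apply Real.rpow_le_rpow_of_exponent_le (by norm_num)
      linarith
    linarith

open Classical in
/-- gain of the determinant -/
theorem gm_det (D : ℝ) (hD : 0 ≤ D) (k : ℕ) (ω : (y k).l.T.Ω) (hg : Cpd (Φ.cp k) ((x k).g ((y k).l.p.π ω)))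
    (hG : UnitC ((x k).g ((y k).l.p.π ω)) ((y k).c ω)) :
    Real.logb 2 ((x k).g ((y k).l.p.π ω)).det + 2 * (Nb Φ x y D k ω : ℝ) -
      2 * ((S.F k).n * D) * (if ¬ Cpd (Φ.cp k) (g1 Φ x y D k ω) then 1 else 0) ≤
      Real.logb 2 (gm Φ x y D k ω).det := by
  have hdet : 0 < ((x k).g ((y k).l.p.π ω)).det := zero_lt_one.trans_le hg.one_le
  unfold gm
  by_cases h : Cpd (Φ.cp k) (g1 Φ x y D k ω)
  · rw [if_pos h, if_neg (not_not.mpr h), mul_zero, sub_zero]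
    have hB : Psd ((2 : ℝ) ^ (2 * Nb Φ x y D k ω) • cc ((y k).c ω)) := by
      refine ⟨(cc_psd _).1.smul _, fun v => ?_⟩
      rw [qf_smul]
      exact mul_nonneg (by positivity) ((cc_psd _).2 v)
    obtain ⟨v, hv, hv2⟩ := hG.2
    have h2 := det_gain' hg.pdM hB (2 ^ (2 * Nb Φ x y D k ω)) v hv (by
      rw [qf_smul, qf_cc]
      exact mul_le_mul_of_nonneg_left hv2 (by positivity))
    have h3 : (2 : ℝ) ^ (2 * Nb Φ x y D k ω) * ((x k).g ((y k).l.p.π ω)).det ≤ (g1 Φ x y D k ω).det := by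
      refine le_trans ?_ h2
      apply mul_le_mul_of_nonneg_right _ hdet.le
      linarith
    have h4 := Real.logb_le_logb_of_le (b := 2) (by norm_num) (by positivity) h3
    rw [Real.logb_mul (by positivity) hdet.ne', Real.logb_pow, Real.logb_self_eq_one (by norm_num)] at h4
    push_cast at h4
    linarith
  · rw [if_neg h, if_pos h]
    have := Nb_le' (Φ := Φ) (x := x) (y := y) D hD k ω
    linarith

theorem nw_sc (D : ℝ) (hD : 0 ≤ D) (k : ℕ) (hg : ∀ ω, (x k).l.T.μ ω ≠ 0 → Cpd (Φ.cp k) ((x k).g ω))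
    (hG : (y k).Good (GdC x k)) :
    (x k).sc + 2 * ((S.F k).n * (y k).E (fex Φ x D k)) - 2 -
      2 * ((S.F k).n * D) * (y k).l.T.pb (fun ω => ¬ Cpd (Φ.cp k) (g1 Φ x y D k ω)) ≤ (nw Φ x y D k).sc := by
  classical
  have hn := (S.F k).pos
  have e1 : (x k).sc = ∑ ω, (y k).l.T.μ ω * Real.logb 2 ((x k).g ((y k).l.p.π ω)).det :=
    (sum_push (y k).l.p (fun ω => Real.logb 2 ((x k).g ω).det)).symm
  have e2 : (y k).l.T.pb (fun ω => ¬ Cpd (Φ.cp k) (g1 Φ x y D k ω)) =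
      ∑ ω, (y k).l.T.μ ω * (if ¬ Cpd (Φ.cp k) (g1 Φ x y D k ω) then (1 : ℝ) else 0) := by
    unfold FSp.pb mass
    apply Finset.sum_congr rfl
    intro ω _
    by_cases h : Cpd (Φ.cp k) (g1 Φ x y D k ω)
    · rw [res_neg (y k).l.T.μ (fun ω => ¬ Cpd (Φ.cp k) (g1 Φ x y D k ω)) ω (not_not.mpr h),
        if_neg (not_not.mpr h), mul_zero]
    · rw [res_pos (y k).l.T.μ (fun ω => ¬ Cpd (Φ.cp k) (g1 Φ x y D k ω)) ω h, if_pos h, mul_one]
  have e3 : ∑ ω, (y k).l.T.μ ω = 1 := (y k).l.T.ms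
  have e4 : (x k).sc + 2 * ((S.F k).n * (y k).E (fex Φ x D k)) - 2 -
      2 * ((S.F k).n * D) * (y k).l.T.pb (fun ω => ¬ Cpd (Φ.cp k) (g1 Φ x y D k ω)) =
      ∑ ω, (y k).l.T.μ ω * (Real.logb 2 ((x k).g ((y k).l.p.π ω)).det +
        2 * ((S.F k).n * fex Φ x D k ((y k).l.p.π ω) ((y k).c ω) - 1) -
        2 * ((S.F k).n * D) * (if ¬ Cpd (Φ.cp k) (g1 Φ x y D k ω) then 1 else 0)) := by
    rw [e1, e2]
    unfold CL.E
    have e5 : (2 : ℝ) = ∑ ω, (y k).l.T.μ ω * 2 := by rw [← Finset.sum_mul, e3, one_mul]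
    rw [Finset.mul_sum, Finset.mul_sum, Finset.mul_sum]
    calc _ = (∑ ω, (y k).l.T.μ ω * Real.logb 2 ((x k).g ((y k).l.p.π ω)).det) +
          (∑ i, 2 * ((S.F k).n * ((y k).l.T.μ i * fex Φ x D k ((y k).l.p.π i) ((y k).c i)))) -
          (∑ ω, (y k).l.T.μ ω * 2) -
          (∑ i, 2 * ((S.F k).n * D) * ((y k).l.T.μ i *
            (if ¬ Cpd (Φ.cp k) (g1 Φ x y D k i) then (1 : ℝ) else 0))) := by rw [← e5]
      _ = _ := by
          rw [← Finset.sum_add_distrib, ← Finset.sum_sub_distrib, ← Finset.sum_sub_distrib]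
          exact Finset.sum_congr rfl fun ω _ => by ring
  rw [e4]
  show _ ≤ ∑ ω : (y k).l.T.Ω, (y k).l.T.μ ω * Real.logb 2 (gm Φ x y D k ω).det
  refine Finset.sum_le_sum fun ω _ => ?_
  by_cases h0 : (y k).l.T.μ ω = 0
  · rw [h0, zero_mul, zero_mul]
  · apply mul_le_mul_of_nonneg_left _ ((y k).l.T.nn ω)
    refine le_trans ?_ (gm_det (Φ := Φ) D hD k ω (hg _ ((y k).l.p.supp ω h0)) (hG ω h0))
    have := Nb_ge (Φ := Φ) (x := x) (y := y) D k ω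
    linarith

omit [Fintype ι] [DecidableEq ι] in
/-- probability in the new label -/
theorem pb_y (k : ℕ) (E : (x k).l.T.Ω → Prop) : (y k).l.T.pb (fun ω => E ((y k).l.p.π ω)) = (x k).l.T.pb E :=
  pb_push (y k).l.p E

/-- admissible -/
theorem nw_Ad {A B : Part S} (hsm : Gau.Hom Φ) (D : ℝ) (hD : 0 ≤ D) (hx : Φ.Ad A B x)
    (hG : ∀ᶠ k in UF, (y k).Good (GdC x k))
    (hy : Lab.DM (S := Ov x) (fun k => (y k).l) (Lab.up (fun k => (x k).l) 1 one_pos A)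
      (Lab.up (fun k => (x k).l) 1 one_pos B)) : Φ.Ad A B (nw Φ x y D) := by
  classical
  have hDM := nw_DM Φ x y D hD (Gau.Ad.dm Φ hx) hy
  intro η hη
  have hη4 : 0 < η / 4 := by linarith
  have hnk : ∀ᶠ k in UF, (4 / η : ℝ) ≤ (S.F k).n := S.lim.eventually (eventually_ge_atTop _)
  filter_upwards [hx _ hη4, hG, hDM.1.eventually (gt_mem_nhds hη), hDM.2.eventually (gt_mem_nhds hη), hnk]
    with k hk hGk d1 d2 hnk
  have hn := (S.F k).pos
  rw [div_lt_iff₀ hn] at d1 d2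
  have hsz : (nw Φ x y D k).l.T.pb (fun ω => ¬ Φ.φ k ((nw Φ x y D k).l.p.π ω) (gm Φ x y D k ω) ≤
      2 ^ (η * (S.F k).n)) ≤ η := by
    have h2 : (nw Φ x y D k).l.T.pb (fun ω => ¬ Φ.φ k ((nw Φ x y D k).l.p.π ω) (gm Φ x y D k ω) ≤
        2 ^ (η * (S.F k).n)) ≤ (y k).l.T.pb (fun ω => ¬ Φ.φ k ((x k).l.p.π ((y k).l.p.π ω))
          ((x k).g ((y k).l.p.π ω)) ≤ 2 ^ (η / 4 * (S.F k).n)) := by
      apply FSp.pb_mono (F := (y k).l.T)
      intro ω h0 h3 h4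
      apply h3
      have hg := (hk.2.2.1 _ ((y k).l.p.supp ω h0)).1
      have hU : UnitC ((x k).g ((y k).l.p.π ω)) ((y k).c ω) := hGk ω h0
      have e1 : (1 : ℝ) ≤ 2 ^ (η / 4 * (S.F k).n) := Real.one_le_rpow (by norm_num) (by positivity)
      have e2 : (2 : ℝ) * 2 ^ (η / 4 * (S.F k).n) ≤ 2 ^ (η * (S.F k).n) := by
        rw [mul_comm, ← Real.rpow_add_one (by norm_num)]
        apply Real.rpow_le_rpow_of_exponent_le (by norm_num)
        have : 1 ≤ η / 4 * (S.F k).n := by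
          rw [div_le_iff₀ hη] at hnk
          linarith
        nlinarith
      show Φ.φ k ((x k).l.p.π ((y k).l.p.π ω)) (gm Φ x y D k ω) ≤ _
      unfold gm
      split_ifs with h5
      · refine (g1_phi hsm D hD k ω hg hU).trans ?_
        have := max_le e1 h4
        linarith
      · linarith
    have h6 := pb_y (y := y) k (fun ω => ¬ Φ.φ k ((x k).l.p.π ω) ((x k).g ω) ≤ 2 ^ (η / 4 * (S.F k).n))
    have h7 := hk.2.2.2.1
    linarith
  refine ⟨d1.le, d2.le, fun ω h0 => ?_, hsz, hsz⟩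
  have h2 : Cpd (Φ.cp k) (gm Φ x y D k ω) := by
    unfold gm
    split_ifs with h3
    · exact h3
    · exact (hk.2.2.1 _ ((y k).l.p.supp ω h0)).1
  exact ⟨h2, h2⟩

/-- an optimal form leaves no gain -/
theorem no_gain {A B : Part S} (hsm : Gau.Hom Φ) (D : ℝ) (hD : 0 ≤ D) (hx : Φ.Opt A B x)
    (hG : ∀ᶠ k in UF, (y k).Good (GdC x k))
    (hy : Lab.DM (S := Ov x) (fun k => (y k).l) (Lab.up (fun k => (x k).l) 1 one_pos A)
      (Lab.up (fun k => (x k).l) 1 one_pos B)) (θ : ℝ) (hθ : 0 < θ)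
    (hE : ∀ᶠ k in UF, θ ≤ (y k).E (fex Φ x D k)) : False := by
  classical
  have hAd := nw_Ad (y := y) hsm D hD hx.1 hG hy
  have hopt := hx.2 _ hAd
  set η : ℝ := min (1 / 2) (θ / (4 * (D + 1))) with hη
  have hη0 : 0 < η := lt_min (by norm_num) (by positivity)
  have hη1 : η ≤ 1 / 2 := min_le_left _ _
  have hη2 : D * η ≤ θ / 4 := by
    have h1 : η ≤ θ / (4 * (D + 1)) := min_le_right _ _
    have h2 : D * η ≤ (D + 1) * (θ / (4 * (D + 1))) := by nlinarith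
    have h3 : (D + 1) * (θ / (4 * (D + 1))) = θ / 4 := by field_simp
    linarith
  have hnk : ∀ᶠ k in UF, (4 / θ + 2 : ℝ) ≤ (S.F k).n := S.lim.eventually (eventually_ge_atTop _)
  have hgain : ∀ᶠ k in UF, (x k).sc / (S.F k).n + θ ≤ (nw Φ x y D k).sc / (S.F k).n := by
    filter_upwards [hx.1 η hη0, hG, hE, Φ.cap, hnk] with k hk hGk hEk hcap hnk
    have hn := (S.F k).pos
    have h4θ : 0 < 4 / θ := by positivity
    have h1 := nw_sc (Φ := Φ) (x := x) (y := y) D hD k (fun ω h => (hk.2.2.1 ω h).1) hGk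
    have h2 : (y k).l.T.pb (fun ω => ¬ Cpd (Φ.cp k) (g1 Φ x y D k ω)) ≤ η := by
      have h3 : (y k).l.T.pb (fun ω => ¬ Cpd (Φ.cp k) (g1 Φ x y D k ω)) ≤
          (y k).l.T.pb (fun ω => ¬ Φ.φ k ((x k).l.p.π ((y k).l.p.π ω)) ((x k).g ((y k).l.p.π ω)) ≤
            2 ^ (η * (S.F k).n)) := by
        apply FSp.pb_mono
        intro ω h0 h3 h4
        apply h3
        have a1 : (x k).l.T.μ ((y k).l.p.π ω) ≠ 0 := (y k).l.p.supp ω h0
        apply g1_cpd hsm D hD k ω (fun A hA v => hcap _ ((x k).l.p.supp _ a1) A hA v) (by linarith)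
          (hk.2.2.1 _ a1).1 (hGk ω h0)
        refine h4.trans (Real.rpow_le_rpow_of_exponent_le (by norm_num) ?_)
        exact mul_le_mul_of_nonneg_right hη1 hn.le
      have h6 := pb_y (y := y) k (fun ω => ¬ Φ.φ k ((x k).l.p.π ω) ((x k).g ω) ≤ 2 ^ (η * (S.F k).n))
      have h7 := hk.2.2.2.1
      linarith
    rw [← sub_nonneg]
    have e1 : (nw Φ x y D k).sc / (S.F k).n - ((x k).sc / (S.F k).n + θ) =
        ((nw Φ x y D k).sc - (x k).sc - θ * (S.F k).n) / (S.F k).n := by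
      field_simp
      ring
    rw [e1]
    apply div_nonneg _ hn.le
    have h8 : (S.F k).n * D * (y k).l.T.pb (fun ω => ¬ Cpd (Φ.cp k) (g1 Φ x y D k ω)) ≤ (S.F k).n * (θ / 4) := by
      have a1 : D * (y k).l.T.pb (fun ω => ¬ Cpd (Φ.cp k) (g1 Φ x y D k ω)) ≤ θ / 4 :=
        (mul_le_mul_of_nonneg_left h2 hD).trans hη2
      calc _ = (S.F k).n * (D * (y k).l.T.pb (fun ω => ¬ Cpd (Φ.cp k) (g1 Φ x y D k ω))) := by ring
        _ ≤ _ := mul_le_mul_of_nonneg_left a1 hn.le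
    have h9 : (S.F k).n * θ ≤ (S.F k).n * (y k).E (fex Φ x D k) := mul_le_mul_of_nonneg_left hEk hn.le
    have h10 : 4 ≤ θ * (S.F k).n := by
      have : 4 / θ ≤ (S.F k).n := by linarith
      rw [div_le_iff₀ hθ] at this
      linarith
    nlinarith
  have h1 := ul_mono ((Φ.sc_UB hx.1).add (UB_const θ)) (Φ.sc_UB hAd) hgain
  rw [ul_add (Φ.sc_UB hx.1) (UB_const θ), ul_const] at h1
  linarith

/-- THEOREM COST, abstract form -/
theorem cost {A B : Part S} (hA : A.Bd) (hsm : Gau.Hom Φ) (D : ℝ) (hD : 0 ≤ D) (hx : Φ.Opt A B x)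
    (hκ : Lab.IsMax (fun k => (x k).l) A B) (CA : ℝ) (hCA : 0 ≤ CA) (εA εB : ℕ → ℝ)
    (hεA : Tendsto εA UF (𝓝 0)) (hεB : Tendsto εB UF (𝓝 0))
    (sA : ∀ᶠ k in UF, ∀ z : CL ((Ov x).F k) (ι → ℝ), z.Good (GdC x k) →
      z.E (fex Φ x D k) - CA * (z.l.leak (Lab.up (fun k => (x k).l) 1 one_pos A k) / ((Ov x).F k).n) - εA k ≤
        (z.rs (Lab.up (fun k => (x k).l) 1 one_pos A k)).E (fex Φ x D k))
    (sB : ∀ᶠ k in UF, ∀ z : CL ((Ov x).F k) (ι → ℝ), z.Good (GdC x k) →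
      z.E (fex Φ x D k) - εB k ≤ (z.rs (Lab.up (fun k => (x k).l) 1 one_pos B k)).E (fex Φ x D k))
    (y₀ : ∀ k, CL ((Ov x).F k) (ι → ℝ)) (h₀ : ∀ᶠ k in UF, (y₀ k).Good (GdC x k))
    (hU : UB (fun k => (y₀ k).l.info / ((Ov x).F k).n)) :
    ul (fun k => (y₀ k).E (fex Φ x D k)) ≤ CA * ul (fun k => (y₀ k).l.info / ((Ov x).F k).n) := by
  by_contra hcon
  rw [not_le] at hcon
  have hf0 : ∀ k (ω : ((Ov x).F k).Ω) (c : ι → ℝ), 0 ≤ fex Φ x D k ω c := fun k ω c => ex_nonneg (S.F k).pos hD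
  have hf1 : ∀ k (ω : ((Ov x).F k).Ω) (c : ι → ℝ), fex Φ x D k ω c ≤ D := fun k ω c => ex_le (S.F k).pos
  have hUE : UB (fun k => (y₀ k).E (fex Φ x D k)) := by
    apply UB_of_nonneg_le (C := D)
    · exact Eventually.of_forall fun k => (y₀ k).E_nonneg _ (hf0 k)
    · exact Eventually.of_forall fun k => (y₀ k).E_le _ _ (hf1 k)
  set e := ul (fun k => (y₀ k).E (fex Φ x D k)) with he
  set i := ul (fun k => (y₀ k).l.info / ((Ov x).F k).n) with hi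
  have hi0 : 0 ≤ i := const_le_ul hU (Eventually.of_forall fun k =>
    div_nonneg (FLab.info_nonneg _) ((Ov x).F k).pos.le)
  set θ : ℝ := e - CA * i with hθ
  have hθ0 : 0 < θ := by rw [hθ]; linarith
  set C : ℝ := CA + θ / (2 * (i + 1)) with hC
  have hC1 : CA < C := by
    have : 0 < θ / (2 * (i + 1)) := by positivity
    rw [hC]; linarith
  have hC2 : C * i ≤ CA * i + θ / 2 := by
    have h1 : θ / (2 * (i + 1)) * i ≤ θ / 2 := by
      rw [div_mul_eq_mul_div, div_le_div_iff₀ (by positivity) (by norm_num)]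
      nlinarith
    rw [hC]; nlinarith
  obtain ⟨y, hy1, hy2, hy3, hy4⟩ := vari (Ov x) (ι → ℝ) (Lab.up (fun k => (x k).l) 1 one_pos A)
    (Lab.up (fun k => (x k).l) 1 one_pos B) (GdC x) (fun k ω ω' c h1 h2 hZ h => GdC_inv x k ω ω' c h1 h2 hZ h)
    (fex Φ x D) D hf1
    (fun z hz => (Lab.nul_over (fun k => (x k).l) 1 one_pos).mpr (hκ.triv hA z hz))
    CA 0 C (by linarith) hC1 (by linarith) εA εB hεA hεB sA (by
      filter_upwards [sB] with k hk z hz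
      rw [zero_mul, sub_zero]
      exact hk z hz) y₀ h₀
  apply no_gain (y := y) hsm D hD hx hy1 hy2 (θ / 4) (by linarith)
  have hlim : Tendsto (fun k => (y₀ k).E (fex Φ x D k) - C * ((y₀ k).l.info / ((Ov x).F k).n)) UF (𝓝 (e - C * i)) :=
    (ul_tendsto hUE).sub ((ul_tendsto hU).const_mul C)
  have h5 : θ / 4 < e - C * i := by rw [hθ] at *; linarith
  filter_upwards [hy4, hlim.eventually (lt_mem_nhds h5)] with k a b
  linarith

end

end Pool.Agent.Helper48.NS
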