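import Pool.Agent.Helper48.NS.Dlf
import Pool.Agent.Helper42.NS.Hfb
import Pool.Agent.Helper3.LF.Eta

/-! THEOREM DEGREE for leaves in space over robust systems: the depth is counted from the thickness `eta`. -/

set_option autoImplicit false

namespace Pool.Agent.Helper48.NS

open Finset Filter Topology Matrix Pool.Agent.Helper69.RK Pool.Agent.Helper31.EC Pool.Agent.Helper40.EL
open Pool.Agent.Helper89.LX Pool.Agent.Helper3.LF Pool.Agent.Helper59.LF Pool.Agent.Helper42.NS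
open Pool.Agent.Helper95.LF (PdM)

noncomputable section

variable {S : Sp} {m D : ℕ} {s : Sys S m}

/-- in a robust system the gradient of every bounding form of the window `c` is typically at most the thickness -/
theorem sga_eta (hs : RobH s) {c : ℝ} {x : ∀ k, FD (S.F k) (Mon (m + 1) D)}
    (hx : (gau s D).Ad (cA s c) (cB s) x) (δ : ℝ) (hδ : 0 < δ) :
    Tendsto (fun k => (x k).l.T.pb (fun ω =>
      ¬ sga s D k ((x k).l.p.π ω) ((x k).g ω) ≤ 2 ^ (2 * (eta s D c + δ) * (S.F k).n))) UF (𝓝 0) := by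
  classical
  set P : ℕ → ℝ := fun k => (x k).l.T.pb (fun ω =>
      ¬ sga s D k ((x k).l.p.π ω) ((x k).g ω) ≤ 2 ^ (2 * (eta s D c + δ) * (S.F k).n)) with hP
  have hU : UB P := UB_of_nonneg_le (C := 1) (Eventually.of_forall fun k => (x k).l.T.pb_nonneg _)
    (Eventually.of_forall fun k => (x k).l.T.pb_le_one _)
  have hlim := ul_tendsto hU
  have h0 : 0 ≤ ul P := ge_of_tendsto hlim (Eventually.of_forall fun k => (x k).l.T.pb_nonneg _)
  rcases h0.eq_or_lt with h1 | h1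
  · rw [← h1] at hlim
    exact hlim
  exfalso
  have hmem : ul P ∈ psiS (GD m D) s c (eta s D c + δ) := by
    intro η hη
    filter_upwards [hx η hη, hlim.eventually (lt_mem_nhds (show ul P - η < ul P by linarith))] with k a b
    have hn := (S.F k).pos
    refine ⟨ofFD (x k) (fun ω hω => (a.2.2.1 ω hω).1), a.1, a.2.1, pb_of_compl a.2.2.2.1, ?_⟩
    refine b.le.trans ?_
    show (x k).l.T.pb _ ≤ (x k).l.T.pb _
    apply FSp.pb_mono
    intro ω _ h2
    refine le_trans ?_ (not_le.mp h2).le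
    show (2 : ℝ) ^ (2 * (eta s D c + δ - η) * (S.F k).n) ≤ _
    apply Real.rpow_le_rpow_of_exponent_le (by norm_num)
    nlinarith
  have h2 : 0 < psi (GD m D) s c (eta s D c + δ) := h1.trans_le (le_psi s hmem)
  have h3 : HH (GD m D) s c (eta s D c + δ) := RobustG.HH_of_pos hs D h2
  have h4 := le_eta (Hf_of_HH h3)
  linarith

/-- THEOREM DEGREE for leaves in space: over the maximal label `kappa_c` of a robust system no full polynomial leaf
of any degree contains the point to the precision `eta(c) + (1 - e) E` -/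
theorem degree_leaf_eta (hD : 1 ≤ D) (hcard : Fintype.card (Mon m (m * D)) < Fintype.card (Mon (m + 1) D)) {c : ℝ}
    (h0 : 0 ≤ c) (h1 : c < 1) (hs : RobH s) {x : ∀ k, FD (S.F k) (Mon (m + 1) D)} (hx : IsCan s D c x) (E e : ℝ)
    (hE : 0 < E) (hσE : eta s D c + E ≤ 1) (he0 : 0 < e) (K : ℕ) (hK : 1 ≤ K)
    (he : ((m * D + 1 : ℕ) : ℝ) * (D + 2) * ((m * ((D * K : ℕ) : ℝ) + 3) * (2 * e)) < 1)
    (l : ∀ k, FLab ((Ov x).F k)) (hU : UB (fun k => (l k).info / (S.F k).n))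
    (hl : ul (fun k => (l k).info / (S.F k).n) ≤ e * E) (X : ∀ k, (l k).T.Ω → Fin m → ℝ)
    (Φ : ∀ k, (l k).T.Ω → Fin (m + 1) → MvPolynomial (Fin m) ℝ) (hΦd : ∀ k ω i, (Φ k ω i).totalDegree ≤ K)
    (hΦ : ∀ k ω ω', (l k).T.μ ω ≠ 0 → (l k).T.μ ω' ≠ 0 → (l k).V ω ω' → (l k).T.Z ω ω' → Φ k ω = Φ k ω')
    (hev : ∀ᶠ k in UF, (l k).T.pb (fun ω => ¬ LeafP s x k (l k) (eta s D c) E e (X k) (Φ k) ω) ≤ e)
    (hful : ∀ᶠ k in UF, (m * (E / ((m * D + 1 : ℕ) : ℝ)) - e ^ 2 * E) * (S.F k).n ≤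
      (l k).T.e (Setoid.ker (fun ω => ucell (2 ^ (-(E / ((m * D + 1 : ℕ) : ℝ) * (S.F k).n))) (X k ω)))
        ((l k).V ⊓ (l k).T.Z)) : False := by
  have h2 := eta_ge_self (s := s) hD h0 h1.le
  exact degree_leaf hD hcard h0 h1 hx (eta s D c) E e (fun δ hδ => sga_eta hs hx.1.1 δ hδ) hE (by linarith) hσE
    he0 K hK he l hU hl X Φ hΦd hΦ hev hful

end

end Pool.Agent.Helper48.NS
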