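import Pool.Agent.Helper48.NS.Dvec

/-! THEOREM COST, subspace form: if the values of the monomials at the point are in a proper subspace, which is a
function of a label of information `i`, up to `2 ^ (-b n)` in the canonical form, then `(1 - e) b ≤ D i`. (DEGREE) -/

set_option autoImplicit false

namespace Pool.Agent.Helper48.NS

open Finset Filter Topology Matrix Pool.Agent.Helper69.RK Pool.Agent.Helper31.EC Pool.Agent.Helper40.EL
open Pool.Agent.Helper89.LX Pool.Agent.Helper3.LF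
open Pool.Agent.Helper95.LF (PdM)

noncomputable section

/-- a chosen linear form which vanishes on a subspace -/
def vanf {ι : Type} [Fintype ι] [DecidableEq ι] (W : Submodule ℝ (ι → ℝ)) : ι → ℝ :=
  open Classical in if h : ∃ c : ι → ℝ, c ≠ 0 ∧ ∀ u ∈ W, c ⬝ᵥ u = 0 then h.choose else 0

theorem vanf_spec {ι : Type} [Fintype ι] [DecidableEq ι] (W : Submodule ℝ (ι → ℝ)) (hW : W ≠ ⊤) :
    vanf W ≠ 0 ∧ ∀ u ∈ W, vanf W ⬝ᵥ u = 0 := by
  classical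
  have h := exists_van W hW
  unfold vanf
  rw [dif_pos h]
  exact h.choose_spec

variable {S : Sp} {m D : ℕ} (s : Sys S m)

theorem deg_sub (hD : 1 ≤ D) {c : ℝ} (h0 : 0 ≤ c) (h1 : c < 1) (E₀ : ℝ) (hE0 : 0 ≤ E₀) (hE1 : E₀ ≤ D * (1 - c))
    {x : ∀ k, FD (S.F k) (Mon (m + 1) D)} (hx : IsCan s D c x) (l : ∀ k, FLab ((Ov x).F k))
    (hU : UB (fun k => (l k).info / ((Ov x).F k).n)) (W : ∀ k, (l k).T.Ω → Submodule ℝ (Mon (m + 1) D → ℝ))
    (hm : ∀ k ω ω', (l k).T.μ ω ≠ 0 → (l k).T.μ ω' ≠ 0 → (l k).V ω ω' → (l k).T.Z ω ω' → W k ω = W k ω')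
    (b e : ℝ) (he : e ≤ 1)
    (hc : ∀ᶠ k in UF, (l k).T.pb (fun ω => ¬ (W k ω ≠ ⊤ ∧ ∀ j, ∃ u ∈ W k ω,
      qf ((x k).g ((l k).p.π ω)) (ndv s x k ((l k).p.π ω) j - u) ≤ 2 ^ (-(2 * b * (S.F k).n)))) ≤ e) :
    (1 - e) * min b E₀ ≤ D * ul (fun k => (l k).info / ((Ov x).F k).n) := by
  refine deg_vec s hD h0 h1 E₀ hE0 hE1 hx l hU (fun k ω => vanf (W k ω)) (by
    intro k ω ω' a1 a2 a3 a4
    rw [hm k ω ω' a1 a2 a3 a4]) b e 1 he zero_le_one ?_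
  filter_upwards [hc] with k hk
  refine le_trans ((l k).T.pb_mono ?_) hk
  intro ω _ hneg hgood
  apply hneg
  obtain ⟨f1, f2⟩ := hgood
  obtain ⟨v1, v2⟩ := vanf_spec (W k ω) f1
  refine ⟨v1, fun a ha j => ?_⟩
  obtain ⟨u, hu, hu2⟩ := f2 j
  have h2 := ha (ndv s x k ((l k).p.π ω) j - u)
  have h3 : (a • vanf (W k ω)) ⬝ᵥ (ndv s x k ((l k).p.π ω) j - u) =
      (a • vanf (W k ω)) ⬝ᵥ ndv s x k ((l k).p.π ω) j := by
    rw [dotProduct_sub]
    have h4 : (a • vanf (W k ω)) ⬝ᵥ u = 0 := by rw [smul_dotProduct, v2 u hu, smul_zero]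
    rw [h4, sub_zero]
  rw [h3] at h2
  rw [one_mul]
  exact h2.trans hu2

end

end Pool.Agent.Helper48.NS
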