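import Pool.Agent.Helper48.NS.Dful
import Mathlib.Analysis.ODE.Gronwall

/-! Closeness in space gives closeness in the gauge of a form which dominates its derivatives (Gronwall). -/

set_option autoImplicit false

namespace Pool.Agent.Helper48.NS

open Finset Filter Topology Matrix Pool.Agent.Helper69.RK Pool.Agent.Helper31.EC Pool.Agent.Helper40.EL
open Pool.Agent.Helper89.LX Pool.Agent.Helper3.LF Pool.Agent.Helper59.LF
open Pool.Agent.Helper95.LF (PdM)

noncomputable section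

section Tm

variable {N D : ℕ}

/-- the matrix of the derivative `∂ᵢ` on monomials -/
def Tm (i : Fin N) : Matrix (Mon N D) (Mon N D) ℝ :=
  Matrix.of fun a b => (exists_pol (MvPolynomial.pderiv i a.mon) (pderiv_tdeg a.mon (mon_deg a) i)).choose b

theorem dd_eq (i : Fin N) (p : Fin N → ℝ) : (dd i p : Mon N D → ℝ) = Tm i *ᵥ vv p := by
  funext a
  have h := (exists_pol (MvPolynomial.pderiv i a.mon) (pderiv_tdeg a.mon (mon_deg a) i)).choose_spec
  show MvPolynomial.eval p (MvPolynomial.pderiv i a.mon) = _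
  conv_lhs => rw [h]
  rw [eval_pol]
  rfl

/-- derivative of the monomial vector along a line -/
theorem vv_deriv (p h : Fin N → ℝ) (a : Mon N D) (τ : ℝ) :
    HasDerivAt (fun τ : ℝ => vv (fun k => p k + τ * h k) a)
      (∑ i, h i * dd i (fun k => p k + τ * h k) a) τ := by
  have h1 := (lin p h a.mon).hasDerivAt τ
  have h2 : (fun τ : ℝ => vv (fun k => p k + τ * h k) a) = fun τ => (lin p h a.mon).eval τ := by
    funext τ
    rw [eval_lin]
    rfl
  have h3 : ∑ i, h i * dd i (fun k => p k + τ * h k) a = (Polynomial.derivative (lin p h a.mon)).eval τ := by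
    rw [deriv_lin, Polynomial.eval_finsetSum]
    refine Finset.sum_congr rfl fun i _ => ?_
    rw [Polynomial.eval_mul, Polynomial.eval_C, eval_lin]
    rfl
  rw [h2, h3]
  exact h1

end Tm

section Gro

variable {N D : ℕ} {κ : Type} [Fintype κ]

/-- the vector `C v` as an element of the Euclidean space -/
def ev2 (C : Matrix κ (Mon N D) ℝ) (v : Mon N D → ℝ) : EuclideanSpace ℝ κ := WithLp.toLp 2 (C *ᵥ v)

theorem ev2_norm (C : Matrix κ (Mon N D) ℝ) (v : Mon N D → ℝ) : ‖ev2 C v‖ ^ 2 = (C *ᵥ v) ⬝ᵥ (C *ᵥ v) := by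
  unfold ev2
  rw [EuclideanSpace.norm_sq_eq]
  unfold dotProduct
  refine Finset.sum_congr rfl fun i _ => ?_
  rw [Real.norm_eq_abs, sq_abs, sq]

theorem ev2_sub (C : Matrix κ (Mon N D) ℝ) (v w : Mon N D → ℝ) : ev2 C (v - w) = ev2 C v - ev2 C w := by
  unfold ev2
  rw [Matrix.mulVec_sub]
  rfl

theorem ev2_smul (C : Matrix κ (Mon N D) ℝ) (c : ℝ) (v : Mon N D → ℝ) : ev2 C (c • v) = c • ev2 C v := by
  unfold ev2
  rw [Matrix.mulVec_smul]
  rfl

theorem ev2_sum (C : Matrix κ (Mon N D) ℝ) {α : Type} (s : Finset α) (v : α → Mon N D → ℝ) :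
    ev2 C (∑ i ∈ s, v i) = ∑ i ∈ s, ev2 C (v i) := by
  classical
  induction s using Finset.induction_on with
  | empty =>
    simp only [Finset.sum_empty]
    unfold ev2
    rw [Matrix.mulVec_zero]
    rfl
  | insert a s ha ih =>
    rw [Finset.sum_insert ha, Finset.sum_insert ha, ← ih]
    unfold ev2
    rw [Matrix.mulVec_add]
    rfl

theorem ev2_deriv (C : Matrix κ (Mon N D) ℝ) (p h : Fin N → ℝ) (τ : ℝ) :
    HasDerivAt (fun τ : ℝ => ev2 C (vv (fun k => p k + τ * h k)))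
      (∑ i, h i • ev2 C (dd i (fun k => p k + τ * h k))) τ := by
  have h0 : ∑ i, h i • ev2 C (dd i (fun k => p k + τ * h k)) =
      WithLp.toLp 2 (C *ᵥ (fun a => ∑ i, h i * dd i (fun k => p k + τ * h k) a)) := by
    have h1 : (fun a => ∑ i, h i * (dd i (fun k => p k + τ * h k) : Mon N D → ℝ) a) =
        ∑ i, h i • (dd i (fun k => p k + τ * h k) : Mon N D → ℝ) := by
      funext a
      rw [Finset.sum_apply]
      rfl
    rw [h1]
    show _ = ev2 C (∑ i, h i • (dd i (fun k => p k + τ * h k) : Mon N D → ℝ))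
    rw [ev2_sum]
    exact Finset.sum_congr rfl fun i _ => (ev2_smul _ _ _).symm
  rw [h0]
  have h2 : HasDerivAt (fun τ : ℝ => C *ᵥ vv (fun k => p k + τ * h k))
      (C *ᵥ (fun a => ∑ i, h i * dd i (fun k => p k + τ * h k) a)) τ := by
    rw [hasDerivAt_pi]
    intro j
    unfold Matrix.mulVec dotProduct
    apply HasDerivAt.fun_sum
    intro a _
    exact (vv_deriv p h a τ).const_mul (C j a)
  exact (PiLp.hasFDerivAt_toLp (𝕜 := ℝ) 2 _).comp_hasDerivAt τ h2

/-- Gronwall: a path whose speed is at most `K` times its norm moves at most `2 K` times its norm -/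
theorem gro_ab {E : Type} [NormedAddCommGroup E] [NormedSpace ℝ E] (F F' : ℝ → E)
    (hder : ∀ τ, HasDerivAt F (F' τ) τ) (K : ℝ) (hK0 : 0 ≤ K) (hK : K ≤ 1) (hbd : ∀ τ, ‖F' τ‖ ≤ K * ‖F τ‖) :
    ‖F 1 - F 0‖ ≤ 2 * K * ‖F 0‖ := by
  have hd : ∀ τ, HasDerivAt (fun τ => F τ - F 0) (F' τ) τ := fun τ => (hder τ).sub_const (F 0)
  have hg := norm_le_gronwallBound_of_norm_deriv_right_le (f := fun τ => F τ - F 0) (f' := F') (δ := 0) (K := K)
    (ε := K * ‖F 0‖) (a := 0) (b := 1) (fun τ _ => (hd τ).continuousAt.continuousWithinAt)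
    (fun τ _ => (hd τ).hasDerivWithinAt) (by simp) (fun τ _ => by
      refine (hbd τ).trans ?_
      rw [← mul_add]
      apply mul_le_mul_of_nonneg_left _ hK0
      have := norm_sub_norm_le (F τ) (F 0)
      linarith) 1 (by norm_num)
  refine hg.trans ?_
  unfold gronwallBound
  split_ifs with hk
  · rw [hk]; simp
  · have h3 := Real.abs_exp_sub_one_le (x := K) (by rw [abs_of_nonneg hK0]; exact hK)
    rw [abs_of_nonneg hK0] at h3
    have h4 := (le_abs_self _).trans h3
    have h5 : K * ‖F 0‖ / K = ‖F 0‖ := by field_simp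
    rw [h5, sub_zero, mul_one, zero_mul, zero_add]
    have := norm_nonneg (F 0)
    nlinarith

/-- Gronwall: if the norm of the form bounds the derivatives, small moves are small in the gauge -/
theorem gro_C (C : Matrix κ (Mon N D) ℝ) (B r : ℝ) (hr : 0 ≤ r) (hB : 0 ≤ B)
    (hT : ∀ i v, ‖ev2 C (Tm i *ᵥ v)‖ ≤ B * ‖ev2 C v‖) (p h : Fin N → ℝ) (hh : ∀ i, |h i| ≤ r)
    (hK : N * B * r ≤ 1) :
    ‖ev2 C (vv (fun k => p k + h k)) - ev2 C (vv p)‖ ≤ 2 * (N * B * r) * ‖ev2 C (vv p)‖ := by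
  have h1 := gro_ab (fun τ : ℝ => ev2 C (vv (fun k => p k + τ * h k)))
    (fun τ => ∑ i, h i • ev2 C (dd i (fun k => p k + τ * h k))) (fun τ => ev2_deriv C p h τ) (N * B * r)
    (by positivity) hK (fun τ => by
      refine (norm_sum_le _ _).trans ?_
      have h1 : ∀ i ∈ (Finset.univ : Finset (Fin N)), ‖h i • ev2 C (dd i (fun k => p k + τ * h k))‖ ≤
          r * (B * ‖ev2 C (vv (fun k => p k + τ * h k))‖) := by
        intro i _
        rw [norm_smul, dd_eq]
        exact mul_le_mul (hh i) (hT i _) (norm_nonneg _) hr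
      refine (Finset.sum_le_card_nsmul _ _ _ h1).trans (le_of_eq ?_)
      rw [Finset.card_univ, Fintype.card_fin, nsmul_eq_mul]
      ring)
  have e0 : (fun k => p k + (0 : ℝ) * h k) = p := by
    funext k
    ring
  have e1 : (fun k => p k + (1 : ℝ) * h k) = fun k => p k + h k := by
    funext k
    ring
  simp only [e0, e1] at h1
  exact h1

/-- the same for positive definite forms -/
theorem gro_A (A : Matrix (Mon N D) (Mon N D) ℝ) (hA : PdM A) (B r : ℝ) (hr : 0 ≤ r) (hB : 0 ≤ B)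
    (hT : ∀ i v, qf A (Tm i *ᵥ v) ≤ B ^ 2 * qf A v) (p h : Fin N → ℝ) (hh : ∀ i, |h i| ≤ r)
    (hK : N * B * r ≤ 1) :
    qf A (vv (fun k => p k + h k) - vv p) ≤ (2 * (N * B * r)) ^ 2 * qf A (vv p) := by
  classical
  obtain ⟨C, hC, -⟩ := exists_rows A hA
  have h1 : ∀ v, qf A v = ‖ev2 C v‖ ^ 2 := by
    intro v
    rw [ev2_norm]
    unfold qf
    rw [hC, qf_rows]
    unfold Matrix.mulVec
    refine Finset.sum_congr rfl fun k _ => ?_
    rw [pow_two]
  have h2 : ∀ i v, ‖ev2 C (Tm i *ᵥ v)‖ ≤ B * ‖ev2 C v‖ := by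
    intro i v
    apply le_of_sq_le_sq _ (mul_nonneg hB (norm_nonneg _))
    rw [mul_pow, ← h1, ← h1]
    exact hT i v
  have h3 := gro_C C B r hr hB h2 p h hh hK
  rw [h1, h1, ev2_sub, ← mul_pow]
  exact pow_le_pow_left₀ (norm_nonneg _) h3 2

end Gro

end

end Pool.Agent.Helper48.NS
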