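import Pool.Agent.Helper48.NS.Cost

/-! THEOREM COST in the form used for THEOREM DEGREE: a label of information `i` which carries a nonzero linear form
that is small at the point has `(1 - e) b ≤ D i`; subspace form. (DEGREE) -/

set_option autoImplicit false

namespace Pool.Agent.Helper48.NS

open Finset Filter Topology Matrix Pool.Agent.Helper69.RK Pool.Agent.Helper31.EC Pool.Agent.Helper40.EL
open Pool.Agent.Helper89.LX Pool.Agent.Helper3.LF
open Pool.Agent.Helper95.LF (PdM)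

noncomputable section

theorem ex_ge {n D b F : ℝ} (hn : 0 < n) (h : F ≤ 2 ^ (-(2 * b * n))) : min b D ≤ ex n D F := by
  have h1 : cl n D F ≤ 2 ^ (-(2 * min b D * n)) := by
    refine max_le ?_ ((min_le_right _ _).trans (h.trans ?_))
    · apply Real.rpow_le_rpow_of_exponent_le (by norm_num)
      have := min_le_right b D
      nlinarith
    · apply Real.rpow_le_rpow_of_exponent_le (by norm_num)
      have := min_le_left b D
      nlinarith
  have h2 := Real.logb_le_logb_of_le (b := 2) (by norm_num) cl_pos h1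
  rw [Real.logb_rpow (by norm_num) (by norm_num)] at h2
  unfold ex
  rw [le_div_iff₀ (by linarith)]
  linarith

theorem CL.E_ge {F : FSp} {X : Type} (y : CL F X) (f : F.Ω → X → ℝ) (B : y.l.T.Ω → Prop) (b : ℝ)
    (hf : ∀ ω c, 0 ≤ f ω c) (h : ∀ ω, y.l.T.μ ω ≠ 0 → ¬ B ω → b ≤ f (y.l.p.π ω) (y.c ω)) :
    b * (1 - y.l.T.pb B) ≤ y.E f := by
  classical
  have h1 := y.l.T.pb_add_compl B
  have h2 : 1 - y.l.T.pb B = y.l.T.pb (fun ω => ¬ B ω) := by linarith
  rw [h2]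
  unfold FSp.pb mass CL.E
  rw [Finset.mul_sum]
  refine Finset.sum_le_sum fun ω _ => ?_
  by_cases hB : B ω
  · rw [res_neg y.l.T.μ (fun ω => ¬ B ω) ω (not_not.mpr hB), mul_zero]
    exact mul_nonneg (y.l.T.nn ω) (hf _ _)
  · rw [res_pos y.l.T.μ (fun ω => ¬ B ω) ω hB]
    by_cases h0 : y.l.T.μ ω = 0
    · rw [h0, mul_zero, zero_mul]
    · rw [mul_comm]
      exact mul_le_mul_of_nonneg_left (h ω h0 hB) (y.l.T.nn ω)

section Lin

variable {ι : Type} [Fintype ι] [DecidableEq ι]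

omit [DecidableEq ι] in
/-- Cauchy inequality for a form and a vector of size one -/
theorem cs_one {A : Matrix ι ι ℝ} (hA : A.IsSymm) (h0 : ∀ v, 0 ≤ qf A v) (w : ι → ℝ) (hw : qf A w = 1) (v : ι → ℝ) :
    ((A *ᵥ w) ⬝ᵥ v) ^ 2 ≤ qf A v := by
  set t := (A *ᵥ w) ⬝ᵥ v with ht
  have e1 : w ⬝ᵥ (A *ᵥ v) = t := by
    rw [ht, Matrix.dotProduct_mulVec, ← Matrix.mulVec_transpose, hA]
  have h1 := h0 (v - t • w)
  have e2 : qf A (v - t • w) = qf A v - t * (v ⬝ᵥ (A *ᵥ w)) - t * (w ⬝ᵥ (A *ᵥ v)) + t ^ 2 * qf A w := by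
    unfold qf
    rw [Matrix.mulVec_sub, Matrix.mulVec_smul, sub_dotProduct, dotProduct_sub, dotProduct_sub, dotProduct_smul,
      smul_dotProduct, smul_dotProduct, dotProduct_smul]
    simp only [smul_eq_mul]
    ring
  have e3 : v ⬝ᵥ (A *ᵥ w) = t := by rw [ht, dotProduct_comm]
  rw [e2, e1, e3, hw] at h1
  nlinarith

/-- every nonzero linear form has a positive multiple which is a unit combination -/
theorem exists_unit {A : Matrix ι ι ℝ} (hA : A.IsSymm) (hp : ∀ v, v ≠ 0 → 0 < qf A v) (c : ι → ℝ) (hc : c ≠ 0) :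
    ∃ a : ℝ, a ≠ 0 ∧ UnitC A (a • c) := by
  have hnn : ∀ v, 0 ≤ qf A v := by
    intro v
    by_cases h : v = 0
    · rw [h]
      unfold qf
      rw [Matrix.mulVec_zero, dotProduct_zero]
    · exact (hp v h).le
  have hinj : Function.Injective A.mulVec := by
    intro u v huv
    by_contra hne
    have h1 := hp (u - v) (sub_ne_zero.mpr hne)
    unfold qf at h1
    have h2 : A *ᵥ (u - v) = 0 := by
      rw [Matrix.mulVec_sub]
      exact sub_eq_zero.mpr huv
    rw [h2, dotProduct_zero] at h1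
    exact lt_irrefl _ h1
  have hunit : IsUnit A := Matrix.mulVec_injective_iff_isUnit.mp hinj
  obtain ⟨w, hw⟩ := (Matrix.mulVec_surjective_iff_isUnit.mpr hunit) c
  have hw' : A *ᵥ w = c := hw
  have hw0 : w ≠ 0 := by
    intro h
    rw [h, Matrix.mulVec_zero] at hw'
    exact hc hw'.symm
  have hq := hp w hw0
  set q := qf A w with hqd
  set a := (Real.sqrt q)⁻¹ with ha
  have hs : 0 < Real.sqrt q := Real.sqrt_pos.mpr hq
  have ha0 : a ≠ 0 := inv_ne_zero hs.ne'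
  have ha2 : a ^ 2 * q = 1 := by
    rw [ha, inv_pow, Real.sq_sqrt hq.le, inv_mul_cancel₀ hq.ne']
  have e1 : qf A (a • w) = 1 := by
    unfold qf
    rw [Matrix.mulVec_smul, dotProduct_smul, smul_dotProduct, smul_eq_mul, smul_eq_mul, ← ha2, hqd]
    unfold qf
    ring
  have e2 : A *ᵥ (a • w) = a • c := by rw [Matrix.mulVec_smul, hw']
  refine ⟨a, ha0, fun v => ?_, a • w, smul_ne_zero ha0 hw0, ?_⟩
  · rw [← e2]
    exact cs_one hA hnn _ e1 v
  · rw [← e2, e1, dotProduct_comm]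
    have e3 : (a • w) ⬝ᵥ (A *ᵥ (a • w)) = 1 := e1
    rw [e3]
    norm_num

/-- the multiple -/
def uco (A : Matrix ι ι ℝ) (c : ι → ℝ) : ℝ :=
  open Classical in if h : ∃ a : ℝ, a ≠ 0 ∧ UnitC A (a • c) then h.choose else 0

theorem uco_spec {A : Matrix ι ι ℝ} (hA : A.IsSymm) (hp : ∀ v, v ≠ 0 → 0 < qf A v) (c : ι → ℝ) (hc : c ≠ 0) :
    UnitC A (uco A c • c) := by
  classical
  have h := exists_unit hA hp c hc
  unfold uco
  rw [dif_pos h]
  exact h.choose_spec.2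

/-- a nonzero form which vanishes on a proper subspace -/
theorem exists_van (W : Submodule ℝ (ι → ℝ)) (hW : W ≠ ⊤) : ∃ c : ι → ℝ, c ≠ 0 ∧ ∀ u ∈ W, c ⬝ᵥ u = 0 := by
  obtain ⟨f, hf, hf2⟩ := Submodule.exists_le_ker_of_lt_top W (lt_top_iff_ne_top.mpr hW)
  refine ⟨fun i => f (Pi.single i 1), ?_, ?_⟩
  · intro h
    apply hf
    apply LinearMap.pi_ext'
    intro i
    apply LinearMap.ext_ring
    have := congrFun h i
    simpa using this
  · intro u hu
    have h1 : f u = 0 := hf2 hu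
    rw [← h1]
    conv_rhs => rw [pi_eq_sum_univ' u]
    rw [map_sum]
    unfold dotProduct
    refine Finset.sum_congr rfl fun i _ => ?_
    rw [map_smul, smul_eq_mul, mul_comm]

end Lin

variable {S : Sp} {m D : ℕ} (s : Sys S m)

/-- node number `j` at the point -/
def ndv (x : ∀ k, FD (S.F k) (Mon (m + 1) D)) (k : ℕ) (ω : ((Ov x).F k).Ω) (j : Fin (m + 1) → Fin (D + 1)) :
    Mon (m + 1) D → ℝ := vv (nodp D (ptf s k ((x k).l.p.π ω)) (S.dl 1 k) j)

theorem phi_ndv (x : ∀ k, FD (S.F k) (Mon (m + 1) D)) (k : ℕ) (ω : ((Ov x).F k).Ω) (c : Mon (m + 1) D → ℝ) :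
    sph s D k ((x k).l.p.π ω) (cc c) = ∑ j, (c ⬝ᵥ ndv s x k ω j) ^ 2 := by
  unfold sph phi ndv
  refine Finset.sum_congr rfl fun j _ => ?_
  exact qf_cc _ _

/-- THEOREM COST for labels which carry a nonzero linear form that is small at the point -/
theorem deg_vec (hD : 1 ≤ D) {c : ℝ} (h0 : 0 ≤ c) (h1 : c < 1) (E₀ : ℝ) (hE0 : 0 ≤ E₀) (hE1 : E₀ ≤ D * (1 - c))
    {x : ∀ k, FD (S.F k) (Mon (m + 1) D)} (hx : IsCan s D c x) (l : ∀ k, FLab ((Ov x).F k))
    (hU : UB (fun k => (l k).info / ((Ov x).F k).n)) (c₀ : ∀ k, (l k).T.Ω → Mon (m + 1) D → ℝ)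
    (hm : ∀ k ω ω', (l k).T.μ ω ≠ 0 → (l k).T.μ ω' ≠ 0 → (l k).V ω ω' → (l k).T.Z ω ω' → c₀ k ω = c₀ k ω')
    (b e K : ℝ) (he : e ≤ 1) (hK : 0 ≤ K)
    (hc : ∀ᶠ k in UF, (l k).T.pb (fun ω => ¬ (c₀ k ω ≠ 0 ∧ ∀ a : ℝ,
      (∀ v, ((a • c₀ k ω) ⬝ᵥ v) ^ 2 ≤ qf ((x k).g ((l k).p.π ω)) v) → ∀ j,
        ((a • c₀ k ω) ⬝ᵥ ndv s x k ((l k).p.π ω) j) ^ 2 ≤ K * 2 ^ (-(2 * b * (S.F k).n)))) ≤ e) :
    (1 - e) * min b E₀ ≤ D * ul (fun k => (l k).info / ((Ov x).F k).n) := by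
  classical
  -- a default coefficient
  set d₀ : Mon (m + 1) D → ℝ := fun _ => 1 with hd₀
  have hd₀0 : d₀ ≠ 0 := by
    intro h
    have := congrFun h (Classical.arbitrary _)
    norm_num [hd₀] at this
  set c₁ : ∀ k, (l k).T.Ω → Mon (m + 1) D → ℝ := fun k ω => if c₀ k ω = 0 then d₀ else c₀ k ω with hc₁
  have hc₁0 : ∀ k ω, c₁ k ω ≠ 0 := by
    intro k ω
    rw [hc₁]
    by_cases h : c₀ k ω = 0
    · simp only [h, if_true]; exact hd₀0
    · simp only [h, if_false]; exact h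
  set y : ∀ k, CL ((Ov x).F k) (Mon (m + 1) D → ℝ) := fun k =>
    { l := l k
      c := fun ω => uco ((x k).g ((l k).p.π ω)) (c₁ k ω) • c₁ k ω
      meas := by
        intro ω ω' a1 a2 a3 a4
        have b1 := (l k).p.supp ω a1
        have b2 := (l k).p.supp ω' a2
        have b3 : ((Ov x).F k).Z ((l k).p.π ω) ((l k).p.π ω') := ((l k).p.hZ ω ω' a1 a2).mp a4
        have b4 : (x k).l.V ((l k).p.π ω) ((l k).p.π ω') ∧ (x k).l.T.Z ((l k).p.π ω) ((l k).p.π ω') := b3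
        have b5 := ((x k).meas _ _ b1 b2 b4.1 b4.2).1
        have b6 := hm k ω ω' a1 a2 a3 a4
        have b7 : c₁ k ω = c₁ k ω' := by
          rw [hc₁]
          simp only [b6]
        rw [b5, b7] } with hy
  have hcpd : ∀ᶠ k in UF, ∀ ω, (x k).l.T.μ ω ≠ 0 → Cpd ((gau s D).cp k) ((x k).g ω) := by
    filter_upwards [hx.1.1 1 one_pos] with k hk ω hω
    exact (hk.2.2.1 ω hω).1
  have hgood : ∀ᶠ k in UF, (y k).Good (GdC x k) := by
    filter_upwards [hcpd] with k hk ω hω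
    have h2 := hk _ ((l k).p.supp ω hω)
    exact uco_spec h2.1 (fun v hv => h2.pd hv) _ (hc₁0 k ω)
  have key := cost_sys s hD h0 h1 E₀ hE0 hE1 hx y hgood hU
  have hR0 : Tendsto (fun k => Real.logb 2 (nn (m + 1) D * K + 1) / (2 * (S.F k).n)) UF (𝓝 0) := by
    have := S.div_n_tendsto (Real.logb 2 (nn (m + 1) D * K + 1) / 2)
    refine this.congr fun k => ?_
    ring
  have hnn1 := nn_one (m + 1) D
  have hlow : ∀ᶠ k in UF, (min b E₀ - Real.logb 2 (nn (m + 1) D * K + 1) / (2 * (S.F k).n)) * (1 - e) ≤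
      (y k).E (fex (gau s D) x E₀ k) := by
    filter_upwards [hc, hcpd] with k hk hcp
    have hn := (S.F k).pos
    set B : (l k).T.Ω → Prop := fun ω => ¬ (c₀ k ω ≠ 0 ∧ ∀ a : ℝ,
      (∀ v, ((a • c₀ k ω) ⬝ᵥ v) ^ 2 ≤ qf ((x k).g ((l k).p.π ω)) v) → ∀ j,
        ((a • c₀ k ω) ⬝ᵥ ndv s x k ((l k).p.π ω) j) ^ 2 ≤ K * 2 ^ (-(2 * b * (S.F k).n))) with hB
    have hκ : 1 ≤ nn (m + 1) D * K + 1 := by
      have : 0 ≤ nn (m + 1) D * K := mul_nonneg (by linarith) hK
      linarith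
    have hlog : 0 ≤ Real.logb 2 (nn (m + 1) D * K + 1) / (2 * (S.F k).n) :=
      div_nonneg (Real.logb_nonneg (by norm_num) hκ) (by linarith)
    by_cases hneg : min b E₀ - Real.logb 2 (nn (m + 1) D * K + 1) / (2 * (S.F k).n) ≤ 0
    · have e1 : (min b E₀ - Real.logb 2 (nn (m + 1) D * K + 1) / (2 * (S.F k).n)) * (1 - e) ≤ 0 :=
        mul_nonpos_of_nonpos_of_nonneg hneg (by linarith)
      refine e1.trans ?_
      unfold CL.E
      exact Finset.sum_nonneg fun ω _ => mul_nonneg ((y k).l.T.nn ω) (ex_nonneg hn hE0)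
    · have hpos := not_le.mp hneg
      have h3 := (y k).E_ge (fex (gau s D) x E₀ k) B
        (min b E₀ - Real.logb 2 (nn (m + 1) D * K + 1) / (2 * (S.F k).n)) (fun ω c => ex_nonneg hn hE0) (by
          intro ω hω hBω
          rw [hB, not_not] at hBω
          obtain ⟨hc0, hs⟩ := hBω
          have hc1 : c₁ k ω = c₀ k ω := by
            rw [hc₁]
            simp only [hc0, if_false]
          have hcp' := hcp _ ((l k).p.supp ω hω)
          have hu := uco_spec hcp'.1 (fun v hv => hcp'.pd hv) _ (hc₁0 k ω)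
          have hyc : (y k).c ω = uco ((x k).g ((l k).p.π ω)) (c₁ k ω) • c₁ k ω := rfl
          have h5 : ∀ j, (((y k).c ω) ⬝ᵥ ndv s x k ((l k).p.π ω) j) ^ 2 ≤ K * 2 ^ (-(2 * b * (S.F k).n)) := by
            rw [hyc, hc1]
            rw [hc1] at hu
            exact hs _ hu.1
          have h6 : sph s D k ((x k).l.p.π ((l k).p.π ω)) (cc ((y k).c ω)) ≤
              (nn (m + 1) D * K + 1) * 2 ^ (-(2 * b * (S.F k).n)) := by
            rw [phi_ndv]
            refine (Finset.sum_le_card_nsmul _ _ _ fun j _ => h5 j).trans ?_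
            rw [nsmul_eq_mul, card_nodes]
            have hp : (0 : ℝ) < 2 ^ (-(2 * b * (S.F k).n)) := by positivity
            nlinarith
          have h7 := ex_scale (n := (S.F k).n) (D := E₀) hn hκ h6
          have h8 := ex_ge (n := (S.F k).n) (D := E₀) (b := b) (F := 2 ^ (-(2 * b * (S.F k).n))) hn le_rfl
          show _ ≤ ex (S.F k).n E₀ (sph s D k ((x k).l.p.π ((l k).p.π ω)) (cc ((y k).c ω)))
          linarith)
      refine le_trans ?_ h3
      apply mul_le_mul_of_nonneg_left _ hpos.le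
      have : (y k).l.T.pb B ≤ e := hk
      linarith
  have hUE : UB (fun k => (y k).E (fex (gau s D) x E₀ k)) := by
    refine UB_of_nonneg_le (C := E₀) (Eventually.of_forall fun k => ?_) (Eventually.of_forall fun k => ?_)
    · have hn := (S.F k).pos
      unfold CL.E
      exact Finset.sum_nonneg fun ω _ => mul_nonneg ((y k).l.T.nn ω) (ex_nonneg hn hE0)
    · have hn := (S.F k).pos
      unfold CL.E
      calc ∑ ω, (y k).l.T.μ ω * fex (gau s D) x E₀ k ((y k).l.p.π ω) ((y k).c ω)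
          ≤ ∑ ω, (y k).l.T.μ ω * E₀ :=
            Finset.sum_le_sum fun ω _ => mul_le_mul_of_nonneg_left (ex_le hn) ((y k).l.T.nn ω)
        _ = E₀ := by rw [← Finset.sum_mul, (y k).T_mass, one_mul]
  have hlim : Tendsto (fun k => (min b E₀ - Real.logb 2 (nn (m + 1) D * K + 1) / (2 * (S.F k).n)) * (1 - e)) UF
      (𝓝 ((min b E₀ - 0) * (1 - e))) := (tendsto_const_nhds.sub hR0).mul_const _
  have h4 := le_of_tendsto_of_tendsto hlim (ul_tendsto hUE) hlow
  rw [sub_zero] at h4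
  calc (1 - e) * min b E₀ = min b E₀ * (1 - e) := mul_comm _ _
    _ ≤ _ := h4
    _ ≤ _ := key

end

end Pool.Agent.Helper48.NS
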