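import Mathlib

/-! Truncated exponents. (DEGREE) -/

set_option autoImplicit false

namespace Pool.Agent.Helper48.NS

/-- truncated size -/
noncomputable def cl (n D F : ℝ) : ℝ := max ((2 : ℝ) ^ (-(2 * D * n))) (min 1 F)

/-- truncated exponent: `F = 2 ^ (-2 n ex)` for `0 ≤ ex ≤ D` -/
noncomputable def ex (n D F : ℝ) : ℝ := -(Real.logb 2 (cl n D F)) / (2 * n)

variable {n D F F' κ : ℝ}

theorem cl_pos : 0 < cl n D F := lt_of_lt_of_le (by positivity) (le_max_left _ _)

theorem cl_ge : (2 : ℝ) ^ (-(2 * D * n)) ≤ cl n D F := le_max_left _ _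

theorem cl_le_one (hn : 0 < n) (hD : 0 ≤ D) : cl n D F ≤ 1 := by
  refine max_le ?_ (min_le_left _ _)
  apply Real.rpow_le_one_of_one_le_of_nonpos (by norm_num)
  have : 0 ≤ 2 * D * n := by positivity
  linarith

theorem cl_scale (hκ : 1 ≤ κ) (h : F' ≤ κ * F) : cl n D F' ≤ κ * cl n D F := by
  have ha : (0 : ℝ) < (2 : ℝ) ^ (-(2 * D * n)) := by positivity
  refine max_le ?_ ?_
  · have h1 : (2 : ℝ) ^ (-(2 * D * n)) ≤ cl n D F := cl_ge
    have h2 := cl_pos (n := n) (D := D) (F := F)
    nlinarith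
  · have h1 : min 1 F ≤ cl n D F := le_max_right _ _
    have h2 : min 1 F' ≤ κ * min 1 F := by
      rcases le_total 1 F with h3 | h3
      · rw [min_eq_left h3, mul_one]
        exact (min_le_left _ _).trans hκ
      · rw [min_eq_right h3]
        exact (min_le_right _ _).trans h
    exact h2.trans (mul_le_mul_of_nonneg_left h1 (by linarith))

theorem ex_nonneg (hn : 0 < n) (hD : 0 ≤ D) : 0 ≤ ex n D F := by
  unfold ex
  apply div_nonneg _ (by linarith)
  have h1 := Real.logb_nonpos (b := 2) (by norm_num) cl_pos.le (cl_le_one (F := F) hn hD)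
  linarith

theorem ex_le (hn : 0 < n) : ex n D F ≤ D := by
  unfold ex
  rw [div_le_iff₀ (by linarith)]
  have h1 := Real.logb_le_logb_of_le (b := 2) (by norm_num) (by positivity) (cl_ge (n := n) (D := D) (F := F))
  rw [Real.logb_rpow (by norm_num) (by norm_num)] at h1
  linarith

theorem ex_scale (hn : 0 < n) (hκ : 1 ≤ κ) (h : F' ≤ κ * F) :
    ex n D F - Real.logb 2 κ / (2 * n) ≤ ex n D F' := by
  have h1 := Real.logb_le_logb_of_le (b := 2) (by norm_num) cl_pos (cl_scale (n := n) (D := D) hκ h)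
  rw [Real.logb_mul (by linarith) cl_pos.ne'] at h1
  unfold ex
  rw [← sub_div]
  exact div_le_div_of_nonneg_right (by linarith) (by linarith)

theorem ex_anti (hn : 0 < n) (h : F' ≤ F) : ex n D F ≤ ex n D F' := by
  have h1 := ex_scale (n := n) (D := D) (F := F) (F' := F') (κ := 1) hn le_rfl (by rw [one_mul]; exact h)
  rwa [Real.logb_one, zero_div, sub_zero] at h1

theorem rpow_ex (hn : 0 < n) : (2 : ℝ) ^ (2 * n * ex n D F) = (cl n D F)⁻¹ := by
  unfold ex
  have e1 : 2 * n * (-(Real.logb 2 (cl n D F)) / (2 * n)) = -(Real.logb 2 (cl n D F)) := by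
    field_simp
  rw [e1, Real.rpow_neg (by norm_num), Real.rpow_logb (by norm_num) (by norm_num) cl_pos]

/-- `2 ^ (2 n ex) F ≤ max 1 F` -/
theorem ex_mul_le (hn : 0 < n) (hF : 0 ≤ F) : (2 : ℝ) ^ (2 * n * ex n D F) * F ≤ max 1 F := by
  rw [rpow_ex hn, inv_mul_le_iff₀ cl_pos]
  rcases le_total 1 F with h | h
  · rw [max_eq_right h]
    have h1 : 1 ≤ cl n D F := by
      have : min 1 F ≤ cl n D F := le_max_right _ _
      rwa [min_eq_left h] at this
    nlinarith
  · rw [max_eq_left h, mul_one]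
    have : min 1 F ≤ cl n D F := le_max_right _ _
    rwa [min_eq_right h] at this

/-- a gap of exponents -/
theorem ex_gap (hn : 0 < n) {G g : ℝ} (hg : 0 < g) (h : ex n D G + g ≤ ex n D F) :
    F ≤ (2 : ℝ) ^ (-(2 * n * g)) * G ∧ 0 < G := by
  have h1 : cl n D F ≤ (2 : ℝ) ^ (-(2 * n * g)) * cl n D G := by
    have e1 := rpow_ex (n := n) (D := D) (F := F) hn
    have e2 := rpow_ex (n := n) (D := D) (F := G) hn
    have e3 : (2 : ℝ) ^ (2 * n * ex n D G) * 2 ^ (2 * n * g) ≤ 2 ^ (2 * n * ex n D F) := by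
      rw [← Real.rpow_add (by norm_num)]
      apply Real.rpow_le_rpow_of_exponent_le (by norm_num)
      nlinarith
    rw [e1, e2] at e3
    have c1 := cl_pos (n := n) (D := D) (F := F)
    have c2 := cl_pos (n := n) (D := D) (F := G)
    rw [inv_mul_le_iff₀ c2, ← div_eq_mul_inv, le_div_iff₀ c1] at e3
    rw [Real.rpow_neg (by norm_num), inv_mul_eq_div, le_div_iff₀ (by positivity), mul_comm]
    exact e3
  have hp : (2 : ℝ) ^ (-(2 * n * g)) < 1 := by
    apply Real.rpow_lt_one_of_one_lt_of_neg (by norm_num)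
    have : 0 < 2 * n * g := by positivity
    linarith
  have hp0 : (0 : ℝ) < (2 : ℝ) ^ (-(2 * n * g)) := by positivity
  have c1 := cl_pos (n := n) (D := D) (F := F)
  have c2 := cl_pos (n := n) (D := D) (F := G)
  -- `cl G` is larger than the truncation
  have h2 : (2 : ℝ) ^ (-(2 * D * n)) < cl n D G := by
    have h3 : (2 : ℝ) ^ (-(2 * D * n)) ≤ cl n D F := cl_ge
    nlinarith
  have h4 : cl n D G = min 1 G := by
    unfold cl at h2 ⊢
    rcases le_total ((2 : ℝ) ^ (-(2 * D * n))) (min 1 G) with h5 | h5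
    · exact max_eq_right h5
    · rw [max_eq_left h5] at h2
      exact absurd h2 (lt_irrefl _)
  have h5 : cl n D G ≤ G := by rw [h4]; exact min_le_right _ _
  have h6 : cl n D G ≤ 1 := by rw [h4]; exact min_le_left _ _
  have h7 : cl n D F < 1 := by nlinarith
  have h8 : min 1 F < 1 := lt_of_le_of_lt (le_max_right _ _) h7
  have h9 : F ≤ cl n D F := by
    have : min 1 F ≤ cl n D F := le_max_right _ _
    rcases le_total 1 F with h10 | h10
    · rw [min_eq_left h10] at h8
      exact absurd h8 (lt_irrefl _)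
    · rwa [min_eq_right h10] at this
  exact ⟨h9.trans (h1.trans (mul_le_mul_of_nonneg_left h5 hp0.le)), lt_of_lt_of_le c2 h5⟩

end Pool.Agent.Helper48.NS
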