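import Pool.Agent.Helper48.NS.Gf

/-! `G` is a polynomial along lines and on horizontal sections; the rows of a form on a horizontal section. -/

set_option autoImplicit false

namespace Pool.Agent.Helper48.NS

open MvPolynomial Matrix Pool.Agent.Helper95.LF Pool.Agent.Helper3.LF

variable {m D : ℕ}

/-! ### determinants of matrices of polynomials -/

theorem natDegree_det {n : ℕ} (M : Matrix (Fin n) (Fin n) (Polynomial ℝ)) (d : ℕ)
    (h : ∀ a b, (M a b).natDegree ≤ d) : M.det.natDegree ≤ n * d := by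
  rw [Matrix.det_apply']
  refine Polynomial.natDegree_sum_le_of_forall_le _ _ fun σ _ => ?_
  refine Polynomial.natDegree_mul_le.trans ?_
  rw [Polynomial.natDegree_intCast, zero_add]
  refine (Polynomial.natDegree_prod_le _ _).trans ?_
  refine (Finset.sum_le_card_nsmul _ _ d fun i _ => h _ _).trans (le_of_eq ?_)
  rw [Finset.card_univ, Fintype.card_fin, smul_eq_mul]

theorem totalDegree_det {n N : ℕ} (M : Matrix (Fin n) (Fin n) (MvPolynomial (Fin N) ℝ)) (d : ℕ)
    (h : ∀ a b, (M a b).totalDegree ≤ d) : M.det.totalDegree ≤ n * d := by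
  rw [Matrix.det_apply']
  refine totalDegree_finsetSum_le fun σ _ => ?_
  refine (totalDegree_mul _ _).trans ?_
  have e1 : (((Equiv.Perm.sign σ : ℤˣ) : ℤ) : MvPolynomial (Fin N) ℝ) = C (((Equiv.Perm.sign σ : ℤˣ) : ℤ) : ℝ) := by
    rw [map_intCast]
  rw [e1, totalDegree_C, zero_add]
  refine (totalDegree_finsetProd _ _).trans ?_
  refine (Finset.sum_le_card_nsmul _ _ d fun i _ => h _ _).trans (le_of_eq ?_)
  rw [Finset.card_univ, Fintype.card_fin, smul_eq_mul]

/-! ### entries of `J` -/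

theorem W_rows (C : Matrix (Mon (m + 1) D) (Mon (m + 1) D) ℝ) (q : Fin (m + 1) → ℝ) (a b : Fin m) :
    ((Wd m D q).transpose * (C.transpose * C) * Wd m D q) a b =
      ∑ k, eval q (pderiv a.succ (pol (C k))) * eval q (pderiv b.succ (pol (C k))) := by
  rw [W_apply, ← Matrix.mulVec_mulVec, Matrix.dotProduct_mulVec, Matrix.vecMul_transpose]
  unfold dotProduct
  refine Finset.sum_congr rfl fun k _ => ?_
  rw [eval_pderiv_pol, eval_pderiv_pol]
  rfl

theorem Jf_rows_apply (r : ℝ) (C : Matrix (Mon (m + 1) D) (Mon (m + 1) D) ℝ) (p : Fin (m + 1) → ℝ) (a b : Fin m) :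
    Jf r (C.transpose * C) p a b = ∑ j : Fin (m + 1) → Fin (D + 1), ∑ k,
      eval (nodp D p r j) (pderiv a.succ (pol (C k))) * eval (nodp D p r j) (pderiv b.succ (pol (C k))) := by
  unfold Jf
  rw [Matrix.sum_apply]
  exact Finset.sum_congr rfl fun j _ => W_rows _ _ _ _

/-- along a line `G` is a polynomial of degree at most `2 m D` -/
theorem GG_line (r : ℝ) (A : Matrix (Mon (m + 1) D) (Mon (m + 1) D) ℝ) (hA : PdM A) (a x : Fin (m + 1) → ℝ) :
    ∃ f : Polynomial ℝ, f.natDegree ≤ 2 * m * D ∧ ∀ s : ℝ, f.eval s = GG r A (fun k => a k + s * x k) := by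
  classical
  obtain ⟨C, hC, -⟩ := exists_factor A hA
  set L : Fin m → (Fin (m + 1) → Fin (D + 1)) → Mon (m + 1) D → Polynomial ℝ := fun u j k =>
    lin (fun i => a i + r * nod D (j i)) x (pderiv u.succ (pol (C k))) with hL
  set M : Matrix (Fin m) (Fin m) (Polynomial ℝ) := Matrix.of fun u v =>
    Polynomial.C ((1 : Matrix (Fin m) (Fin m) ℝ) u v) + ∑ j, ∑ k, L u j k * L v j k with hM
  have hLd : ∀ u j k, (L u j k).natDegree ≤ D := fun u j k =>
    (natDegree_lin _ _ _).trans (pderiv_tdeg _ (pol_deg _) _)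
  refine ⟨M.det, ?_, ?_⟩
  · have h1 := natDegree_det M (2 * D) (fun u v => by
      rw [hM, Matrix.of_apply]
      refine (Polynomial.natDegree_add_le _ _).trans (max_le ?_ ?_)
      · rw [Polynomial.natDegree_C]
        exact Nat.zero_le _
      · refine Polynomial.natDegree_sum_le_of_forall_le _ _ fun j _ =>
          Polynomial.natDegree_sum_le_of_forall_le _ _ fun k _ => ?_
        refine Polynomial.natDegree_mul_le.trans ?_
        have h2 := hLd u j k
        have h3 := hLd v j k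
        omega)
    refine h1.trans (le_of_eq ?_)
    ring
  · intro s
    have h1 : M.det.eval s = ((Polynomial.evalRingHom s).mapMatrix M).det := by
      rw [← RingHom.map_det]
      rfl
    rw [h1]
    unfold GG
    have h2 : (Polynomial.evalRingHom s).mapMatrix M = 1 + Jf r A (fun k => a k + s * x k) := by
      ext u v
      rw [RingHom.mapMatrix_apply, Matrix.map_apply, Matrix.add_apply, hC, Jf_rows_apply, hM, Matrix.of_apply,
        map_add, map_sum]
      have e0 : (Polynomial.evalRingHom s) (Polynomial.C ((1 : Matrix (Fin m) (Fin m) ℝ) u v)) =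
          (1 : Matrix (Fin m) (Fin m) ℝ) u v := Polynomial.eval_C
      rw [e0]
      refine congrArg _ (Finset.sum_congr rfl fun j _ => ?_)
      rw [map_sum]
      refine Finset.sum_congr rfl fun k _ => ?_
      rw [map_mul]
      have e1 : ∀ w : Fin m, (Polynomial.evalRingHom s) (L w j k) =
          eval (nodp D (fun k => a k + s * x k) r j) (pderiv w.succ (pol (C k))) := by
        intro w
        rw [Polynomial.coe_evalRingHom, hL, eval_lin]
        have e2 : (fun k => a k + r * nod D ↑(j k) + s * x k) = nodp D (fun k => a k + s * x k) r j := by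
          funext k
          unfold nodp
          ring
        rw [e2]
      rw [e1, e1]
    rw [h2]

/-! ### horizontal sections -/

/-- substitution `v + (0, P)` -/
noncomputable def res (v : Fin (m + 1) → ℝ) : MvPolynomial (Fin (m + 1)) ℝ →ₐ[ℝ] MvPolynomial (Fin m) ℝ :=
  aeval (Fin.cons (C (v 0)) fun i => X i + C (v i.succ))

theorem res_X_zero (v : Fin (m + 1) → ℝ) : res v (X 0) = C (v 0) := by
  unfold res
  rw [aeval_X, Fin.cons_zero]

theorem res_X_succ (v : Fin (m + 1) → ℝ) (i : Fin m) : res v (X i.succ) = X i + C (v i.succ) := by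
  unfold res
  rw [aeval_X, Fin.cons_succ]

theorem res_C (v : Fin (m + 1) → ℝ) (c : ℝ) : res v (C c) = C c := by
  unfold res
  rw [aeval_C]
  rfl

theorem eval_res (v : Fin (m + 1) → ℝ) (P : Fin m → ℝ) (f : MvPolynomial (Fin (m + 1)) ℝ) :
    eval P (res v f) = eval (fun k => (Fin.cons 0 P : Fin (m + 1) → ℝ) k + v k) f := by
  induction f using MvPolynomial.induction_on with
  | C c => rw [res_C, eval_C, eval_C]
  | add f g hf hg => rw [map_add, map_add, map_add, hf, hg]
  | mul_X f n hf =>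
    rw [map_mul, map_mul, map_mul, hf, eval_X]
    congr 1
    refine Fin.cases ?_ (fun i => ?_) n
    · rw [res_X_zero, eval_C, Fin.cons_zero, zero_add]
    · rw [res_X_succ, map_add, eval_X, eval_C, Fin.cons_succ]

theorem pderiv_res (v : Fin (m + 1) → ℝ) (a : Fin m) (f : MvPolynomial (Fin (m + 1)) ℝ) :
    pderiv a (res v f) = res v (pderiv a.succ f) := by
  induction f using MvPolynomial.induction_on with
  | C c => rw [res_C, pderiv_C, pderiv_C, map_zero]
  | add f g hf hg => rw [map_add, map_add, map_add, map_add, hf, hg]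
  | mul_X f n hf =>
    rw [map_mul, pderiv_mul, pderiv_mul, hf, map_add, map_mul, map_mul]
    congr 2
    refine Fin.cases ?_ (fun i => ?_) n
    · rw [res_X_zero, pderiv_C, pderiv_X_of_ne (Fin.succ_ne_zero a).symm, map_zero]
    · rw [res_X_succ, map_add, pderiv_C, add_zero]
      by_cases h : i = a
      · rw [h, pderiv_X_self, pderiv_X_self, map_one]
      · rw [pderiv_X_of_ne h, pderiv_X_of_ne (fun h' => h (Fin.succ_injective _ h')), map_zero]

theorem res_deg (v : Fin (m + 1) → ℝ) (f : MvPolynomial (Fin (m + 1)) ℝ) (d : ℕ) (hf : f.totalDegree ≤ d) :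
    (res v f).totalDegree ≤ d := by
  rw [f.as_sum, map_sum]
  refine totalDegree_finsetSum_le fun s hs => ?_
  unfold res
  rw [aeval_monomial]
  refine (totalDegree_mul _ _).trans ?_
  have e1 : (algebraMap ℝ (MvPolynomial (Fin m) ℝ)) (coeff s f) = C (coeff s f) := rfl
  rw [e1, totalDegree_C, zero_add, Finsupp.prod_fintype _ _ (fun _ => pow_zero _)]
  refine (totalDegree_finsetProd _ _).trans ?_
  have h1 : (s.sum fun _ e => e) ≤ d := (le_totalDegree hs).trans hf
  rw [Finsupp.sum_fintype _ _ (fun _ => rfl)] at h1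
  refine le_trans (Finset.sum_le_sum fun i _ => ?_) h1
  refine (totalDegree_pow _ _).trans ?_
  have h2 : ∀ i, ((Fin.cons (C (v 0)) (fun i => X i + C (v i.succ)) : Fin (m + 1) → MvPolynomial (Fin m) ℝ)
      i).totalDegree ≤ 1 := by
    refine fun i => Fin.cases ?_ (fun i => ?_) i
    · rw [Fin.cons_zero, totalDegree_C]
      exact Nat.zero_le _
    · rw [Fin.cons_succ]
      refine (totalDegree_add _ _).trans (max_le (totalDegree_X _).le ?_)
      rw [totalDegree_C]
      exact Nat.zero_le _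
  calc s i * _ ≤ s i * 1 := Nat.mul_le_mul_left _ (h2 i)
    _ = s i := mul_one _

theorem node_res (r t : ℝ) (P : Fin m → ℝ) (j : Fin (m + 1) → Fin (D + 1)) :
    (fun k => (Fin.cons 0 P : Fin (m + 1) → ℝ) k + nodp D (Fin.cons t 0) r j k) =
      nodp D (Fin.cons t P) r j := by
  funext k
  unfold nodp
  refine Fin.cases ?_ (fun i => ?_) k
  · rw [Fin.cons_zero, Fin.cons_zero, Fin.cons_zero, zero_add]
  · rw [Fin.cons_succ, Fin.cons_succ, Fin.cons_succ, Pi.zero_apply]
    ring

/-- the row with the number `k` at the node `j` on the section of height `t` -/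
noncomputable def rw1 (r t : ℝ) (C' : Matrix (Mon (m + 1) D) (Mon (m + 1) D) ℝ)
    (w : Mon (m + 1) D × (Fin (m + 1) → Fin (D + 1))) : MvPolynomial (Fin m) ℝ :=
  res (nodp D (Fin.cons t 0) r w.2) (pol (C' w.1))

theorem rw1_deg (r t : ℝ) (C' : Matrix (Mon (m + 1) D) (Mon (m + 1) D) ℝ)
    (w : Mon (m + 1) D × (Fin (m + 1) → Fin (D + 1))) : (rw1 r t C' w).totalDegree ≤ D :=
  res_deg _ _ _ (pol_deg _)

theorem eval_rw1 (r t : ℝ) (C' : Matrix (Mon (m + 1) D) (Mon (m + 1) D) ℝ)
    (w : Mon (m + 1) D × (Fin (m + 1) → Fin (D + 1))) (P : Fin m → ℝ) :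
    eval P (rw1 r t C' w) = eval (nodp D (Fin.cons t P) r w.2) (pol (C' w.1)) := by
  unfold rw1
  rw [eval_res, node_res]

theorem eval_pderiv_rw1 (r t : ℝ) (C' : Matrix (Mon (m + 1) D) (Mon (m + 1) D) ℝ)
    (w : Mon (m + 1) D × (Fin (m + 1) → Fin (D + 1))) (P : Fin m → ℝ) (a : Fin m) :
    eval P (pderiv a (rw1 r t C' w)) = eval (nodp D (Fin.cons t P) r w.2) (pderiv a.succ (pol (C' w.1))) := by
  unfold rw1
  rw [pderiv_res, eval_res, node_res]

theorem phi_rw1 (r t : ℝ) (C' : Matrix (Mon (m + 1) D) (Mon (m + 1) D) ℝ) (P : Fin m → ℝ) :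
    phi r (C'.transpose * C') (Fin.cons t P) = ∑ w, (eval P (rw1 r t C' w)) ^ 2 := by
  rw [phi_rows]
  unfold ph
  rw [Fintype.sum_prod_type]
  refine Finset.sum_congr rfl fun k _ => Finset.sum_congr rfl fun j _ => ?_
  rw [eval_rw1]

theorem Jf_rw1 (r t : ℝ) (C' : Matrix (Mon (m + 1) D) (Mon (m + 1) D) ℝ) (P : Fin m → ℝ) (a b : Fin m) :
    Jf r (C'.transpose * C') (Fin.cons t P) a b =
      ∑ w, eval P (pderiv a (rw1 r t C' w)) * eval P (pderiv b (rw1 r t C' w)) := by
  rw [Jf_rows_apply, Fintype.sum_prod_type, Finset.sum_comm]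
  refine Finset.sum_congr rfl fun k _ => Finset.sum_congr rfl fun j _ => ?_
  rw [eval_pderiv_rw1, eval_pderiv_rw1]

/-- `phi` on a horizontal section -/
theorem phi_poly (r t : ℝ) (A : Matrix (Mon (m + 1) D) (Mon (m + 1) D) ℝ) (hA : PdM A) :
    ∃ Q : MvPolynomial (Fin m) ℝ, Q.totalDegree ≤ 2 * D ∧ ∀ P : Fin m → ℝ, eval P Q = phi r A (Fin.cons t P) := by
  classical
  obtain ⟨C', hC, -⟩ := exists_factor A hA
  refine ⟨∑ w, (rw1 r t C' w) ^ 2, ?_, ?_⟩
  · refine totalDegree_finsetSum_le fun w _ => (totalDegree_pow _ _).trans (Nat.mul_le_mul_left 2 (rw1_deg _ _ _ _))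
  · intro P
    rw [hC, phi_rw1, map_sum]
    exact Finset.sum_congr rfl fun w _ => by rw [map_pow]

/-- `G` on a horizontal section -/
theorem GG_poly (r t : ℝ) (A : Matrix (Mon (m + 1) D) (Mon (m + 1) D) ℝ) (hA : PdM A) :
    ∃ Q : MvPolynomial (Fin m) ℝ, Q.totalDegree ≤ 2 * m * D ∧
      ∀ P : Fin m → ℝ, eval P Q = GG r A (Fin.cons t P) := by
  classical
  obtain ⟨C', hC, -⟩ := exists_factor A hA
  set M : Matrix (Fin m) (Fin m) (MvPolynomial (Fin m) ℝ) := Matrix.of fun u v =>
    C ((1 : Matrix (Fin m) (Fin m) ℝ) u v) + ∑ w, pderiv u (rw1 r t C' w) * pderiv v (rw1 r t C' w) with hM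
  refine ⟨M.det, ?_, ?_⟩
  · have h1 := totalDegree_det M (2 * D) (fun u v => by
      rw [hM, Matrix.of_apply]
      refine (totalDegree_add _ _).trans (max_le ?_ ?_)
      · rw [totalDegree_C]
        exact Nat.zero_le _
      · refine totalDegree_finsetSum_le fun w _ => (totalDegree_mul _ _).trans ?_
        have h2 := pderiv_tdeg (rw1 r t C' w) (rw1_deg r t C' w) u
        have h3 := pderiv_tdeg (rw1 r t C' w) (rw1_deg r t C' w) v
        omega)
    refine h1.trans (le_of_eq ?_)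
    ring
  · intro P
    have h1 : eval P M.det = ((eval P).mapMatrix M).det := by
      rw [← RingHom.map_det]
    rw [h1]
    unfold GG
    have h2 : (eval P).mapMatrix M = 1 + Jf r A (Fin.cons t P) := by
      ext u v
      rw [RingHom.mapMatrix_apply, Matrix.map_apply, Matrix.add_apply, hC, Jf_rw1, hM, Matrix.of_apply,
        map_add, map_sum, eval_C]
      refine congrArg _ (Finset.sum_congr rfl fun w _ => ?_)
      rw [map_mul]
    rw [h2]

/-! ### the family of rows for the area formula -/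

/-- coordinates and rows -/
noncomputable def fam (r t : ℝ) (C' : Matrix (Mon (m + 1) D) (Mon (m + 1) D) ℝ) :
    Fin m ⊕ (Mon (m + 1) D × (Fin (m + 1) → Fin (D + 1))) → MvPolynomial (Fin m) ℝ :=
  Sum.elim (fun i => X i) (rw1 r t C')

theorem fam_deg (hD : 1 ≤ D) (r t : ℝ) (C' : Matrix (Mon (m + 1) D) (Mon (m + 1) D) ℝ)
    (w : Fin m ⊕ (Mon (m + 1) D × (Fin (m + 1) → Fin (D + 1)))) : (fam r t C' w).totalDegree ≤ D := by
  rcases w with i | w
  · exact (totalDegree_X i).le.trans hD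
  · exact rw1_deg r t C' w

theorem fam_gram (r t : ℝ) (C' : Matrix (Mon (m + 1) D) (Mon (m + 1) D) ℝ) (P : Fin m → ℝ) :
    (Matrix.of fun a b => ∑ w, eval P (pderiv a (fam r t C' w)) * eval P (pderiv b (fam r t C' w))) =
      1 + Jf r (C'.transpose * C') (Fin.cons t P) := by
  ext a b
  rw [Matrix.of_apply, Matrix.add_apply, Jf_rw1, Fintype.sum_sum_type]
  congr 1
  have h1 : ∀ i : Fin m, eval P (pderiv a (fam r t C' (Sum.inl i))) * eval P (pderiv b (fam r t C' (Sum.inl i))) =
      (if i = a then 1 else 0) * (if i = b then 1 else 0) := by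
    intro i
    have h2 : ∀ c : Fin m, eval P (pderiv c (fam r t C' (Sum.inl i))) = if i = c then 1 else 0 := by
      intro c
      have e1 : fam r t C' (Sum.inl i) = X i := rfl
      rw [e1, pderiv_X]
      by_cases h : i = c
      · subst h
        rw [Pi.single_eq_same, map_one, if_pos rfl]
      · rw [Pi.single_eq_of_ne h, map_zero, if_neg h]
    rw [h2, h2]
  rw [Finset.sum_congr rfl fun i _ => h1 i, Finset.sum_eq_single a]
  · rw [if_pos rfl, one_mul, Matrix.one_apply]
  · intro i _ hi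
    rw [if_neg hi, zero_mul]
  · intro h
    exact absurd (Finset.mem_univ a) h

/-- the monomial `x_i` -/
def Mon.var (hD : 1 ≤ D) (i : Fin (m + 1)) : Mon (m + 1) D :=
  ⟨fun k => if k = i then ⟨1, by omega⟩ else ⟨0, by omega⟩, by
    have h1 : ∀ k : Fin (m + 1), (((if k = i then ⟨1, by omega⟩ else ⟨0, by omega⟩ : Fin (D + 1))) : ℕ) =
        if k = i then 1 else 0 := by
      intro k
      split_ifs <;> rfl
    rw [Finset.sum_congr rfl fun k _ => h1 k, Finset.sum_ite_eq' Finset.univ i, if_pos (Finset.mem_univ i)]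
    exact hD⟩

theorem vv_var (hD : 1 ≤ D) (i : Fin (m + 1)) (p : Fin (m + 1) → ℝ) : vv p (Mon.var hD i) = p i := by
  rw [vv_apply, Finset.prod_eq_single i]
  · have : (((Mon.var hD i).1 i : Fin (D + 1)) : ℕ) = 1 := by
      unfold Mon.var
      simp
    rw [this, pow_one]
  · intro k _ hk
    have : (((Mon.var hD i).1 k : Fin (D + 1)) : ℕ) = 0 := by
      unfold Mon.var
      simp [hk]
    rw [this, pow_zero]
  · intro h
    exact absurd (Finset.mem_univ i) h

theorem coord_le_phi (hD : 1 ≤ D) (r : ℝ) (A : Matrix (Mon (m + 1) D) (Mon (m + 1) D) ℝ)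
    (h1 : ∀ x : Mon (m + 1) D → ℝ, x ⬝ᵥ x ≤ x ⬝ᵥ (A *ᵥ x)) (p : Fin (m + 1) → ℝ) (i : Fin (m + 1)) :
    (p i) ^ 2 ≤ phi r A p := by
  have e1 : nodp D p r (fun _ => 0) = p := by
    funext k
    unfold nodp nod
    simp
  have h2 : vv p ⬝ᵥ (A *ᵥ vv p) ≤ phi r A p := by
    unfold phi
    have := Finset.single_le_sum (f := fun j => vv (nodp D p r j) ⬝ᵥ (A *ᵥ vv (nodp D p r j)))
      (fun j _ => (self_nonneg' _).trans (h1 _)) (Finset.mem_univ (fun _ => (0 : Fin (D + 1))))
    simp only [e1] at this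
    exact this
  refine le_trans ?_ ((h1 _).trans h2)
  have h3 := Finset.single_le_sum (f := fun μ : Mon (m + 1) D => vv p μ * vv p μ)
    (fun μ _ => mul_self_nonneg _) (Finset.mem_univ (Mon.var hD i))
  simp only [vv_var] at h3
  rw [pow_two]
  exact h3

/-- values of the family -/
theorem fam_le (hD : 1 ≤ D) (r t : ℝ) (C' : Matrix (Mon (m + 1) D) (Mon (m + 1) D) ℝ)
    (h1 : ∀ x : Mon (m + 1) D → ℝ, x ⬝ᵥ x ≤ x ⬝ᵥ ((C'.transpose * C') *ᵥ x)) (P : Fin m → ℝ)
    (w : Fin m ⊕ (Mon (m + 1) D × (Fin (m + 1) → Fin (D + 1)))) :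
    |eval P (fam r t C' w)| ≤ Real.sqrt (phi r (C'.transpose * C') (Fin.cons t P)) := by
  rw [← Real.sqrt_sq_eq_abs]
  apply Real.sqrt_le_sqrt
  rcases w with i | w
  · have h2 := coord_le_phi hD r _ h1 (Fin.cons t P) i.succ
    rw [Fin.cons_succ] at h2
    have e1 : fam r t C' (Sum.inl i) = X i := rfl
    rw [e1, eval_X]
    exact h2
  · rw [phi_rw1]
    exact Finset.single_le_sum (f := fun w => (eval P (rw1 r t C' w)) ^ 2) (fun _ _ => sq_nonneg _)
      (Finset.mem_univ w)

/-- everything together -/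
theorem exists_fam (hD : 1 ≤ D) (r t : ℝ) (A : Matrix (Mon (m + 1) D) (Mon (m + 1) D) ℝ) (hs : A.IsSymm)
    (h1 : ∀ x : Mon (m + 1) D → ℝ, x ⬝ᵥ x ≤ x ⬝ᵥ (A *ᵥ x)) :
    ∃ f : Fin m ⊕ (Mon (m + 1) D × (Fin (m + 1) → Fin (D + 1))) → MvPolynomial (Fin m) ℝ,
      (∀ w, (f w).totalDegree ≤ D) ∧
      (∀ P : Fin m → ℝ, ∀ w, |eval P (f w)| ≤ Real.sqrt (phi r A (Fin.cons t P))) ∧
      ∀ P : Fin m → ℝ, (Matrix.of fun a b => ∑ w, eval P (pderiv a (f w)) * eval P (pderiv b (f w))).det =
        GG r A (Fin.cons t P) := by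
  have hA : PdM A := ⟨hs, fun x hx => (self_pos hx).trans_le (h1 x)⟩
  obtain ⟨C', hC, -⟩ := exists_factor A hA
  refine ⟨fam r t C', fam_deg hD r t C', fun P w => ?_, fun P => ?_⟩
  · rw [hC]
    exact fam_le hD r t C' (by rw [← hC]; exact h1) P w
  · rw [fam_gram, hC]
    rfl

end Pool.Agent.Helper48.NS
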