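import Pool.Agent.Helper3.LF.Rep

/-! Level sets of polynomials and entropy: the expected depth of the level of a polynomial of degree `d` at a time `t`
is at most `d` times the entropy deficiency of `t`. (DEGREE) -/

set_option autoImplicit false

namespace Pool.Agent.Helper48.NS

open Finset Pool.Agent.Helper69.RK Pool.Agent.Helper3.LF Pool.Agent.Helper31.EC

open Classical in
/-- number of cells in a window -/
theorem win_count {Ω β : Type} [Fintype Ω] (μ : Ω → ℝ) (G : Ω → β) (ω₀ : Ω) (t : Ω → ℝ) (s L δ : ℝ)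
    (hδ : 0 < δ) (hL : δ ≤ L) (h : ∀ ω, μ ω ≠ 0 → G ω = G ω₀ → |s - t ω| ≤ L) (inst : DecidableEq ℤ) :
    (((@Finset.image Ω ℤ inst (fun ω => ⌊t ω / δ⌋)
      ((univ : Finset Ω).filter (fun ω => μ ω ≠ 0 ∧ G ω = G ω₀)))).card : ℝ) ≤ 4 * (L / δ) := by
  have hR : 1 ≤ L / δ := by rw [one_le_div hδ]; exact hL
  have c3 : ((⌊(s + L) / δ⌋ + 1 - ⌊(s - L) / δ⌋).toNat : ℝ) ≤ 2 * (L / δ) + 2 := by
    have e1 := Int.floor_le ((s + L) / δ)
    have e2 := Int.lt_floor_add_one ((s - L) / δ)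
    have e3 : ⌊(s - L) / δ⌋ ≤ ⌊(s + L) / δ⌋ :=
      Int.floor_le_floor (div_le_div_of_nonneg_right (by linarith) hδ.le)
    have e4 : (((⌊(s + L) / δ⌋ + 1 - ⌊(s - L) / δ⌋).toNat : ℤ) : ℝ) =
        (⌊(s + L) / δ⌋ : ℝ) + 1 - ⌊(s - L) / δ⌋ := by
      rw [Int.toNat_of_nonneg (by omega)]
      push_cast
      ring
    have e5 : ((⌊(s + L) / δ⌋ + 1 - ⌊(s - L) / δ⌋).toNat : ℝ) =
        (((⌊(s + L) / δ⌋ + 1 - ⌊(s - L) / δ⌋).toNat : ℤ) : ℝ) := by norm_cast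
    rw [e5, e4]
    have e6 : (s + L) / δ - (s - L) / δ = 2 * (L / δ) := by ring
    linarith
  refine le_trans (Nat.cast_le.2 (Finset.card_le_card
    (t := Finset.Icc ⌊(s - L) / δ⌋ ⌊(s + L) / δ⌋) ?_)) ?_
  · intro j hj
    obtain ⟨ω, hω, rfl⟩ := e3_mem_image hj
    have d3 := h ω (Finset.mem_filter.1 hω).2.1 (Finset.mem_filter.1 hω).2.2
    rw [abs_le] at d3
    rw [Finset.mem_Icc]
    exact ⟨Int.floor_le_floor (div_le_div_of_nonneg_right (by linarith) hδ.le),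
      Int.floor_le_floor (div_le_div_of_nonneg_right (by linarith) hδ.le)⟩
  · rw [Int.card_Icc]
    linarith

open Classical in
/-- LEVEL SETS: `J` is the level, the event `J = j ≥ 1` is contained in the sublevel set
`(d + 1) |f t| < (η ^ j) ^ d M` -/
theorem lev_mass {Ω γ : Type} [Fintype Ω] (μ : Ω → ℝ) (B : Ω → γ) (t : Ω → ℝ) (d N : ℕ)
    (f : Ω → Polynomial ℝ) (s M : Ω → ℝ) (J : Ω → ℕ) (L δ η : ℝ) (h0 : ∀ ω, 0 ≤ μ ω) (hm : mass μ = 1)
    (hδ : 0 < δ) (hL : δ ≤ L) (hη : 0 < η) (hη1 : η ≤ 1) (hN : δ / L ≤ η ^ N)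
    (hB : ∀ ω ω', μ ω ≠ 0 → μ ω' ≠ 0 → B ω' = B ω → f ω' = f ω ∧ s ω' = s ω ∧ M ω' = M ω)
    (hf : ∀ ω, μ ω ≠ 0 → (f ω).natDegree ≤ d)
    (ht : ∀ ω, μ ω ≠ 0 → |s ω - t ω| ≤ L)
    (hM : ∀ ω, μ ω ≠ 0 → M ω ≤ |(f ω).eval (s ω)|)
    (hJN : ∀ ω, μ ω ≠ 0 → J ω ≤ N)
    (hJ : ∀ ω, μ ω ≠ 0 → J ω ≠ 0 → (d + 1) * |(f ω).eval (t ω)| < (η ^ J ω) ^ d * M ω) :
    (∑ ω, μ ω * J ω) * Real.logb 2 (1 / η) ≤
      Real.logb 2 (N + 1) + Real.logb 2 (6 * (d + 1) * (L / δ)) - CH μ (fun ω => ⌊t ω / δ⌋) B := by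
  have hLp : 0 < L := lt_of_lt_of_le hδ hL
  have hR : 1 ≤ L / δ := by rw [one_le_div hδ]; exact hL
  have hd0 : (0 : ℝ) ≤ d := Nat.cast_nonneg d
  set τ : Ω → ℤ := fun ω => ⌊t ω / δ⌋ with hτ
  -- chain rule
  have c1 : CH μ τ B ≤ CH μ J B + CH μ τ (fun ω => (J ω, B ω)) := by
    have e1 := (st_E1 Ω ℕ ℤ γ μ J τ B h0).2.1
    have e2 := (st_E1 Ω ℤ ℕ γ μ τ J B h0).2.1
    have e3 := (st_E1 Ω ℕ γ γ μ J B (fun ω => B ω) h0).1
    have e4 := (st_E1 Ω ℕ (ℤ × γ) ℤ μ J (fun ω => (τ ω, B ω)) τ h0).1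
    have e5 := (st_E1 Ω ℕ ℤ (ℤ × γ) μ J τ (fun ω => (τ ω, B ω)) h0).1
    have e6 : CH μ (fun ω => (τ ω, J ω)) B = CH μ (fun ω => (J ω, τ ω)) B := by
      apply le_antisymm
      · apply (st_E2 st_E1).1 Ω _ _ _ μ _ _ _ h0
        intro ω ω' _ _ h
        simp only [Prod.mk.injEq] at h ⊢
        exact ⟨h.1.2, h.1.1⟩
      · apply (st_E2 st_E1).1 Ω _ _ _ μ _ _ _ h0
        intro ω ω' _ _ h
        simp only [Prod.mk.injEq] at h ⊢
        exact ⟨h.1.2, h.1.1⟩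
    linarith
  -- the levels
  have c2 : CH μ J B ≤ Real.logb 2 (N + 1) := by
    have e1 := st_E3.1 Ω ℕ γ μ J B (fun _ => (N : ℝ) + 1) h0 (by
      intro ω _
      refine le_trans (Nat.cast_le.2 (Finset.card_le_card (t := Finset.range (N + 1)) ?_)) ?_
      · intro j hj
        obtain ⟨ω', hω', rfl⟩ := e3_mem_image hj
        obtain ⟨-, d1, -⟩ := Finset.mem_filter.1 hω'
        exact Finset.mem_range.2 (Nat.lt_succ_of_le (hJN ω' d1))
      · rw [Finset.card_range]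
        push_cast
        exact le_rfl)
    refine e1.trans (le_of_eq ?_)
    rw [← Finset.sum_mul]
    have : ∑ ω, μ ω = 1 := hm
    rw [this, one_mul]
  -- the cells on a level
  have c3 : CH μ τ (fun ω => (J ω, B ω)) ≤ ∑ ω, μ ω * Real.logb 2 (6 * (d + 1) * (L / δ) * η ^ J ω) := by
    obtain ⟨β, G, hG, hG1⟩ : ∃ (β : Type) (G : Ω → β), CH μ τ (fun ω => (J ω, B ω)) = CH μ τ G ∧
        ∀ ω ω', G ω' = G ω → J ω' = J ω ∧ B ω' = B ω := by
      refine ⟨ℕ × γ, fun ω => (J ω, B ω), rfl, ?_⟩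
      intro ω ω' h
      simp only [Prod.mk.injEq] at h
      exact h
    rw [hG]
    apply st_E3.1 Ω ℤ β μ τ G (fun ω => 6 * (d + 1) * (L / δ) * η ^ J ω) h0
    intro ω hω
    by_cases hj : J ω = 0
    · have e1 := win_count μ G ω t (s ω) L δ hδ hL (by
        intro ω' d1 d2
        rw [← (hB ω ω' hω d1 (hG1 _ _ d2).2).2.1]
        exact ht ω' d1) (fun a b => Classical.propDecidable (a = b))
      have e2 : 4 * (L / δ) ≤ 6 * (d + 1) * (L / δ) * η ^ J ω := by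
        rw [hj, pow_zero, mul_one]
        nlinarith
      exact e1.trans e2
    · have hηj : 0 < η ^ J ω := by positivity
      refine (sub_count d (f ω) (hf ω hω) (s ω) L δ (M ω) (η ^ J ω) hLp hδ hηj (hM ω hω) _ ?_).trans ?_
      · intro j hj'
        obtain ⟨ω', hω', rfl⟩ := e3_mem_image hj'
        obtain ⟨-, d1, d2⟩ := Finset.mem_filter.1 hω'
        have d3 := hG1 _ _ d2
        obtain ⟨e1, e2, e3⟩ := hB ω ω' hω d1 d3.2
        refine ⟨t ω', rfl, ?_, ?_⟩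
        · rw [← e2]
          exact ht ω' d1
        · have e4 := hJ ω' d1 (by rw [d3.1]; exact hj)
          rw [e1, e3, d3.1] at e4
          exact e4
      · have e1 : 1 ≤ η ^ J ω * (L / δ) := by
          have e2 : η ^ N ≤ η ^ J ω := pow_le_pow_of_le_one hη.le hη1 (hJN ω hω)
          have e3 : δ / L * (L / δ) = 1 := by field_simp
          calc (1 : ℝ) = δ / L * (L / δ) := e3.symm
            _ ≤ η ^ J ω * (L / δ) := mul_le_mul_of_nonneg_right (hN.trans e2) (by positivity)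
        have e2 : η ^ J ω * L / δ = η ^ J ω * (L / δ) := by ring
        rw [e2]
        have e3 : 6 * ((d : ℝ) + 1) * (L / δ) * η ^ J ω = 6 * (d + 1) * (η ^ J ω * (L / δ)) := by ring
        rw [e3]
        nlinarith
  have c4 : ∑ ω, μ ω * Real.logb 2 (6 * (d + 1) * (L / δ) * η ^ J ω) =
      Real.logb 2 (6 * (d + 1) * (L / δ)) - (∑ ω, μ ω * J ω) * Real.logb 2 (1 / η) := by
    have e1 : ∀ ω, Real.logb 2 (6 * (d + 1) * (L / δ) * η ^ J ω) =
        Real.logb 2 (6 * (d + 1) * (L / δ)) - J ω * Real.logb 2 (1 / η) := by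
      intro ω
      rw [Real.logb_mul (by positivity) (by positivity), Real.logb_pow, one_div, Real.logb_inv]
      ring
    simp only [e1, mul_sub, Finset.sum_sub_distrib, ← Finset.sum_mul, ← mul_assoc]
    have : ∑ ω, μ ω = 1 := hm
    rw [this, one_mul]
  linarith

end Pool.Agent.Helper48.NS
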