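import Pool.Agent.Helper48.NS.Cst2
import Pool.Agent.Helper48.NS.StA
import Pool.Agent.Helper48.NS.Gf
import Pool.Agent.Helper89.LX.Frm

/-! THEOREM COST for systems of lines: in the canonical form of `S | kappa_c` a label of information `i` cannot predict a
unit combination of degree `D` which is smaller than `2 ^ (-D i n)`. (DEGREE) -/

set_option autoImplicit false

namespace Pool.Agent.Helper48.NS

open Finset Filter Topology Matrix Pool.Agent.Helper69.RK Pool.Agent.Helper31.EC Pool.Agent.Helper40.EL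
open Pool.Agent.Helper89.LX Pool.Agent.Helper3.LF
open Pool.Agent.Helper95.LF (PdM)

noncomputable section

variable {S : Sp} {m D : ℕ}

theorem phi_cc (r : ℝ) (c : Mon (m + 1) D → ℝ) (p : Fin (m + 1) → ℝ) : phi r (cc c) p = ph D (pol c) r p := by
  unfold phi ph
  refine Finset.sum_congr rfl fun j _ => ?_
  have h1 : vv (nodp D p r j) ⬝ᵥ (cc c *ᵥ vv (nodp D p r j)) = qf (cc c) (vv (nodp D p r j)) := rfl
  rw [h1, qf_cc, eval_pol]

theorem gau_hom (s : Sys S m) : Gau.Hom (gau s D) := fun _ _ _ _ => phi_smul _ _ _ _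

/-- the constant of the comparison of neighbouring cells -/
def cN (m D : ℕ) (K : ℝ) : ℝ := nn (m + 1) D * (Cu D * Cm (m + 1) D * K ^ D) ^ 2

theorem cN_one (m D : ℕ) {K : ℝ} (hK : 1 ≤ K) : 1 ≤ cN m D K :=
  one_le_mul_of_one_le_of_one_le (nn_one (m + 1) D)
    (one_le_pow₀ (one_le_mul_of_one_le_of_one_le (one_le_mul_of_one_le_of_one_le (Cu_one D) (Cm_one (m + 1) D))
      (one_le_pow₀ hK)))

/-- neighbouring points -/
theorem ph_near (c : Mon (m + 1) D → ℝ) (r K : ℝ) (hr : 0 < r) (hK : 1 ≤ K) (p p' : Fin (m + 1) → ℝ)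
    (h : ∀ i, |p' i - p i| + r ≤ K * r) : ph D (pol c) r p' ≤ cN m D K * ph D (pol c) r p :=
  ph_comp _ (pol_deg _) r r K hr hr.le hK p p' h

/-- polynomials along a line -/
theorem ph_poly (c : Mon (m + 1) D → ℝ) (r : ℝ) (a x : Fin m → ℝ) : ∃ f : Polynomial ℝ, f.natDegree ≤ 2 * D ∧
    ∀ s : ℝ, f.eval s = ph D (pol c) r (pl a x s) := by
  refine ⟨∑ j : Fin (m + 1) → Fin (D + 1), (lin (fun i => (Fin.cons 0 a : Fin (m + 1) → ℝ) i + r * nod D (j i))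
    (Fin.cons 1 x) (pol c)) ^ 2, ?_, ?_⟩
  · refine Polynomial.natDegree_sum_le_of_forall_le _ _ fun j _ => ?_
    refine Polynomial.natDegree_pow_le.trans ?_
    exact Nat.mul_le_mul_left 2 ((natDegree_lin _ _ _).trans (pol_deg _))
  · intro s
    rw [Polynomial.eval_finsetSum]
    unfold ph
    refine Finset.sum_congr rfl fun j _ => ?_
    rw [Polynomial.eval_pow, eval_lin, pl_line]
    have e1 : (fun k => (Fin.cons 0 a : Fin (m + 1) → ℝ) k + r * nod D ↑(j k) + s * (Fin.cons 1 x : Fin (m + 1) → ℝ) k) =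
        nodp D (fun k => (Fin.cons 0 a : Fin (m + 1) → ℝ) k + s * (Fin.cons 1 x : Fin (m + 1) → ℝ) k) r j := by
      funext k
      unfold nodp
      ring
    rw [e1]

variable (s : Sys S m)

/-- the line and the coarse height, as a partition of the space over the label -/
def SA (x : ∀ k, FD (S.F k) (Mon (m + 1) D)) (c : ℝ) (k : ℕ) : Setoid ((Ov x).F k).Ω :=
  Setoid.comap (x k).l.p.π ((s.fin k).ka 1 ⊓ (s.fin k).kx 1 ⊓ (s.fin k).kt c)

/-- the point and the height -/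
def SB (x : ∀ k, FD (S.F k) (Mon (m + 1) D)) (k : ℕ) : Setoid ((Ov x).F k).Ω :=
  Setoid.comap (x k).l.p.π ((s.fin k).kP 1 ⊓ (s.fin k).kt 1)

theorem fc_SA (x : ∀ k, FD (S.F k) (Mon (m + 1) D)) (c : ℝ) (k : ℕ) :
    Lab.up (fun k => (x k).l) 1 one_pos (cA s c) k = fc (F := (Ov x).F k) (SA s x c k) := rfl

theorem fc_SB (x : ∀ k, FD (S.F k) (Mon (m + 1) D)) (k : ℕ) :
    Lab.up (fun k => (x k).l) 1 one_pos (cB s) k = fc (F := (Ov x).F k) (SB s x k) := rfl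

/-- polynomials along the classes -/
theorem LP_sys (x : ∀ k, FD (S.F k) (Mon (m + 1) D)) (c : ℝ) (k : ℕ) (R : ℝ) (hR : 0 ≤ R)
    (ht : ∀ ω, (S.F k).μ ω ≠ 0 → ∀ i, |s.t.v k ω i| ≤ R) :
    LP ((Ov x).F k) (SA s x c k) (fun ω => s.t.v k ((x k).l.p.π ω) 0)
      (fun ω cf => sph s D k ((x k).l.p.π ω) (cc cf)) (cN m D (R + 2)) (S.dl c k) (2 * D) := by
  intro ω cf hω
  have hd := S.dl_pos 1 k
  obtain ⟨g, h1, h2⟩ := ph_poly cf (S.dl 1 k) (s.a.v k ((x k).l.p.π ω)) (s.x.v k ((x k).l.p.π ω))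
  refine ⟨g, h1, fun ω' hω' hA _ => ?_⟩
  obtain ⟨⟨ha, hx⟩, hct⟩ := hA
  have hω1 : (S.F k).μ ((x k).l.p.π ω') ≠ 0 := (x k).l.p.supp ω' hω'
  have ea : ∀ i, |s.a.v k ((x k).l.p.π ω') i - s.a.v k ((x k).l.p.π ω) i| ≤ S.dl 1 k := fun i =>
    Sp.abs_sub_le_of_floor_eq hd (congrFun (Eq.symm ha) i)
  have ex' : ∀ i, |s.x.v k ((x k).l.p.π ω') i - s.x.v k ((x k).l.p.π ω) i| ≤ S.dl 1 k := fun i =>
    Sp.abs_sub_le_of_floor_eq hd (congrFun (Eq.symm hx) i)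
  have et : |s.t.v k ((x k).l.p.π ω') 0 - s.t.v k ((x k).l.p.π ω) 0| ≤ S.dl c k :=
    Sp.abs_sub_le_of_floor_eq (S.dl_pos c k) (congrFun (Eq.symm hct) 0)
  have hp := pl_diff (s.a.v k ((x k).l.p.π ω)) (s.x.v k ((x k).l.p.π ω)) (s.a.v k ((x k).l.p.π ω'))
    (s.x.v k ((x k).l.p.π ω')) (s.t.v k ((x k).l.p.π ω') 0) (S.dl 1 k) R hd.le (ht _ hω1 0) ea ex'
  have hnn : 0 ≤ g.eval (s.t.v k ((x k).l.p.π ω') 0) := by
    rw [h2]
    exact ph_nonneg _ _ _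
  refine ⟨et, ?_, ?_⟩
  · rw [abs_of_nonneg hnn, h2]
    show phi (S.dl 1 k) (cc cf) (ptf s k ((x k).l.p.π ω')) ≤ _
    rw [phi_cc]
    apply ph_near cf _ _ hd (by linarith)
    intro i
    have := hp i
    show |pl (s.a.v k ((x k).l.p.π ω')) (s.x.v k ((x k).l.p.π ω')) (s.t.v k ((x k).l.p.π ω') 0) i - _| + _ ≤ _
    nlinarith
  · rw [abs_of_nonneg hnn, h2]
    show _ ≤ _ * phi (S.dl 1 k) (cc cf) (ptf s k ((x k).l.p.π ω'))
    rw [phi_cc]
    apply ph_near cf _ _ hd (by linarith)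
    intro i
    have := hp i
    rw [abs_sub_comm]
    show |pl (s.a.v k ((x k).l.p.π ω')) (s.x.v k ((x k).l.p.π ω')) (s.t.v k ((x k).l.p.π ω') 0) i - _| + _ ≤ _
    nlinarith

/-- neighbouring points of the same cell -/
theorem near_B (x : ∀ k, FD (S.F k) (Mon (m + 1) D)) (k : ℕ) (ω ω' : ((Ov x).F k).Ω) (h : SB s x k ω ω')
    (cf : Mon (m + 1) D → ℝ) : sph s D k ((x k).l.p.π ω') (cc cf) ≤
      cN m D 2 * sph s D k ((x k).l.p.π ω) (cc cf) := by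
  have hd := S.dl_pos 1 k
  obtain ⟨hP, ht⟩ := h
  show phi (S.dl 1 k) (cc cf) (ptf s k ((x k).l.p.π ω')) ≤ _ * phi (S.dl 1 k) (cc cf) (ptf s k ((x k).l.p.π ω))
  rw [phi_cc, phi_cc]
  apply ph_near cf _ _ hd (by norm_num)
  intro i
  have h1 : |ptf s k ((x k).l.p.π ω') i - ptf s k ((x k).l.p.π ω) i| ≤ S.dl 1 k := by
    refine Fin.cases ?_ (fun j => ?_) i
    · exact Sp.abs_sub_le_of_floor_eq hd (congrFun (Eq.symm ht) 0)
    · exact Sp.abs_sub_le_of_floor_eq hd (congrFun (Eq.symm hP) j)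
  linarith

end

end Pool.Agent.Helper48.NS
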