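import Pool.Agent.Helper48.NS.Lev
import Pool.Agent.Helper48.NS.Ex
import Pool.Agent.Helper40.EL.D4
import Pool.Agent.Helper89.LX.Jn

/-! Labels with coefficients; the mean exponent of a function of the coefficient and the point under resampling of the
point given the line (`step_A`) and given the point (`step_B`). (DEGREE) -/

set_option autoImplicit false

namespace Pool.Agent.Helper48.NS

open Finset Pool.Agent.Helper69.RK Pool.Agent.Helper3.LF Pool.Agent.Helper31.EC Pool.Agent.Helper40.EL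
open Pool.Agent.Helper89.LX (sum_push pb_push)

noncomputable section

open Classical in
/-- a variable without conditional entropy is a function of the condition -/
theorem dep_of_CH {Ω α γ : Type} [Fintype Ω] (μ : Ω → ℝ) (f : Ω → α) (g : Ω → γ) (hμ : ∀ ω, 0 ≤ μ ω)
    (h : CH μ f g = 0) (ω ω' : Ω) (h1 : μ ω ≠ 0) (h2 : μ ω' ≠ 0) (h3 : g ω' = g ω) : f ω' = f ω := by
  by_contra hne
  unfold CH at h
  have hnn : ∀ ω ∈ (univ : Finset Ω), 0 ≤ μ ω * (Real.logb 2 (pr μ g ω) - Real.logb 2 (pr μ (fun ω' => (f ω', g ω')) ω)) := by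
    intro ω _
    by_cases h0 : μ ω = 0
    · simp [h0]
    · refine mul_nonneg (hμ ω) (sub_nonneg.2 ?_)
      refine Real.logb_le_logb_of_le (by norm_num) (e1_pr_pos μ _ hμ ω h0) ?_
      exact e1_pr_mono μ _ _ hμ ω (fun ω' _ h => (Prod.ext_iff.1 h).2)
  have h4 := (Finset.sum_eq_zero_iff_of_nonneg hnn).1 h ω (Finset.mem_univ ω)
  have h5 : Real.logb 2 (pr μ g ω) = Real.logb 2 (pr μ (fun ω' => (f ω', g ω')) ω) := by
    rcases mul_eq_zero.1 h4 with h6 | h6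
    · exact absurd h6 h1
    · linarith
  have h6 : pr μ g ω = pr μ (fun ω' => (f ω', g ω')) ω :=
    Real.logb_injOn_pos (b := 2) (by norm_num) (e1_pr_pos μ _ hμ ω h1) (e1_pr_pos μ _ hμ ω h1) h5
  have h7 : pr μ (fun ω' => (f ω', g ω')) ω < pr μ g ω := by
    unfold pr
    apply Finset.sum_lt_sum
    · intro i _
      by_cases h8 : (f i, g i) = (f ω, g ω)
      · rw [if_pos h8, if_pos (Prod.ext_iff.1 h8).2]
      · rw [if_neg h8]
        split_ifs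
        · exact hμ i
        · exact le_rfl
    · refine ⟨ω', Finset.mem_univ _, ?_⟩
      rw [if_neg (fun h8 => hne (Prod.ext_iff.1 h8).1), if_pos h3]
      exact lt_of_le_of_ne (hμ ω') (Ne.symm h2)
  linarith

theorem fc_le_supp {F : FSp} {A B : Setoid F.Ω} (h : fc A ≤ fc B) (ω ω' : F.Ω) (h1 : F.μ ω ≠ 0) (h2 : F.μ ω' ≠ 0)
    (hZ : F.Z ω ω') (hB : B ω ω') : A ω ω' := by
  have h3 : F.e A (B ⊓ F.Z) = 0 := h
  have h4 := dep_of_CH F.μ (Quotient.mk A) (Quotient.mk (B ⊓ F.Z)) F.nn h3 ω' ω h2 h1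
    (Quotient.sound (s := B ⊓ F.Z) ⟨hB, hZ⟩)
  exact Quotient.exact (s := A) h4

/-- a label with a coefficient -/
structure CL (F : FSp) (X : Type) where
  l : FLab F
  c : l.T.Ω → X
  meas : ∀ ω ω', l.T.μ ω ≠ 0 → l.T.μ ω' ≠ 0 → l.V ω ω' → l.T.Z ω ω' → c ω = c ω'

namespace CL

variable {F : FSp} {X : Type} (x : CL F X)

/-- mean value of a function of the point and the coefficient -/
def E (f : F.Ω → X → ℝ) : ℝ := ∑ ω, x.l.T.μ ω * f (x.l.p.π ω) (x.c ω)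

/-- all coefficients are good -/
def Good (G : F.Ω → X → Prop) : Prop := ∀ ω, x.l.T.μ ω ≠ 0 → G (x.l.p.π ω) (x.c ω)

/-- resampling -/
def rs (a : FL F) : CL F X where
  l := x.l.rs a
  c := fun w => x.c ((x.l.rsD a).p1.π w)
  meas := fun w w' h h' hV hZ => by
    refine x.meas _ _ ((x.l.rsD a).p1.supp w h) ((x.l.rsD a).p1.supp w' h') hV ?_
    exact ((x.l.rsD a).p1.hZ w w' h h').mp hZ

/-- two points of the support of the resampling -/
theorem rs_supp (a : FL F) (w : x.l.T.Ω × F.Ω) (h : (x.l.rsD a).sp.μ w ≠ 0) :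
    x.l.T.μ w.1 ≠ 0 ∧ F.μ w.2 ≠ 0 ∧ frep a (x.l.p.π w.1) w.2 ∧ F.Z (x.l.p.π w.1) w.2 := by
  obtain ⟨h1, h2, h3⟩ := (x.l.rsD a).supp w h
  have h4 : (Quotient.mk (frep a) (x.l.p.π w.1), Quotient.mk F.Z (x.l.p.π w.1)) =
    (Quotient.mk (frep a) w.2, Quotient.mk F.Z w.2) := h1
  rw [Prod.mk.injEq] at h4
  exact ⟨h2, h3, (Quotient.eq (r := frep a)).mp h4.1, (Quotient.eq (r := F.Z)).mp h4.2⟩

theorem rs_supp_fc (A : Setoid F.Ω) (w : x.l.T.Ω × F.Ω) (h : (x.l.rsD (fc A)).sp.μ w ≠ 0) :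
    x.l.T.μ w.1 ≠ 0 ∧ F.μ w.2 ≠ 0 ∧ A (x.l.p.π w.1) w.2 ∧ F.Z (x.l.p.π w.1) w.2 := by
  obtain ⟨h1, h2, h3, h4⟩ := x.rs_supp (fc A) w h
  refine ⟨h1, h2, ?_, h4⟩
  exact fc_le_supp (B := frep (fc A)) (fc_frep (fc A)).ge _ _ (x.l.p.supp _ h1) h2 h4 h3

theorem rs_good (a : FL F) {G : F.Ω → X → Prop} (hG : ∀ ω ω' c, F.μ ω ≠ 0 → F.μ ω' ≠ 0 → F.Z ω ω' → G ω c → G ω' c)
    (hx : x.Good G) : (x.rs a).Good G := by
  intro w hw
  obtain ⟨h1, h2, h3, h4⟩ := x.rs_supp a w hw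
  exact hG _ _ _ (x.l.p.supp _ h1) h2 h4 (hx _ h1)

/-- lower bound for the mean value after resampling -/
theorem rs_ge (a : FL F) (f : F.Ω → X → ℝ) (e : x.l.T.Ω → ℝ)
    (h : ∀ w, (x.l.rsD a).sp.μ w ≠ 0 → e w.1 ≤ f w.2 (x.c w.1)) : ∑ ω, x.l.T.μ ω * e ω ≤ (x.rs a).E f := by
  rw [← sum_push (x.l.rsD a).p1 e]
  unfold E
  refine Finset.sum_le_sum fun w _ => ?_
  by_cases h0 : (x.l.rsD a).sp.μ w = 0
  · have e1 : (x.rs a).l.T.μ w = 0 := h0
    rw [h0, e1, zero_mul, zero_mul]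
  · exact mul_le_mul_of_nonneg_left (h w h0) ((x.l.rsD a).sp.nn w)

theorem T_mass : ∑ ω, x.l.T.μ ω = 1 := x.l.T.ms

/-- resampling given an information which determines the point up to neighbours -/
theorem step_B (B : Setoid F.Ω) (f : F.Ω → X → ℝ) (ε : ℝ)
    (h : ∀ ω ω' c, F.μ ω ≠ 0 → F.μ ω' ≠ 0 → B ω ω' → F.Z ω ω' → f ω c - ε ≤ f ω' c) :
    x.E f - ε ≤ (x.rs (fc B)).E f := by
  have h1 := x.rs_ge (fc B) f (fun ω => f (x.l.p.π ω) (x.c ω) - ε) (by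
    intro w hw
    obtain ⟨h1, h2, h3, h4⟩ := x.rs_supp_fc B w hw
    exact h _ _ _ (x.l.p.supp _ h1) h2 h3 h4)
  refine le_trans (le_of_eq ?_) h1
  unfold E
  simp only [mul_sub, Finset.sum_sub_distrib, ← Finset.sum_mul]
  rw [x.T_mass, one_mul]

end CL

end

end Pool.Agent.Helper48.NS
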