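import Pool.Agent.Helper48.NS.Val
import Pool.Agent.Helper40.EL.D2

/-! Variational principle for labels with coefficients: a label which almost maximises `mean value - C info` at a finite
level has no leaks. (DEGREE, replaces walks) -/

set_option autoImplicit false

namespace Pool.Agent.Helper48.NS

open Finset Filter Topology Pool.Agent.Helper69.RK Pool.Agent.Helper31.EC Pool.Agent.Helper40.EL

noncomputable section

namespace CL

variable {F : FSp} {X : Type}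

theorem E_le (x : CL F X) (f : F.Ω → X → ℝ) (M : ℝ) (h : ∀ ω c, f ω c ≤ M) : x.E f ≤ M := by
  have h1 : x.E f ≤ ∑ ω, x.l.T.μ ω * M := by
    unfold E
    exact Finset.sum_le_sum fun ω _ => mul_le_mul_of_nonneg_left (h _ _) (x.l.T.nn ω)
  rw [← Finset.sum_mul, x.T_mass, one_mul] at h1
  exact h1

theorem E_nonneg (x : CL F X) (f : F.Ω → X → ℝ) (h : ∀ ω c, 0 ≤ f ω c) : 0 ≤ x.E f :=
  Finset.sum_nonneg fun ω _ => mul_nonneg (x.l.T.nn ω) (h _ _)

/-- the functional -/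
def pot (x : CL F X) (f : F.Ω → X → ℝ) (C : ℝ) : ℝ := x.E f - C * (x.l.info / F.n)

/-- almost maximisers -/
theorem near_max (G : F.Ω → X → Prop) (f : F.Ω → X → ℝ) (M C δ : ℝ) (hf : ∀ ω c, f ω c ≤ M) (hC : 0 ≤ C) (hδ : 0 < δ)
    (x₀ : CL F X) (h₀ : x₀.Good G) : ∃ y : CL F X, y.Good G ∧ x₀.pot f C ≤ y.pot f C ∧
      ∀ z : CL F X, z.Good G → z.pot f C ≤ y.pot f C + δ := by
  have hn := F.pos
  set V : Set ℝ := {r | ∃ x : CL F X, x.Good G ∧ r = x.pot f C} with hV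
  have hVb : BddAbove V := by
    refine ⟨M, ?_⟩
    rintro r ⟨x, -, rfl⟩
    have h1 := x.E_le f M hf
    have h2 : 0 ≤ C * (x.l.info / F.n) := mul_nonneg hC (div_nonneg x.l.info_nonneg hn.le)
    unfold pot
    linarith
  have hVn : V.Nonempty := ⟨_, x₀, h₀, rfl⟩
  obtain ⟨r, ⟨x, hx, rfl⟩, hr⟩ := exists_lt_of_lt_csSup hVn (show sSup V - δ < sSup V by linarith)
  have h3 : ∀ z : CL F X, z.Good G → z.pot f C ≤ sSup V := fun z hz => le_csSup hVb ⟨z, hz, rfl⟩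
  rcases le_total (x₀.pot f C) (x.pot f C) with h | h
  · exact ⟨x, hx, h, fun z hz => by have := h3 z hz; linarith⟩
  · exact ⟨x₀, h₀, le_rfl, fun z hz => by have := h3 z hz; linarith⟩

/-- a step with small loss from an almost maximiser has a small leak -/
theorem small_leak (G : F.Ω → X → Prop)
    (hG : ∀ ω ω' c, F.μ ω ≠ 0 → F.μ ω' ≠ 0 → F.Z ω ω' → G ω c → G ω' c) (f : F.Ω → X → ℝ) (C Ca δ ε : ℝ)
    (y : CL F X) (hy : y.Good G) (hmax : ∀ z : CL F X, z.Good G → z.pot f C ≤ y.pot f C + δ) (a : FL F)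
    (hstep : y.E f - Ca * (y.l.leak a / F.n) - ε ≤ (y.rs a).E f) :
    (C - Ca) * (y.l.leak a / F.n) ≤ δ + ε := by
  have h1 := hmax (y.rs a) (y.rs_good a hG hy)
  have h2 : (y.rs a).l.info = y.l.info - y.l.leak a := y.l.rs_info a
  unfold pot at h1
  rw [h2, sub_div] at h1
  linarith

end CL

/-- VARIATIONAL PRINCIPLE -/
theorem vari (T : Sp) (X : Type) (A B : Part T) (G : ∀ k, (T.F k).Ω → X → Prop)
    (hG : ∀ k ω ω' c, (T.F k).μ ω ≠ 0 → (T.F k).μ ω' ≠ 0 → (T.F k).Z ω ω' → G k ω c → G k ω' c)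
    (f : ∀ k, (T.F k).Ω → X → ℝ) (M : ℝ) (hf : ∀ k ω c, f k ω c ≤ M)
    (htr : ∀ y : Lab T, y.DM A B → Nul T (fun k => (y k).info)) (CA CB C : ℝ) (hC : 0 ≤ C) (hA : CA < C) (hB : CB < C)
    (εA εB : ℕ → ℝ) (hεA : Tendsto εA UF (𝓝 0)) (hεB : Tendsto εB UF (𝓝 0))
    (sA : ∀ᶠ k in UF, ∀ x : CL (T.F k) X, x.Good (G k) →
      x.E (f k) - CA * (x.l.leak (A k) / (T.F k).n) - εA k ≤ (x.rs (A k)).E (f k))
    (sB : ∀ᶠ k in UF, ∀ x : CL (T.F k) X, x.Good (G k) →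
      x.E (f k) - CB * (x.l.leak (B k) / (T.F k).n) - εB k ≤ (x.rs (B k)).E (f k))
    (x₀ : ∀ k, CL (T.F k) X) (h₀ : ∀ᶠ k in UF, (x₀ k).Good (G k)) :
    ∃ y : ∀ k, CL (T.F k) X, (∀ᶠ k in UF, (y k).Good (G k)) ∧ Lab.DM (fun k => (y k).l) A B ∧
      Nul T (fun k => (y k).l.info) ∧
      ∀ᶠ k in UF, (x₀ k).E (f k) - C * ((x₀ k).l.info / (T.F k).n) ≤ (y k).E (f k) := by
  classical
  have hex : ∀ k, ∃ y : CL (T.F k) X, (x₀ k).Good (G k) → (y.Good (G k) ∧ (x₀ k).pot (f k) C ≤ y.pot (f k) C ∧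
      ∀ z : CL (T.F k) X, z.Good (G k) → z.pot (f k) C ≤ y.pot (f k) C + 1 / (T.F k).n) := by
    intro k
    by_cases h : (x₀ k).Good (G k)
    · obtain ⟨y, h1, h2, h3⟩ := CL.near_max (G k) (f k) M C (1 / (T.F k).n) (hf k) hC
        (div_pos one_pos (T.F k).pos) (x₀ k) h
      exact ⟨y, fun _ => ⟨h1, h2, h3⟩⟩
    · exact ⟨x₀ k, fun h' => absurd h' h⟩
  choose y hy using hex
  have hδ : Tendsto (fun k => 1 / (T.F k).n) UF (𝓝 0) := T.div_n_tendsto 1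
  have hyG : ∀ᶠ k in UF, (y k).Good (G k) := by
    filter_upwards [h₀] with k hk using (hy k hk).1
  have leak : ∀ (P : Part T) (Cp : ℝ) (ε : ℕ → ℝ), Cp < C → Tendsto ε UF (𝓝 0) →
      (∀ᶠ k in UF, ∀ x : CL (T.F k) X, x.Good (G k) →
        x.E (f k) - Cp * (x.l.leak (P k) / (T.F k).n) - ε k ≤ (x.rs (P k)).E (f k)) →
      Nul T (fun k => (y k).l.leak (P k)) := by
    intro P Cp ε hCp hε hs
    have h1 : Tendsto (fun k => (C - Cp)⁻¹ * (1 / (T.F k).n + ε k)) UF (𝓝 0) := by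
      have := (hδ.add hε).const_mul (C - Cp)⁻¹
      rwa [add_zero, mul_zero] at this
    refine tendsto_of_tendsto_of_tendsto_of_le_of_le' tendsto_const_nhds h1 ?_ ?_
    · exact Eventually.of_forall fun k => div_nonneg (FLab.leak_nonneg _ _) (T.F k).pos.le
    · filter_upwards [h₀, hs] with k hk hs
      obtain ⟨a1, a2, a3⟩ := hy k hk
      have a4 := CL.small_leak (G k) (hG k) (f k) C Cp (1 / (T.F k).n) (ε k) (y k) a1 a3 (P k) (hs (y k) a1)
      rw [inv_mul_eq_div, le_div_iff₀ (by linarith), mul_comm]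
      exact a4
  have hDM : Lab.DM (fun k => (y k).l) A B := ⟨leak A CA εA hA hεA sA, leak B CB εB hB hεB sB⟩
  refine ⟨y, hyG, hDM, htr _ hDM, ?_⟩
  filter_upwards [h₀] with k hk
  obtain ⟨a1, a2, a3⟩ := hy k hk
  have a4 : 0 ≤ C * ((y k).l.info / (T.F k).n) := mul_nonneg hC (div_nonneg (FLab.info_nonneg _) (T.F k).pos.le)
  unfold CL.pot at a2
  linarith

end

end Pool.Agent.Helper48.NS
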